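import Mathlib

/-!
Definitions for MP_dcc108_nt, local growth of the number of representations (helper41).  See
`Pool/Agent/UFL/St.lean` for the statements of the modules and their proofs on paper.
-/

set_option autoImplicit false

namespace Pool.Agent.UFL

open Finset

/-! ### Unit fractions -/

/-- The sum of the reciprocals of the members of a multiset. -/
def rs (s : Multiset ℕ) : ℚ := (s.map (fun x : ℕ => (1 : ℚ) / (x : ℚ))).sum

/-- `q` is a sum of at most `k` unit fractions. -/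
def UF (k : ℕ) (q : ℚ) : Prop :=
  ∃ s : Multiset ℕ, Multiset.card s ≤ k ∧ (∀ x ∈ s, 0 < x) ∧ rs s = q

/-- There are at least `K` unordered representations of `q` with exactly `t` unit fractions. -/
def Cnt (q : ℚ) (t K : ℕ) : Prop :=
  ∃ F : Finset (Multiset ℕ),
    (∀ s ∈ F, Multiset.card s = t ∧ (∀ x ∈ s, 0 < x) ∧ rs s = q) ∧ K ≤ F.card

/-- The ordered solutions of `q = 1 / x 1 + ... + 1 / x t`. -/
def Sol (q : ℚ) (t : ℕ) : Set (Fin t → ℕ) :=
  {x | (∀ i, 0 < x i) ∧ ∑ i, (1 : ℚ) / (x i : ℚ) = q}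

/-- The multiset of the entries of a tuple. -/
def ms {t : ℕ} (x : Fin t → ℕ) : Multiset ℕ := Finset.univ.val.map x

/-! ### Characters -/

/-- The pool: the primes below `2 ^ (20 l)`. -/
def pool (l : ℕ) : Finset ℕ := (range (2 ^ (20 * l))).filter Nat.Prime

/-- `f` is a bad conductor: some primitive character mod `f` has a big sum over the pool. -/
def BadC (l f : ℕ) : Prop :=
  ∃ ψ : DirichletCharacter ℂ f, ψ.IsPrimitive ∧
    ((pool l).card : ℝ) < 4 * ‖∑ q ∈ pool l, ψ (q : ZMod f)‖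

/-- `n` is good: all characters mod `n` except the principal one have small sums over the pool. -/
def Good (l n : ℕ) : Prop :=
  ∀ χ : DirichletCharacter ℂ n, χ ≠ 1 →
    2 * ‖∑ q ∈ pool l, χ (q : ZMod n)‖ ≤ ((pool l).card : ℝ)

/-- `n` is nice for `q`: it divides `u + 1` for a subproduct `u` of `q`. -/
def Nice {w : ℕ} (q : Fin w → ℕ) (n : ℕ) : Prop :=
  ∃ S : Finset (Fin w), n ∣ (∏ i ∈ S, q i) + 1

/-- The modulus `W`. -/
def WW (l : ℕ) : ℕ := (2 ^ 17 * l).factorial

/-- The number `N₀`. -/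
def NN (l : ℕ) : ℕ := 2 ^ 2 ^ (l - 4)

end Pool.Agent.UFL
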