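import Mathlib
import Pool.Agent.UFL.Defs

/-!
# Statements for MP_dcc108_nt: prescribed denominators (helper41, Dec 5)

THEOREM.  There are `c > 0` and `t₀` such that for all `t ≥ t₀` and all rationals `a / b` in `(0, 1)` with
`b ≤ exp (exp (c t))` the number of solutions `x_1 ≤ … ≤ x_t` of `a / b = 1 / x_1 + … + 1 / x_t` is at least
`exp (exp (c t))`; so every multiset `A` of positive integers, with sum of reciprocals `< 1` and dividing a number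
`≤ exp (exp (c t))`, is contained in at least `exp (exp (c t))` solutions of `1 = 1 / x_1 + … + 1 / x_(|A| + t)`.

Notation: `w = 2 ^ l`; `pool l` the primes below `2 ^ (20 l) = w ^ 20`, `P` their number; `W = WW l`, `N₀ = NN l
= 2 ^ (w / 16)`.

Chain: `S_PC`, `S_EN`, `S_ORT` → `S_LS` → `S_BC1`, `S_BC2` → `S_SUMF`; `S_BADN`, `S_CNT` → `S_CLS`;
`S_NICE`, `S_AVG` → `S_EXI`; `S_CLS`, `S_EXI` → `S_ENG` → `S_DIG`, `S_GRE`, `S_MUL`, `S_SPL` → `S_MAIN1`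
→ `S_MAIN2`; `S_BRG`, `S_FIN`, `S_PRE` → result.
In every module the statements written before an arrow may be used as hypotheses of your theorem, e.g.
`theorem LS (hE : S_EN) (hO : S_ORT) : S_LS`.
-/

set_option autoImplicit false

namespace Pool.Agent.UFL

open Finset

/-- **PC**.  `Pool.Agent.Lib_helper83.EF.card_primes_two_pow` (Chebyshev) with `m = 20 l`:
`2 ^ m ≤ m c + m + 1`, and `2 ^ m` is not prime; `2 (m + 1) ≤ 2 ^ m`. -/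
def S_PC : Prop := ∀ l : ℕ, 1 ≤ l → 2 ^ (20 * l) ≤ 40 * l * (pool l).card

/-- **EN**, energy.  For a fixed second component there are at most `j!` first components:
`Pool.Agent.Lib_helper83.EF.card_prod_eq_le` (unique factorisation). -/
def S_EN : Prop :=
  ∀ (P : Finset ℕ), (∀ p ∈ P, p.Prime) → ∀ j : ℕ,
    (((Fintype.piFinset fun _ : Fin j => P) ×ˢ (Fintype.piFinset fun _ : Fin j => P)).filter
      fun z => ∏ i, z.1 i = ∏ i, z.2 i).card ≤ j.factorial * P.card ^ j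

/-- **ORT**.  Let `L = f f'`, `Θ = changeLevel ψ * (changeLevel ψ')⁻¹`, a character mod `L`.  For all `m`:
`ψ m * conj (ψ' m) = Θ m` (both sides are 0 if `m` is not coprime to `L`; values of characters at units have
absolute value 1).  `Θ ≠ 1`: otherwise `changeLevel ψ = changeLevel ψ'`, and by
`DirichletCharacter.conductor_changeLevel` `f = conductor ψ = conductor ψ' = f'`.  So the sum of `Θ` over a period
is 0 (`MulChar.sum_eq_zero_of_ne_one`), and `X = L a + r`, `r < L`, gives `≤ L`. -/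
def S_ORT : Prop :=
  ∀ (f f' : ℕ) (ψ : DirichletCharacter ℂ f) (ψ' : DirichletCharacter ℂ f') (X : ℕ),
    1 ≤ f → 1 ≤ f' → f ≠ f' → ψ.IsPrimitive → ψ'.IsPrimitive →
    ‖∑ m ∈ range X, ψ (m : ZMod f) * (starRingEnd ℂ) (ψ' (m : ZMod f'))‖ ≤ f * f'

/-- **LS** (from EN, ORT), large sieve by duality.  `P = card (pool l)` (if `P = 0` there is no bad `f`).
For `f ∈ B` choose a primitive bad `ψ_f`; `T_f = (∑_q ψ_f q) ^ j = ∑_(m < X) a_m ψ_f(m)`, `X = 2 ^ (20 l j)`, `a_m` the number of `q : Fin j → pool` with product `m`; `∑ a_m ^ 2 ≤ j! P ^ j` (EN).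
`∑_f |T_f|^2 = ∑_m a_m ∑_f conj T_f ψ_f(m) ≤ (∑ a_m^2)^(1/2) (∑_(m < X) |∑_f conj T_f ψ_f(m)|^2)^(1/2)`, and the last
sum is `≤ X ∑ |T_f|^2 + ∑_(f ≠ f') |T_f| |T_f'| F^2 ≤ (X + F^2 card B) ∑ |T_f|^2` (ORT; `(∑|T_f|)^2 ≤ card B ∑ |T_f|^2`).
So `∑_f |T_f|^2 ≤ (X + F^2 card B) j! P^j`, and `|T_f| ≥ (P / 4) ^ j`.  Divide by `P ^ j`. -/
def S_LS : Prop :=
  ∀ (l j F : ℕ) (B : Finset ℕ), 1 ≤ j → (∀ f ∈ B, BadC l f ∧ 2 ≤ f ∧ f ≤ F) →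
    B.card * (pool l).card ^ j ≤ 16 ^ j * j.factorial * (2 ^ (20 * l * j) + F ^ 2 * B.card)

/-- **BC1** (from LS, PC).  `j = 1`, `F = 2 ^ (8 l)`: `B P ≤ 16 (2^(20l) + 2^(16l) B)`; `16 * 2^(16l) ≤ P / 2`
(because `P ≥ 2^(20l) / (40 l)`), so `B P / 2 ≤ 16 * 2^(20l) ≤ 16 * 40 l P`, `B ≤ 1280 l`. -/
def S_BC1 : Prop :=
  ∀ (l : ℕ) (B : Finset ℕ), 20 ≤ l → (∀ f ∈ B, BadC l f ∧ 2 ≤ f ∧ f ≤ 2 ^ (8 * l)) →
    B.card ≤ 1280 * l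

/-- **BC2** (from LS, PC).  `F = 2 ^ (8 l j)`.  `j! ≤ j ^ j ≤ 2 ^ (l j)` and `(40 l) P ≥ 2^(20l)`.
`16^j j! F^2 (40 l)^j * 2 ≤ 2^(4j + lj + 16lj + 1) (40 l)^j ≤ 2^(20lj) ≤ (40 l)^j P^j`, so `16^j j! F^2 ≤ P^j / 2`,
and `B P^j / 2 ≤ 16^j j! 2^(20lj) ≤ 16^j 2^(lj) (40 l)^j P^j`, `B ≤ 2 (640 l 2^l)^j ≤ 2 * 2^(2lj)`
(`640 l ≤ 2^l` for `l ≥ 20`). -/
def S_BC2 : Prop :=
  ∀ (l j : ℕ) (B : Finset ℕ), 20 ≤ l → 1 ≤ j → j ≤ 2 ^ l →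
    (∀ f ∈ B, BadC l f ∧ 2 ≤ f ∧ f ≤ 2 ^ (8 * l * j)) → B.card ≤ 2 ^ (2 * l * j + 1)

/-- **SUMF** (from BC1, BC2).  `f ∈ B`: `2^17 l < f ≤ N := 2 ^ (2^(l-4) + 2)`.  The part `f ≤ 2^(8l)`: at most
`1280 l` numbers, each reciprocal `≤ 1 / (2^17 l)`: total `≤ 1280 / 2^17 < 1/100`.  For `j ≥ 2` the part `2^(8l(j-1))
< f ≤ 2^(8lj)` contributes `≤ 2^(2lj+1) / 2^(8l(j-1)) = 2^(1+8l-6lj)`; the sum over `j ≥ 2` is `≤ 2^(2-4l)`.  All `f`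
are covered by `j ≤ J`, `J = ⌈(2^(l-4)+2) / (8l)⌉ ≤ 2^l`.  Number of elements: `≤ 2^(2lJ+1)`, `8lJ ≤ 2^(l-4)+2+8l`, so
`2lJ + 1 ≤ 2^(l-6) + 2l + 2 ≤ 2^(l-5)` for `l ≥ 20`. -/
def S_SUMF : Prop :=
  ∀ (l : ℕ) (B : Finset ℕ), 20 ≤ l →
    (∀ f ∈ B, BadC l f ∧ 2 ^ 17 * l < f ∧ f ≤ 2 ^ (2 ^ (l - 4) + 2)) →
    ∑ f ∈ B, (1 : ℝ) / f ≤ 1 / 64 ∧ B.card ≤ 2 ^ 2 ^ (l - 5)

/-- **BADN** (from PC).  `χ ≠ 1` mod `n` with `2 ‖∑ χ q‖ > P`.  `f = conductor χ` divides `n`, `f ≠ 1`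
(`eq_one_iff_conductor_eq_one`), `ψ = χ.primitiveCharacter`.  `χ q = ψ q` if `q` does not divide `n`
(`primitiveCharacter_apply_of_isCoprime`), and `χ q = 0` otherwise; at most `log₂ n ≤ 2^(l-4)+2` primes divide `n`
(`2 ^ card n.primeFactors ≤ n`).  So `‖∑ ψ q‖ ≥ P / 2 - (2^(l-4)+2) > P / 4`, as `P ≥ 2^(20l) / (40l)`. -/
def S_BADN : Prop :=
  ∀ l n : ℕ, 20 ≤ l → 1 ≤ n → n ≤ 2 ^ (2 ^ (l - 4) + 2) → ¬ Good l n →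
    ∃ f : ℕ, f ∣ n ∧ 2 ≤ f ∧ BadC l f

/-- **CNT**.  By the Chinese remainder theorem these `n` lie in at most one class mod `f W` (if `n, n'` are two of
them, then `f W ∣ n - n'`); `n ↦ n / (f W)` is injective on them, with values `≤ N / (f W)`. -/
def S_CNT : Prop :=
  ∀ N W f c : ℕ, 1 ≤ W → 1 ≤ f → Nat.Coprime f W →
    ((range (N + 1)).filter fun n => n % W = c % W ∧ f ∣ n).card ≤ N / (f * W) + 1

/-- **CLS** (from SUMF, BADN, CNT, WLE).  `c` is prime to `W = (2^17 l)!`; let `n ≤ 3 N₀`, `n ≡ c` mod `W`, `n` not good.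
`n` is prime to `W`, so `1 ≤ n`; BADN gives a bad `f ≥ 2` dividing `n` (`3 N₀ ≤ 2^(2^(l-4)+2)`); `f` is prime to
`W`, so `f > 2^17 l` and `f ≤ n`.  The number is `≤ ∑_f (3 N₀ / (f W) + 1) ≤ (3 / 64) N₀ / W + 2^2^(l-5)`, and
`2^2^(l-5) ≤ N₀ / (64 W)` because `W ≤ (2^17 l)^(2^17 l) ≤ 2^2^(l-6)` for large `l`. -/
def S_CLS : Prop :=
  ∃ l₀ : ℕ, ∀ l ≥ l₀, ∀ c : ℕ, Nat.Coprime c (WW l) →
    16 * WW l * Set.ncard {n : ℕ | n ≤ 3 * NN l ∧ n % WW l = c % WW l ∧ ¬ Good l n} ≤ NN l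

/-- **NICE**.  If no subproduct is `≡ -1` mod `n`, then by
`DirichletCharacter.sum_char_inv_mul_char_eq` (`a = -1`) and `∏ (1 + χ q_i) = ∑_S χ (∏_(i ∈ S) q_i)`
(`Finset.prod_one_add`):  `0 = ∑_χ χ((-1)⁻¹) ∏ (1 + χ q_i)`, where `χ = 1` contributes `2 ^ w` (all `q_i` are units)
and the rest is smaller in absolute value (the sum over all `χ` of the absolute values is `< 2 ^ (w + 1)`). -/
def S_NICE : Prop :=
  ∀ (n w : ℕ) (q : Fin w → ℕ), 1 ≤ n → (∀ i, Nat.Coprime (q i) n) →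
    (∑ χ : DirichletCharacter ℂ n, ∏ i, ‖1 + χ (q i : ZMod n)‖) < 2 ^ (w + 1) → Nice q n

/-- **AVG**.  `∑_q ‖1 + χ q‖^2 ≤ ∑ (1 + 2 Re χ q + 1) ≤ 2 P + 2 ‖∑ χ q‖ ≤ 3 P`, Cauchy-Schwarz; then the sum over
`q : Fin w → P` of the product is the `w`-th power (`Finset.prod_univ_sum`, `Finset.sum_prod_piFinset`); `w = 2 v`. -/
def S_AVG : Prop :=
  ∀ (n v : ℕ) (P : Finset ℕ) (χ : DirichletCharacter ℂ n),
    2 * ‖∑ q ∈ P, χ (q : ZMod n)‖ ≤ (P.card : ℝ) →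
    ∑ q ∈ Fintype.piFinset (fun _ : Fin (2 * v) => P), ∏ i, ‖1 + χ (q i : ZMod n)‖ ≤
      3 ^ v * (P.card : ℝ) ^ (2 * v)

/-- **EXI** (from PC, NICE, AVG).  `w = 2 ^ l`.  For a good `n ≤ 2^(2^(l-4)+2)` the number of `q : Fin w → pool` for
which `n` is not nice is at most `P^w / 64`: (a) some `q_i` divides `n`: at most `w (2^(l-4)+2) P^(w-1) ≤ P^w / 128`;
(b) otherwise by NICE the sum over `χ ≠ 1` is `≥ 2^w`; by Markov and AVG at most `n 3^(w/2) P^w / 2^w` such `q`;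
`3^(w/2) / 2^w = (3/4)^(w/2)`, `(3/4)^8 ≤ 1/8`, `w/2 = 8 * 2^(l-4)`, so this is `≤ 2^(2^(l-4)+2) 2^(-3 * 2^(l-4)) P^w ≤
P^w / 128`.  Sum over `n ∈ A` and take the best `q`. -/
def S_EXI : Prop :=
  ∀ (l : ℕ) (A : Finset ℕ), 20 ≤ l →
    (∀ n ∈ A, 1 ≤ n ∧ n ≤ 2 ^ (2 ^ (l - 4) + 2) ∧ Good l n) →
    ∃ q : Fin (2 ^ l) → ℕ, (∀ i, q i ∈ pool l) ∧ 64 * Set.ncard {n | n ∈ A ∧ ¬ Nice q n} ≤ A.card

/-- **SUR** (from CLS, EXI, CNT, WLE), most numbers `≡ ± 1` mod `W` are nice.  `A` = the good `n ≤ 3 N₀` with `n ≡ 1` or `-1` mod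
`W` (`1 ≤ n`), `card A ≤ 2 (3 N₀ / W + 1) ≤ 8 N₀ / W` (`W ≤ N₀` by WLE; CNT with `f = 1`).  EXI: at most `N₀ / (8 W)` are not
nice; CLS with `c = 1` and `c = W - 1`: at most `N₀ / (8 W)` are not good. -/
def S_SUR : Prop :=
  ∃ l₀ : ℕ, ∀ l ≥ l₀, ∃ q : Fin (2 ^ l) → ℕ, (∀ i, q i ∈ pool l) ∧
    4 * WW l * Set.ncard {n : ℕ | n ≤ 3 * NN l ∧ (n % WW l = 1 ∨ n % WW l = WW l - 1) ∧ ¬ Nice q n}
      ≤ NN l

/-- **WLE**.  `W ≤ (2^17 l)^(2^17 l) ≤ 2^((17 + log₂ l) 2^17 l) ≤ 2^2^(l-6)` for large `l`. -/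
def S_WLE : Prop := ∃ l₀ : ℕ, ∀ l ≥ l₀, 6 ≤ l ∧ WW l ≤ 2 ^ 2 ^ (l - 6)

/-- **ENG** (from SUR, WLE), the engine.  `Q = ∏ q_i` (`1 ≤ Q ≤ 2^(20 l w)`).  (1) `n` nice, `n ∣ u + 1`, `u ∣ Q`,
`m = (u + 1) / n`: `n / (Q z) = 1 / ((Q / u) z m) + 1 / (Q z m)` for all `z ≥ 1`.  (2) Let `1 ≤ x ≤ 2^2^(l-5)`; then
`x W ≤ N₀`, and some multiple `T` of `x W` has `2 N₀ ≤ T ≤ 3 N₀`; `T = x K`.  The numbers `a ≡ 1` mod `W`, `1 ≤ a < T` are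
at least `T / W - 1 ≥ 2 N₀ / W - 1`; `b = T - a ≡ -1` mod `W`.  At most `N₀ / (4 W)` of the `a` and at most `N₀ / (4 W)` of
the `b` are not nice, so for some `a` both are nice.  `x / (Q z) = T / (Q (K z)) = a / (Q (K z)) + b / (Q (K z))`. -/
def S_ENG : Prop :=
  ∃ l₀ : ℕ, ∀ l ≥ l₀, ∃ Q : ℕ, 1 ≤ Q ∧ Q ≤ 2 ^ (20 * l * 2 ^ l) ∧
    ∀ x z : ℕ, 1 ≤ x → x ≤ 2 ^ 2 ^ (l - 5) → 1 ≤ z → UF 4 ((x : ℚ) / ((Q : ℚ) * z))

/-- **DIG**, digits.  Induction on `e`, or: `x = ∑_(j ≤ e) m_j 2^(d j)`, `m_j < 2^d`;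
`m_j 2^(d j) / (2^(d e) Q z) = m_j / (Q (2^(d (e - j)) z))`, 4 unit fractions (none if `m_j = 0`). -/
def S_DIG : Prop :=
  ∀ Q d : ℕ, 1 ≤ Q →
    (∀ x z : ℕ, 1 ≤ x → x ≤ 2 ^ d → 1 ≤ z → UF 4 ((x : ℚ) / ((Q : ℚ) * z))) →
    ∀ e x z : ℕ, x < 2 ^ (d * (e + 1)) → 1 ≤ z →
      UF (4 * (e + 1)) ((x : ℚ) / ((2 : ℚ) ^ (d * e) * Q * z))

/-- **GRE**, greedy algorithm.  One step: `a / b` with `1 ≤ a < b`, `m = b / a ≥ 1` (floor), subtract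
`1 / (m + 1)`: the rest is `a' / b'`, `a' = a (m + 1) - b`, `1 ≤ a' ≤ a`, `b' = b (m + 1)`, and `a' / b' ≤ 1 / (m (m + 1))`.
So after the first step the rest is `≤ 1/2`, and a rest `≤ 1 / M` (`M ≥ 1` a natural number) is followed by a rest `≤
1 / M^2` (`m ≥ M`), even `< 1 / M ^ 2`; after `i ≥ 1` steps `≤ 2^(-2^(i-1))`, and after at most `k + 2` steps `< 1 / Q`.
Stop at the first rest `< 1 / Q`.  If this is `a / b` itself: fine, `b' = b`.  Otherwise the rest before, `a₁ / b₁`, was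
`≥ 1 / Q`: `b₁ ≤ Q a₁ ≤ Q b`, and `m + 1 ≤ b₁ / a₁ + 1 ≤ Q + 1 ≤ 2 Q`: `b' ≤ 2 b Q^2`. -/
def S_GRE : Prop :=
  ∀ a b Q k : ℕ, 1 ≤ a → a < b → 1 ≤ Q → Q ≤ 2 ^ 2 ^ k →
    ∃ (s : Multiset ℕ) (a' b' : ℕ), Multiset.card s ≤ k + 2 ∧ (∀ x ∈ s, 0 < x) ∧ 1 ≤ a' ∧
      a' * Q < b' ∧ b' ≤ 2 * b * Q ^ 2 ∧ (a : ℚ) / b = rs s + (a' : ℚ) / b'

/-- **SPL**.  Replace the largest element `x` by `x + 1` and `x (x + 1)` (for `K = 0` trivial; the multisets are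
not empty as `q > 0`).  The new largest element is `x (x + 1)` (as `x ≥ 1`), so `x` and then the old multiset can be
found back: the map is injective.  Then induction on `t' - t`. -/
def S_SPL : Prop := ∀ (q : ℚ) (t t' K : ℕ), 0 < q → t ≤ t' → Cnt q t K → Cnt q t' K

/-- **MUL**, multiplicity.  For `1 ≤ σ < x` take representations `A_σ` of `σ ε` and `B_σ` of `(x - σ) ε` with at most
`k` terms, and `R` of `ρ` with at most `k'` terms; `M_σ = A_σ + B_σ + R`.  `A_σ ≤ M_σ` and `σ = rs A_σ / ε`, so every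
multiset is `M_σ` for at most `2^(2k+k')` numbers `σ` (`Multiset.card_powerset`).  So there are at least
`(x - 1) / 2^(2k+k')` different `M_σ`, and by pigeonhole over the `2k+k'+1` possible cardinalities one cardinality
`t' ≤ 2k + k'` has the asserted number. -/
def S_MUL : Prop :=
  ∀ (ε ρ : ℚ) (x k k' : ℕ), 0 < ε → (∀ σ : ℕ, 1 ≤ σ → σ < x → UF k (σ * ε)) → UF k' ρ →
    ∃ t' : ℕ, t' ≤ 2 * k + k' ∧
      Cnt (x * ε + ρ) t' ((x - 1) / (2 ^ (2 * k + k') * (2 * k + k' + 1)))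

/-- **MAIN1** (from ENG, DIG, GRE, SPL, MUL).  `w = 2^l`, `Q` from ENG, `d = 2^(l-5)`, `e = 32 (40 l + 4)`, so `d e = w (40 l + 4)`,
`P = 2^(d e)`.  Let `1 ≤ a < b ≤ 2^w`.  GRE with `k = 2 l` (`20 l w ≤ 2^(2l)`): `a / b = rs s + a' / b'`, `card s ≤ 2l + 2`,
`a' Q < b' ≤ 2 b Q^2 ≤ P`.  `x = a' P Q / b'` (floor), `r = a' P Q - x b' < b'`.  `x < P`; `x + 1 > P Q / (2 b Q^2) = P / (2 b Q)`,
so `x ≥ 2^w + 1`.  `a' / b' = x / (P Q) + r / (P Q b')`.  DIG: `σ / (P Q)`, `σ < x`, is a sum of at most `k₁ = 4 (e + 1)` unit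
fractions; `r / (P Q b')` too.  MUL with `ε = 1 / (P Q)`, `ρ = rs s + r / (P Q b')`, `k' = 2l + 2 + k₁`: `2 k₁ + k' =
3 * 4 (e + 1) + 2l + 2 ≤ 17000 l`.  Then SPL; `2^w / (2^(17000 l) (17000 l + 1)) ≥ 2^(2^(l-1))` for large `l`. -/
def S_MAIN1 : Prop :=
  ∃ l₀ : ℕ, ∀ l ≥ l₀, ∀ a b : ℕ, 1 ≤ a → a < b → b ≤ 2 ^ 2 ^ l →
    Cnt ((a : ℚ) / b) (17000 * l) (2 ^ 2 ^ (l - 1))

/-- **MAIN2** (from MAIN1, SPL).  `c = 1 / 30000`, `l = t / 17000` (floor).  `c t < (log 2) (l - 2)` for large `t`, so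
`exp (exp (c t)) ≤ 2 ^ 2 ^ (l - 2)`. -/
def S_MAIN2 : Prop :=
  ∃ t₀ : ℕ, ∀ t ≥ t₀, ∀ a b : ℕ, 1 ≤ a → a < b →
    (b : ℝ) ≤ Real.exp (Real.exp ((t : ℝ) / 30000)) →
    ∃ K : ℕ, Real.exp (Real.exp ((t : ℝ) / 30000)) ≤ K ∧ Cnt ((a : ℚ) / b) t K

/-- **BRG**.  The non-decreasing tuples correspond to the multisets (`Multiset.sort`); `A ≤ s` for all `s` of a
family of multisets. -/
def S_BRG : Prop :=
  ∀ (q : ℚ) (t K : ℕ) (A : Multiset ℕ) (F : Finset (Multiset ℕ)), (Sol q t).Finite →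
    (∀ s ∈ F, Multiset.card s = t ∧ (∀ x ∈ s, 0 < x) ∧ rs s = q ∧ A ≤ s) → K ≤ F.card →
    K ≤ {x ∈ Sol q t | Monotone x ∧ A ≤ ms x}.ncard

/-- **FIN**.  For `1 ≤ a ≤ b` take a fixed solution `y` for `(b - a) / b` with `b - a` terms (all `b`); `x ↦ (x, y)` is
an injection of `Sol (a / b) t` into `Sol 1 (t + (b - a))`, which is finite
(`Pool.Agent.Lib_helper63.EF.osol_finite`).  Second part: the same with `y` any solution. -/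
def S_FIN : Prop :=
  (∀ (a b t : ℕ), 1 ≤ a → a ≤ b → (Sol ((a : ℚ) / b) t).Finite) ∧
  ∀ (q : ℚ) (t u : ℕ), (∃ y, y ∈ Sol (1 - q) u) → (Sol q t).ncard ≤ (Sol 1 (t + u)).ncard

/-- **UPB** (`Pool.Agent.Lib_helper63.EF`: `ub`, `entry_le`, `eventually_bound`).  For all large `t`:
`N_1(2t) ≤ exp (exp (2t))`, and all entries of the solutions are `≤ t ^ (2^t - 1) ≤ exp (exp t)`. -/
def S_UPB : Prop :=
  ∃ t₀ : ℕ, ∀ t ≥ t₀, ((Sol 1 t).ncard : ℝ) ≤ Real.exp (Real.exp t) ∧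
    ∀ x ∈ Sol 1 t, ∀ i, (x i : ℝ) ≤ Real.exp (Real.exp t)

/-- **PRE** (from MAIN2, BRG, FIN), prescribed parts.  `1 - rs A = a / L` with `1 ≤ a < L` (`A ≠ 0`); add `A` to the multisets of
MAIN2 for `a / L` (an injective map). -/
def S_PRE : Prop :=
  ∃ t₀ : ℕ, ∀ t ≥ t₀, ∀ (A : Multiset ℕ) (L : ℕ), A ≠ 0 → (∀ n ∈ A, 0 < n ∧ n ∣ L) → 1 ≤ L → rs A < 1 →
    (L : ℝ) ≤ Real.exp (Real.exp ((t : ℝ) / 30000)) →
    Real.exp (Real.exp ((t : ℝ) / 30000)) ≤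
      {x ∈ Sol 1 (Multiset.card A + t) | Monotone x ∧ A ≤ ms x}.ncard

end Pool.Agent.UFL
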