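import Mathlib
import Pool.Agent.UFL.St

/-!
# UFL: module AVG
-/

set_option autoImplicit false

namespace Pool.Agent.UFL

open Finset

theorem t_AVG : S_AVG := by
  intro n v P χ h
  rw [Finset.sum_prod_piFinset P (fun _ x => ‖1 + χ (x : ZMod n)‖), Finset.prod_const,
    Finset.card_univ, Fintype.card_fin, pow_mul]
  have h1 : ∑ q ∈ P, ‖1 + χ (q : ZMod n)‖ ^ 2 ≤ 3 * (P.card : ℝ) := by
    have h2 : ∀ q ∈ P, ‖1 + χ (q : ZMod n)‖ ^ 2 ≤ 2 + 2 * (χ (q : ZMod n)).re := by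
      intro q _
      have h3 : ‖χ (q : ZMod n)‖ ^ 2 ≤ 1 := by
        have h4 := χ.norm_le_one (q : ZMod n)
        have h5 := norm_nonneg (χ (q : ZMod n))
        nlinarith
      rw [Complex.sq_norm, Complex.normSq_apply] at h3 ⊢
      simp only [Complex.add_re, Complex.one_re, Complex.add_im, Complex.one_im, zero_add]
      nlinarith
    have h6 : (∑ q ∈ P, χ (q : ZMod n)).re ≤ ‖∑ q ∈ P, χ (q : ZMod n)‖ := Complex.re_le_norm _
    calc ∑ q ∈ P, ‖1 + χ (q : ZMod n)‖ ^ 2 ≤ ∑ q ∈ P, (2 + 2 * (χ (q : ZMod n)).re) :=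
          Finset.sum_le_sum h2
      _ = 2 * (P.card : ℝ) + 2 * (∑ q ∈ P, χ (q : ZMod n)).re := by
          rw [Finset.sum_add_distrib, Finset.sum_const, nsmul_eq_mul, ← Finset.mul_sum,
            Complex.re_sum]
          ring
      _ ≤ 3 * (P.card : ℝ) := by linarith
  have h7 : (∑ q ∈ P, ‖1 + χ (q : ZMod n)‖) ^ 2 ≤ 3 * (P.card : ℝ) ^ 2 := by
    have h8 := sq_sum_le_card_mul_sum_sq (s := P) (f := fun q => ‖1 + χ (q : ZMod n)‖)
    have h9 : (0 : ℝ) ≤ P.card := Nat.cast_nonneg _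
    nlinarith
  calc ((∑ q ∈ P, ‖1 + χ (q : ZMod n)‖) ^ 2) ^ v ≤ (3 * (P.card : ℝ) ^ 2) ^ v :=
        pow_le_pow_left₀ (sq_nonneg _) h7 v
    _ = 3 ^ v * (P.card : ℝ) ^ (2 * v) := by rw [mul_pow, pow_mul]

end Pool.Agent.UFL
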