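import Mathlib
import Pool.Agent.UFL.Defs
import Pool.Agent.UFL.St

/-! Module BADN of project UFL (MP_dcc108_nt): a number which is not good has a bad conductor. -/

set_option autoImplicit false

namespace Pool.Agent.UFL

open Finset

theorem badn_two_pow_card (n : ℕ) (hn : n ≠ 0) : 2 ^ n.primeFactors.card ≤ n := by
  calc 2 ^ n.primeFactors.card = ∏ _p ∈ n.primeFactors, 2 := by simp
    _ ≤ ∏ p ∈ n.primeFactors, p :=
        Finset.prod_le_prod' (fun p hp => (Nat.prime_of_mem_primeFactors hp).two_le)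
    _ ≤ n := Nat.le_of_dvd (Nat.pos_of_ne_zero hn) (Nat.prod_primeFactors_dvd n)

theorem badn_arith (l P : ℕ) (hl : 20 ≤ l) (h : 2 ^ (20 * l) ≤ 40 * l * P) :
    4 * (2 ^ (l - 4) + 2) ≤ P := by
  by_contra hc
  push Not at hc
  have h1 : 40 * l * P ≤ 40 * l * (4 * (2 ^ (l - 4) + 2)) := Nat.mul_le_mul_left _ hc.le
  have h2 : l < 2 ^ l := Nat.lt_two_pow_self
  have h3 : 2 ^ (l - 4) + 2 ≤ 2 ^ l := by
    have : 2 ^ l = 2 ^ (l - 4) * 16 := by
      rw [show (16 : ℕ) = 2 ^ 4 by norm_num, ← pow_add]
      congr 1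
      omega
    have h4 : 1 ≤ 2 ^ (l - 4) := Nat.one_le_two_pow
    omega
  have h5 : 40 * l * (4 * (2 ^ (l - 4) + 2)) < 2 ^ (20 * l) := by
    calc 40 * l * (4 * (2 ^ (l - 4) + 2)) = 160 * (l * (2 ^ (l - 4) + 2)) := by ring
      _ ≤ 160 * (2 ^ l * 2 ^ l) := by
          apply Nat.mul_le_mul_left
          exact Nat.mul_le_mul h2.le h3
      _ < 2 ^ 8 * (2 ^ l * 2 ^ l) := by
          apply Nat.mul_lt_mul_of_pos_right (by norm_num)
          positivity
      _ = 2 ^ (8 + (l + l)) := by rw [pow_add, pow_add]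
      _ ≤ 2 ^ (20 * l) := Nat.pow_le_pow_right (by norm_num) (by omega)
  omega

theorem t_BADN (hP : S_PC) : S_BADN := by
  intro l n hl hn1 hn hbad
  unfold Good at hbad
  push Not at hbad
  obtain ⟨χ, hχ1, hχ⟩ := hbad
  have : NeZero n := ⟨by omega⟩
  refine ⟨χ.conductor, χ.conductor_dvd_level, ?_, χ.primitiveCharacter,
    χ.primitiveCharacter_isPrimitive, ?_⟩
  · have h0 := χ.conductor_ne_zero
    have h1 : χ.conductor ≠ 1 := fun h => hχ1 (χ.eq_one_iff_conductor_eq_one.mpr h)
    omega
  · have hcard : n.primeFactors.card ≤ 2 ^ (l - 4) + 2 := by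
      have h1 := (badn_two_pow_card n (by omega)).trans hn
      exact (Nat.pow_le_pow_iff_right (by norm_num)).mp h1
    have hterm : ∀ q ∈ pool l,
        ‖χ (q : ZMod n) - χ.primitiveCharacter (q : ZMod χ.conductor)‖ ≤
          if q ∈ n.primeFactors then (1 : ℝ) else 0 := by
      intro q hq
      have hqp : q.Prime := (Finset.mem_filter.mp hq).2
      by_cases hd : q ∣ n
      · have hm : q ∈ n.primeFactors := by
          rw [Nat.mem_primeFactors]
          exact ⟨hqp, hd, by omega⟩
        have hz : χ (q : ZMod n) = 0 := by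
          apply χ.map_nonunit
          rw [ZMod.isUnit_iff_coprime]
          intro hc
          have := Nat.Coprime.eq_one_of_dvd hc hd
          exact hqp.one_lt.ne' this
        rw [hz, zero_sub, norm_neg, if_pos hm]
        exact DirichletCharacter.norm_le_one _ _
      · have hm : q ∉ n.primeFactors := fun h => hd (Nat.dvd_of_mem_primeFactors h)
        have hc : Nat.Coprime q n := (Nat.Prime.coprime_iff_not_dvd hqp).mpr hd
        have hc' : IsCoprime (q : ℤ) (n : ℤ) := Nat.isCoprime_iff_coprime.mpr hc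
        have he := χ.primitiveCharacter_apply_of_isCoprime hc'
        have he' : χ.primitiveCharacter (q : ZMod χ.conductor) = χ (q : ZMod n) := by
          simpa using he
        rw [he', sub_self, norm_zero, if_neg hm]
    have hdiff : ‖∑ q ∈ pool l, χ (q : ZMod n) -
        ∑ q ∈ pool l, χ.primitiveCharacter (q : ZMod χ.conductor)‖ ≤ (2 : ℝ) ^ (l - 4) + 2 := by
      rw [← Finset.sum_sub_distrib]
      refine (norm_sum_le _ _).trans ((Finset.sum_le_sum hterm).trans ?_)
      rw [← Finset.sum_filter, Finset.sum_const, nsmul_eq_mul, mul_one]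
      have h1 : ((pool l).filter (fun q => q ∈ n.primeFactors)).card ≤ n.primeFactors.card := by
        apply Finset.card_le_card
        intro q hq
        exact (Finset.mem_filter.mp hq).2
      have h2 : ((pool l).filter (fun q => q ∈ n.primeFactors)).card ≤ 2 ^ (l - 4) + 2 :=
        h1.trans hcard
      exact_mod_cast h2
    have hbig : (4 : ℝ) * ((2 : ℝ) ^ (l - 4) + 2) ≤ ((pool l).card : ℝ) := by
      have := badn_arith l (pool l).card hl (hP l (by omega))
      exact_mod_cast this
    have htri : ‖∑ q ∈ pool l, χ (q : ZMod n)‖ ≤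
        ‖∑ q ∈ pool l, χ (q : ZMod n) -
          ∑ q ∈ pool l, χ.primitiveCharacter (q : ZMod χ.conductor)‖ +
        ‖∑ q ∈ pool l, χ.primitiveCharacter (q : ZMod χ.conductor)‖ := by
      have := norm_add_le (∑ q ∈ pool l, χ (q : ZMod n) -
          ∑ q ∈ pool l, χ.primitiveCharacter (q : ZMod χ.conductor))
          (∑ q ∈ pool l, χ.primitiveCharacter (q : ZMod χ.conductor))
      rwa [sub_add_cancel] at this
    linarith

end Pool.Agent.UFL
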