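import Pool.Agent.UFL.St

/-!
# UFL module BC1 (helper64)

`t_BC1`: at most `1280 l` bad conductors up to `2 ^ (8 l)`, from the large sieve `S_LS` with `j = 1` and the
lower bound `S_PC` for the number of primes of the pool.
-/

set_option autoImplicit false

namespace Pool.Agent.UFL

theorem bc1_pow (l : ℕ) (h : 20 ≤ l) : 1280 * l ≤ 2 ^ (4 * l) := by
  induction l, h using Nat.le_induction with
  | base => norm_num
  | succ n hn ih =>
    have e : (2 : ℕ) ^ (4 * (n + 1)) = 16 * 2 ^ (4 * n) := by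
      rw [show 4 * (n + 1) = 4 * n + 4 by ring, pow_add]; ring
    rw [e]
    nlinarith

theorem t_BC1 (hL : S_LS) (hP : S_PC) : S_BC1 := by
  intro l B hl hB
  have h1 := hL l 1 (2 ^ (8 * l)) B le_rfl hB
  have h2 := hP l (by omega)
  have h3 := bc1_pow l hl
  set P := (pool l).card with hPdef
  set b := B.card with hbdef
  have e1 : (2 : ℕ) ^ (20 * l) = 2 ^ (16 * l) * 2 ^ (4 * l) := by
    rw [← pow_add]; congr 1; ring
  have e2 : ((2 : ℕ) ^ (8 * l)) ^ 2 = 2 ^ (16 * l) := by
    rw [← pow_mul]; congr 1; ring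
  have h1' : b * P ≤ 16 * (2 ^ (20 * l) + 2 ^ (16 * l) * b) := by
    simpa [e2, Nat.factorial] using h1
  set E : ℕ := 2 ^ (16 * l) with hE
  have hEpos : 0 < E := by positivity
  have hlpos : 0 < l := by omega
  -- 32 E ≤ P
  have h4 : 32 * E ≤ P := by
    have : 40 * l * (32 * E) ≤ 40 * l * P := by
      calc 40 * l * (32 * E) = E * (1280 * l) := by ring
        _ ≤ E * 2 ^ (4 * l) := Nat.mul_le_mul_left _ h3
        _ = 2 ^ (20 * l) := e1.symm
        _ ≤ 40 * l * P := h2
    exact Nat.le_of_mul_le_mul_left this (by positivity)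
  have hPpos : 0 < P := by omega
  -- 2 b P ≤ 2 * 16 * 40 l P + b P
  have h5 : 32 * (E * b) ≤ P * b := by
    calc 32 * (E * b) = (32 * E) * b := by ring
      _ ≤ P * b := Nat.mul_le_mul_right _ h4
  have h6 : b * P ≤ 1280 * l * P := by
    nlinarith
  exact Nat.le_of_mul_le_mul_right h6 hPpos

end Pool.Agent.UFL
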