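import Pool.Agent.UFL.St

/-!
# The number of bad conductors up to `2 ^ (8 l j)`
-/

set_option autoImplicit false

namespace Pool.Agent.UFL

theorem BC2.pow_ge {l : ℕ} (hl : 20 ≤ l) : 640 * l ≤ 2 ^ l := by
  induction l, hl using Nat.le_induction with
  | base => norm_num
  | succ n hn ih =>
    rw [pow_succ]
    omega

/-- **BC2**. -/
theorem t_BC2 (hL : S_LS) (hP : S_PC) : S_BC2 := by
  intro l j B hl hj hj2 hB
  have hLS := hL l j (2 ^ (8 * l * j)) B hj hB
  have h1 : 2 ^ (20 * l) ≤ 40 * l * (pool l).card := hP l (by omega)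
  generalize (pool l).card = P at h1 hLS
  have hP0 : 0 < P := by
    rcases Nat.eq_zero_or_pos P with h | h
    · rw [h, mul_zero] at h1
      have h2 : 0 < 2 ^ (20 * l) := by positivity
      omega
    · exact h
  have h640 := BC2.pow_ge hl
  have hfac : j.factorial ≤ 2 ^ (l * j) := by
    calc j.factorial ≤ j ^ j := Nat.factorial_le_pow j
      _ ≤ (2 ^ l) ^ j := Nat.pow_le_pow_left hj2 j
      _ = 2 ^ (l * j) := (pow_mul 2 l j).symm
  have hPj : 2 ^ (20 * l * j) ≤ (40 * l) ^ j * P ^ j := by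
    rw [← mul_pow, pow_mul]
    exact Nat.pow_le_pow_left h1 j
  have h6 : (640 * l) ^ j ≤ 2 ^ (l * j) := by
    rw [pow_mul]
    exact Nat.pow_le_pow_left h640 j
  have e40 : (40 * l) ^ j * 16 ^ j = (640 * l) ^ j := by
    rw [← mul_pow]
    congr 1
    ring
  have hlj : 20 ≤ l * j := by nlinarith
  have c1 : 2 * (16 ^ j * j.factorial * (2 ^ (8 * l * j)) ^ 2) ≤ P ^ j := by
    have hc : 0 < (40 * l) ^ j := pow_pos (by omega) j
    refine le_of_mul_le_mul_left (a := (40 * l) ^ j) ?_ hc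
    calc (40 * l) ^ j * (2 * (16 ^ j * j.factorial * (2 ^ (8 * l * j)) ^ 2))
        = 2 * ((640 * l) ^ j * j.factorial * (2 ^ (8 * l * j)) ^ 2) := by
          rw [← e40]
          ring
      _ ≤ 2 * (2 ^ (l * j) * 2 ^ (l * j) * (2 ^ (8 * l * j)) ^ 2) := by
          gcongr
      _ = 2 ^ (18 * (l * j) + 1) := by
          rw [← pow_mul, ← pow_add, ← pow_add, ← pow_succ']
          congr 1
          ring
      _ ≤ 2 ^ (20 * l * j) := by
          apply Nat.pow_le_pow_right (by norm_num)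
          have : 20 * l * j = 20 * (l * j) := by ring
          omega
      _ ≤ (40 * l) ^ j * P ^ j := hPj
  have c2 : 2 * (16 ^ j * j.factorial * 2 ^ (20 * l * j)) ≤ 2 ^ (2 * l * j + 1) * P ^ j := by
    calc 2 * (16 ^ j * j.factorial * 2 ^ (20 * l * j))
        ≤ 2 * (16 ^ j * 2 ^ (l * j) * ((40 * l) ^ j * P ^ j)) := by gcongr
      _ = 2 * ((640 * l) ^ j * 2 ^ (l * j) * P ^ j) := by
          rw [← e40]
          ring
      _ ≤ 2 * (2 ^ (l * j) * 2 ^ (l * j) * P ^ j) := by gcongr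
      _ = 2 ^ (2 * l * j + 1) * P ^ j := by
          have e : 2 * l * j + 1 = l * j + l * j + 1 := by ring
          rw [e, pow_succ, pow_add]
          ring
  have hPj0 : 0 < P ^ j := pow_pos hP0 j
  refine le_of_mul_le_mul_right (a := P ^ j) ?_ hPj0
  have c3 : 2 * (B.card * P ^ j) ≤
      2 * (16 ^ j * j.factorial * 2 ^ (20 * l * j)) + P ^ j * B.card := by
    calc 2 * (B.card * P ^ j)
        ≤ 2 * (16 ^ j * j.factorial * (2 ^ (20 * l * j) + (2 ^ (8 * l * j)) ^ 2 * B.card)) :=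
          Nat.mul_le_mul_left 2 hLS
      _ = 2 * (16 ^ j * j.factorial * 2 ^ (20 * l * j)) +
          2 * (16 ^ j * j.factorial * (2 ^ (8 * l * j)) ^ 2) * B.card := by ring
      _ ≤ 2 * (16 ^ j * j.factorial * 2 ^ (20 * l * j)) + P ^ j * B.card := by gcongr
  have c4 : P ^ j * B.card = B.card * P ^ j := mul_comm _ _
  omega

end Pool.Agent.UFL
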