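import Mathlib
import Pool.Agent.UFL.Defs

/-!
Definitions for the version with distinct denominators (helper41).  See `Pool/Agent/UFL/St2.lean`.
-/

set_option autoImplicit false

namespace Pool.Agent.UFL

open Finset

/-- `q` is a sum of at most `k` distinct unit fractions with denominators outside `Φ`; if `q > 0`, some
denominator is at least `Q`. -/
def DUF (Q k : ℕ) (Φ : Finset ℕ) (q : ℚ) : Prop :=
  ∃ S : Finset ℕ, S.card ≤ k ∧ Disjoint S Φ ∧ (∀ y ∈ S, 0 < y) ∧ (0 < q → ∃ y ∈ S, Q ≤ y) ∧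
    ∑ y ∈ S, (1 : ℚ) / (y : ℚ) = q

/-- There are at least `K` sets of `t` positive integers outside `Φ` with sum of reciprocals `q`, each
with a member which is at least 2 and bigger than all members of `Φ`. -/
def DCnt (Φ : Finset ℕ) (q : ℚ) (t K : ℕ) : Prop :=
  ∃ F : Finset (Finset ℕ),
    (∀ S ∈ F, S.card = t ∧ Disjoint S Φ ∧ (∀ x ∈ S, 0 < x) ∧ (∃ y ∈ S, 2 ≤ y ∧ ∀ x ∈ Φ, x < y) ∧
      ∑ x ∈ S, (1 : ℚ) / (x : ℚ) = q) ∧ K ≤ F.card

/-- `n` is rich for `q`: it divides `u + 1` for at least `2 ^ w / (2 n)` subproducts `u` of `q`. -/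
def Rich {w : ℕ} (q : Fin w → ℕ) (n : ℕ) : Prop :=
  2 ^ w ≤ 2 * n *
    ((Finset.univ : Finset (Finset (Fin w))).filter fun S => n ∣ (∏ i ∈ S, q i) + 1).card

end Pool.Agent.UFL
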