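import Mathlib
import Pool.Agent.UFL.St
import Pool.Agent.UFL.Defs2

/-!
# Statements for MP_dcc108_nt, version with DISTINCT denominators (helper41, Dec 5)

THEOREM.  There are `c > 0` and `t₀` such that for all `t ≥ t₀`, all rationals `a / b` in `(0, 1)` with `b ≤ exp (exp (c t))`
and all sets `Φ` of at most `c t` numbers `≤ exp (exp (c t))` there are at least `exp (exp (c t))` sets of `t` positive integers,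
disjoint from `Φ`, with sum of reciprocals `a / b`.  So every `a / b` is a sum of at most `C log log b` distinct unit
fractions.

Notation as in `St.lean`: `w = 2 ^ l`, `pool l`, `P`, `W = WW l`, `N₀ = NN l = 2 ^ (w / 16)`.
Chain: `S_NICE2`, `S_AVG`, `S_PC` → `S_EXI2`; with `S_CLS` → `S_SUR2` → `S_ENG2`; `S_DIG2`, `S_GRE2`, `S_MUL2`,
`S_SPL2` → `S_MAIN1D` → `S_MAIN2D`; `S_BRG2` → `S_PRE2`; `S_ERD`.
-/

set_option autoImplicit false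

namespace Pool.Agent.UFL

open Finset

/-- **NICE2**.  By `DirichletCharacter.sum_char_inv_mul_char_eq` (`a = -1`) and
`∏ (1 + χ q_i) = ∑_S χ (∏_(i ∈ S) q_i)`: `φ(n) * #{S : n ∣ q_S + 1} = ∑_χ χ((-1)⁻¹) ∏ (1 + χ q_i)`, where `χ = 1`
contributes `2 ^ w` (all `q_i` are units) and the others together at most `3/2 * 2 ^ w - 2 ^ w = 2 ^ w / 2` in absolute value.
So `n * #{S} ≥ φ(n) * #{S} ≥ 2 ^ w / 2`. -/
def S_NICE2 : Prop :=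
  ∀ (n w : ℕ) (q : Fin w → ℕ), 1 ≤ n → (∀ i, Nat.Coprime (q i) n) →
    2 * (∑ χ : DirichletCharacter ℂ n, ∏ i, ‖1 + χ (q i : ZMod n)‖) ≤ 3 * 2 ^ w → Rich q n

/-- **EXI2** (from PC, NICE2, AVG).  `w = 2 ^ l`.  For a good `n ≤ 2^(2^(l-4)+2)` the number of `q : Fin w → pool` for
which `n` is not rich is at most `P^w / 64`: (a) some `q_i` divides `n`: at most `w (2^(l-4)+2) P^(w-1) ≤ P^w / 128`;
(b) otherwise by NICE2 the sum over all `χ` is `> 3/2 * 2^w`, so the sum over `χ ≠ 1` is `> 2^w / 2`; by Markov and AVG for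
at most `2 n 3^(w/2) P^w / 2^w` such `q`; `3^(w/2) / 2^w = (3/4)^(w/2)`, `(3/4)^8 ≤ 1/8`, `w/2 = 8 * 2^(l-4)`, so this is
`≤ 2 * 2^(2^(l-4)+2) 2^(-3 * 2^(l-4)) P^w ≤ P^w / 128`.  At most `w^2 P^(w-1) ≤ P^w / 4` of the `q` are not injective.  So the sum
over the injective `q` (at least `3/4 P^w`) of the number of `n ∈ A` which are not rich is at most `card A * P^w / 64`; take the
best injective `q`: at most `card A / 48`. -/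
def S_EXI2 : Prop :=
  ∀ (l : ℕ) (A : Finset ℕ), 20 ≤ l →
    (∀ n ∈ A, 1 ≤ n ∧ n ≤ 2 ^ (2 ^ (l - 4) + 2) ∧ Good l n) →
    ∃ q : Fin (2 ^ l) → ℕ, Function.Injective q ∧ (∀ i, q i ∈ pool l) ∧
      32 * Set.ncard {n | n ∈ A ∧ ¬ Rich q n} ≤ A.card

/-- **SUR2** (from CLS, EXI2, CNT, WLE).  `A` = the good `n ≤ 3 N₀` with `n ≡ 1` or `-1` mod `W` (`1 ≤ n`), `card A ≤ 2 (3 N₀ / W + 1)
≤ 8 N₀ / W` (CNT with `f = 1`; `W ≤ N₀` by WLE).  EXI2: at most `N₀ / (4 W)` are not rich; CLS with `c = 1` and `c = W - 1`: at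
most `N₀ / (8 W)` are not good. -/
def S_SUR2 : Prop :=
  ∃ l₀ : ℕ, ∀ l ≥ l₀, ∃ q : Fin (2 ^ l) → ℕ, Function.Injective q ∧ (∀ i, q i ∈ pool l) ∧
    8 * WW l * Set.ncard {n : ℕ | n ≤ 3 * NN l ∧ (n % WW l = 1 ∨ n % WW l = WW l - 1) ∧ ¬ Rich q n}
      ≤ 3 * NN l

/-- **ENG2** (from SUR2, WLE), the engine.  `Q = ∏ q_i`; the `q_i` are `w` different primes `< 2^(20 l)`, so
`2^w < 2 * 3^(w-1) ≤ Q ≤ 2^(20 l w)`.
(1) Let `1 ≤ n ≤ 3 N₀` be rich, `z ≥ 1`, `card Ψ ≤ 2^2^(l-1) + 2`.  Then `n / (Q z) = 1 / d₁ + 1 / d₂` with `d₁ ≠ d₂` outside `Ψ`, `d₂ ≥ Q`: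
for a subset `S` with `n ∣ u + 1`, `u = q_S`, `m = (u + 1) / n`, take `d₁ = (Q / u) z m`, `d₂ = Q z m`.  Different `S` have different
`u` (different primes), so different `d₁ = (Q z / n) (1 + 1/u)` and different `d₂ = (Q z / n) (u + 1)`; `d₂ = u d₁ ≠ d₁` if `S` is
not empty.  There are at least `2^w / (6 N₀)` such `S`, at most `2 card Ψ + 1` are excluded (`2^w / (6 * 2^(w/16)) >
2 (2^(w/2) + 2) + 1`).
(2) Let `1 ≤ x ≤ 2^2^(l-5)`; then `x W ≤ N₀`, and some multiple `T` of `x W` has `2 N₀ ≤ T ≤ 3 N₀`; `T = x K`.  The numbers `a ≡ 1`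
mod `W`, `1 ≤ a < T` are `T / W ≥ 2 N₀ / W` many; `b = T - a ≡ -1` mod `W`.  At most `3 N₀ / (8 W)` of the `a` and at most `3 N₀ / (8 W)`
of the `b` are not rich, so for some `a` both are rich.  `x / (Q z) = T / (Q (K z)) = a / (Q (K z)) + b / (Q (K z))`; apply (1)
to `a` with `Ψ = Φ`, then to `b` with `Ψ = Φ ∪ {d₁, d₂}`. -/
def S_ENG2 : Prop :=
  ∃ l₀ : ℕ, ∀ l ≥ l₀, ∃ Q : ℕ, 2 ^ 2 ^ l < Q ∧ Q ≤ 2 ^ (20 * l * 2 ^ l) ∧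
    ∀ (x z : ℕ) (Φ : Finset ℕ), 1 ≤ x → x ≤ 2 ^ 2 ^ (l - 5) → 1 ≤ z → Φ.card ≤ 2 ^ 2 ^ (l - 1) →
      DUF Q 4 Φ ((x : ℚ) / ((Q : ℚ) * z))

/-- **DIG2**, digits.  Induction on `e`, or: `x = ∑_(j ≤ e) m_j 2^(d j)`, `m_j < 2^d`;
`m_j 2^(d j) / (2^(d e) Q z) = m_j / (Q (2^(d (e - j)) z))`, 4 distinct unit fractions outside `Φ` and the denominators
used before (none if `m_j = 0`). -/
def S_DIG2 : Prop :=
  ∀ Q d κ : ℕ, 1 ≤ Q →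
    (∀ (x z : ℕ) (Φ : Finset ℕ), 1 ≤ x → x ≤ 2 ^ d → 1 ≤ z → Φ.card ≤ κ →
      DUF Q 4 Φ ((x : ℚ) / ((Q : ℚ) * z))) →
    ∀ (e x z : ℕ) (Φ : Finset ℕ), x < 2 ^ (d * (e + 1)) → 1 ≤ z → Φ.card + 4 * (e + 1) ≤ κ →
      DUF Q (4 * (e + 1)) Φ ((x : ℚ) / ((2 : ℚ) ^ (d * e) * Q * z))

/-- **GRE2**, greedy algorithm avoiding `Φ`.  `κ = card Φ`, `N = 64 (κ + 2) + k + 4`, `R = κ + N + 1`.  State after `i` steps: `ρ = a_i / b_i > 0`, set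
`S_i` of `i` used denominators.  Step: `x` = the least integer `> b_i / a_i` not in `Φ ∪ S_i`, so `x ≤ b_i / a_i + κ_i + 1`,
`κ_i = κ + i`; `a_(i+1) = a_i x - b_i` (`1 ≤ a_(i+1) ≤ (κ_i + 1) a_i`), `b_(i+1) = b_i x`; `ρ_(i+1) = ρ_i - 1/x ≤ (κ_i + 1) ρ_i^2`.
Slow steps: `2 (κ_i + 1) ρ_i > 1`: then `x < 3 (κ_i + 1)`; the sum of `1 / (3 (κ + i + 1))` over them is `< 1`, so there are at most
`64 (κ + 1)` before the first `i` with `r_i := 2 (κ_i + 1) ρ_i ≤ 1` (the sum of `1/j` over `A ≤ j < 64 A` is `≥ 3`).  From then on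
`r_(i+1) ≤ r_i^2 (κ_i + 2) / (2 (κ_i + 1)) ≤ r_i^2 ≤ 1`, and `≤ 3/4 r_i^2` if `κ_i ≥ 1`; after `j + 1` such steps
`r ≤ (3/4)^(2^j - 1)`, so after at most `k + 3` steps `ρ ≤ r / 2 < 1 / Q` (`(3/4)^3 ≤ 1/2`).  Stop at the first `ρ < 1 / Q`.
If this is `a / b` itself: `S = ∅`, `b' = b`.  Otherwise the state before had `b_i ≤ Q a_i ≤ Q b R^N`, and the last `x ≤ Q + R`. -/
def S_GRE2 : Prop :=
  ∀ (a b Q k N R : ℕ) (Φ : Finset ℕ), 1 ≤ a → a < b → 1 ≤ Q → Q ≤ 2 ^ 2 ^ k →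
    N = 64 * (Φ.card + 2) + k + 4 → R = Φ.card + N + 1 →
    ∃ (S : Finset ℕ) (a' b' : ℕ), S.card ≤ N ∧ Disjoint S Φ ∧ (∀ x ∈ S, 0 < x) ∧ 1 ≤ a' ∧
      a' * Q < b' ∧ b' ≤ b * Q * R ^ N * (Q + R) ∧
      (a : ℚ) / b = ∑ x ∈ S, (1 : ℚ) / (x : ℚ) + (a' : ℚ) / b'

/-- **SPL2**.  Replace the largest element `x ≥ 2` of `S` (it is bigger than all members of `Φ`) by `x + 1` and
`x (x + 1)`, which are bigger than all members of `S ∪ Φ`.  The new largest element is `x (x + 1)`, so `x` and then `S` can be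
found back: the map is injective.  Then induction on `t' - t`. -/
def S_SPL2 : Prop :=
  ∀ (Φ : Finset ℕ) (q : ℚ) (t t' K : ℕ), t ≤ t' → DCnt Φ q t K → DCnt Φ q t' K

/-- **MUL2**, multiplicity.  For `1 ≤ σ < x` take `A_σ` for `σ ε` outside `Φ ∪ R` and `B_σ` for `(x - σ) ε` outside
`Φ ∪ R ∪ A_σ`; `M_σ = R ∪ A_σ ∪ B_σ`, a set with at most `2k + k'` elements and a member `≥ Q`.  `A_σ ⊆ M_σ` determines `σ`, so
every set is `M_σ` for at most `2^(2k+k')` numbers `σ`.  So there are at least `(x - 1) / 2^(2k+k')` different `M_σ`, and by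
pigeonhole over the `2k+k'+1` possible cardinalities one cardinality `t' ≤ 2k + k'` has the asserted number. -/
def S_MUL2 : Prop :=
  ∀ (ε ρ : ℚ) (Q x k k' κ : ℕ) (Φ R : Finset ℕ), 0 < ε → 2 ≤ Q → (∀ y ∈ Φ, y < Q) →
    (∀ (σ : ℕ) (Ψ : Finset ℕ), 1 ≤ σ → σ < x → Ψ.card ≤ κ → DUF Q k Ψ (σ * ε)) →
    R.card ≤ k' → Disjoint R Φ → (∀ y ∈ R, 0 < y) → ∑ y ∈ R, (1 : ℚ) / (y : ℚ) = ρ →
    Φ.card + k' + k ≤ κ →
    ∃ t' : ℕ, t' ≤ 2 * k + k' ∧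
      DCnt Φ (x * ε + ρ) t' ((x - 1) / (2 ^ (2 * k + k') * (2 * k + k' + 1)))

/-- **MAIN1D** (from ENG2, DIG2, GRE2, SPL2, MUL2).  `w = 2^l`, `Q` from ENG2, `κ = 2^2^(l-1)`, `d = 2^(l-5)`, `e = 32 (40 l + 4)`, so
`d e = w (40 l + 4)`, `P = 2^(d e)`.  Let `1 ≤ a < b ≤ 2^w`.  GRE2 with `k = 2 l` (`20 l w ≤ 2^(2l)`), `N ≤ 64 (l + 2) + 2 l + 4`,
`R ≤ 200 l` and `R^(N+1) ≤ 2^(w-1)` for large `l`: `a / b = ∑_(S₀) + a' / b'`, `a' Q < b' ≤ b Q R^N (Q + R) ≤ 2^w Q^2 2^w ≤ P`.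
`x = a' P Q / b'` (floor), `r = a' P Q - x b' < b' ≤ P`.  `x < P`; `x + 1 > P Q / b' ≥ P / (2^(2w) Q)`, so `x ≥ 2^w + 1`.
`a' / b' = x / (P Q) + r / (P Q b')`.  DIG2: `σ / (P Q)`, `1 ≤ σ < x`, outside any `Ψ` with `card Ψ + 4 (e + 1) ≤ κ`, at most `k₁ = 4 (e + 1)`
terms; `r / (P Q b')` outside `Φ ∪ S₀`, set `R₀`; `R = S₀ ∪ R₀`.  MUL2 with `ε = 1 / (P Q)`, `k' = N + k₁`: `2 k₁ + k' = 3 * 4 (e + 1)
+ N ≤ 15360 l + 1548 + 66 l + 132 ≤ 20000 l`.  Then SPL2; `2^w / (2^(20000 l) (20000 l + 1)) ≥ 2^(2^(l-1))` for large `l`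
(a smaller `K` is allowed: weaken). -/
def S_MAIN1D : Prop :=
  ∃ l₀ : ℕ, ∀ l ≥ l₀, ∀ (a b : ℕ) (Φ : Finset ℕ), 1 ≤ a → a < b → b ≤ 2 ^ 2 ^ l →
    Φ.card ≤ l → (∀ y ∈ Φ, y ≤ 2 ^ 2 ^ l) →
    DCnt Φ ((a : ℚ) / b) (20000 * l) (2 ^ 2 ^ (l - 1))

/-- **MAIN2D** (from MAIN1D, SPL2).  `c = 1 / 40000`, `l = t / 20000` (floor), `t / 40000 ≤ l` and `c t ≤ (log 2) (l - 2)` for
large `t`, so `exp (exp (c t)) ≤ exp (2^(l-2)) ≤ 2 ^ 2 ^ (l - 1)`. -/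
def S_MAIN2D : Prop :=
  ∃ t₀ : ℕ, ∀ t ≥ t₀, ∀ (a b : ℕ) (Φ : Finset ℕ), 1 ≤ a → a < b →
    (b : ℝ) ≤ Real.exp (Real.exp ((t : ℝ) / 40000)) → (Φ.card : ℝ) ≤ (t : ℝ) / 40000 →
    (∀ y ∈ Φ, (y : ℝ) ≤ Real.exp (Real.exp ((t : ℝ) / 40000))) →
    ∃ K : ℕ, Real.exp (Real.exp ((t : ℝ) / 40000)) ≤ K ∧ DCnt Φ ((a : ℚ) / b) t K

/-- **BRG2**.  The strictly increasing tuples correspond to the sets (`Finset.orderEmbOfFin`). -/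
def S_BRG2 : Prop :=
  ∀ (q : ℚ) (t K : ℕ) (A : Finset ℕ) (F : Finset (Finset ℕ)), (Sol q t).Finite →
    (∀ S ∈ F, S.card = t ∧ (∀ x ∈ S, 0 < x) ∧ ∑ x ∈ S, (1 : ℚ) / (x : ℚ) = q ∧ A ⊆ S) → K ≤ F.card →
    K ≤ {x ∈ Sol q t | StrictMono x ∧ ∀ n ∈ A, ∃ i, x i = n}.ncard

/-- **PRE2** (from MAIN2D, BRG2, FIN), prescribed set.  `1 - ∑_A = a / L` with `1 ≤ a < L`; add `A` to the sets of MAIN2D with `Φ = A` for
`a / L` (an injective map, the sets are disjoint from `A`). -/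
def S_PRE2 : Prop :=
  ∃ t₀ : ℕ, ∀ t ≥ t₀, ∀ (A : Finset ℕ) (L : ℕ), A.Nonempty → (∀ n ∈ A, 0 < n ∧ n ∣ L) → 1 ≤ L →
    ∑ n ∈ A, (1 : ℚ) / (n : ℚ) < 1 → (L : ℝ) ≤ Real.exp (Real.exp ((t : ℝ) / 40000)) →
    (A.card : ℝ) ≤ (t : ℝ) / 40000 →
    Real.exp (Real.exp ((t : ℝ) / 40000)) ≤
      {x ∈ Sol 1 (A.card + t) | StrictMono x ∧ ∀ n ∈ A, ∃ i, x i = n}.ncard

/-- **ERD** (from MAIN2D).  Conjecture of Erdős (1950).  `t` = the maximum of `t₀` and `⌈40000 log log b⌉`, `Φ = ∅`; `log log 3 > 0`. -/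
def S_ERD : Prop :=
  ∃ C : ℝ, ∀ a b : ℕ, 1 ≤ a → a < b → 3 ≤ b →
    ∃ S : Finset ℕ, (∀ x ∈ S, 0 < x) ∧ (S.card : ℝ) ≤ C * Real.log (Real.log b) ∧
      ∑ x ∈ S, (1 : ℚ) / (x : ℚ) = (a : ℚ) / b

end Pool.Agent.UFL
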