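import Mathlib
import Pool.Agent.UFL.St2

/-!
# Final statements for MP_dcc108_nt (helper41, Dec 5): prescribed AND forbidden denominators

They replace `S_BRG2` and `S_PRE2` of `St2.lean` (stronger: a set `A` of prescribed and a set `B` of forbidden
denominators, exactly `t` terms in all, every `a / b ≤ 1`).
-/

set_option autoImplicit false

namespace Pool.Agent.UFL

open Finset

/-- **BRG3**.  The strictly increasing tuples correspond to the sets (`Finset.orderEmbOfFin`). -/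
def S_BRG3 : Prop :=
  ∀ (q : ℚ) (t K : ℕ) (A B : Finset ℕ) (F : Finset (Finset ℕ)), (Sol q t).Finite →
    (∀ S ∈ F, S.card = t ∧ (∀ x ∈ S, 0 < x) ∧ ∑ x ∈ S, (1 : ℚ) / (x : ℚ) = q ∧ A ⊆ S ∧ Disjoint S B) →
    K ≤ F.card →
    K ≤ {x ∈ Sol q t | StrictMono x ∧ (∀ n ∈ A, ∃ i, x i = n) ∧ ∀ i, x i ∉ B}.ncard

/-- **PRE3** (from MAIN2D, BRG3, FIN).  `q = a / b`.  Case 1: `A` is not empty or `a < b`.  Then `q - ∑_A = a' / L` with
`1 ≤ a' < L`; `t' = t - card A`, `Φ = A ∪ B`, `card Φ ≤ t / 50000 ≤ t' / 40000` and `exp (exp (t / 50000)) ≤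
exp (exp (t' / 40000))`, as `t' ≥ t - t / 50000 ≥ (4/5) t` (the members of `A` divide `L`).  Add `A` to the sets of MAIN2D (an
injective map, they are disjoint from `A`), then BRG3.  Case 2: `A = ∅`, `q = 1`: `m` the least integer `≥ 2` outside `B`,
`m ≤ card B + 2 ≤ t`; MAIN2D with `t - 1`, `(m - 1) / m` and `Φ = B ∪ {m}`; add `m` to the sets. -/
def S_PRE3 : Prop :=
  ∃ t₀ : ℕ, ∀ t ≥ t₀, ∀ (a b L : ℕ) (A B : Finset ℕ), 1 ≤ a → a ≤ b → 1 ≤ L → b ∣ L → (∀ n ∈ A, n ∣ L) →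
    (L : ℝ) ≤ Real.exp (Real.exp ((t : ℝ) / 50000)) →
    (∀ n ∈ B, (n : ℝ) ≤ Real.exp (Real.exp ((t : ℝ) / 50000))) →
    (A.card : ℝ) + (B.card : ℝ) ≤ (t : ℝ) / 50000 → Disjoint A B →
    ∑ n ∈ A, (1 : ℚ) / (n : ℚ) < (a : ℚ) / b →
    Real.exp (Real.exp ((t : ℝ) / 50000)) ≤
      {x ∈ Sol ((a : ℚ) / b) t | StrictMono x ∧ (∀ n ∈ A, ∃ i, x i = n) ∧ ∀ i, x i ∉ B}.ncard

/-- **UP3** (from MAIN2D, FIN, UPB), upper bound.  If `a = b`: UPB (`exp (exp t) ≤ exp (exp (2 t))`).  If `a < b`: MAIN2D with `Φ = ∅` and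
`(b - a) / b` gives a set of `t` positive integers with sum of reciprocals `1 - a / b`, so `Sol (1 - a / b) t` is not
empty, and FIN, UPB (with `2 t`) give `N_(a/b)(t) ≤ N_1(2 t) ≤ exp (exp (2 t))`. -/
def S_UP3 : Prop :=
  ∃ t₀ : ℕ, ∀ t ≥ t₀, ∀ a b : ℕ, 1 ≤ a → a ≤ b →
    (b : ℝ) ≤ Real.exp (Real.exp ((t : ℝ) / 50000)) →
    ((Sol ((a : ℚ) / b) t).ncard : ℝ) ≤ Real.exp (Real.exp (2 * (t : ℝ)))

end Pool.Agent.UFL
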