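import Mathlib
import Pool.Agent.UFL.St

set_option autoImplicit false

/-!
# CLS: few members of a class are not good
-/

namespace Pool.Agent.UFL

open Finset

open Classical in
theorem t_CLS (hS : S_SUMF) (hB : S_BADN) (hC : S_CNT) (hW : S_WLE) : S_CLS := by
  obtain ⟨l₁, hl₁⟩ := hW
  refine ⟨max l₁ 20, ?_⟩
  intro l hl c hc
  have hl1 : l₁ ≤ l := le_trans (le_max_left _ _) hl
  have hl20 : 20 ≤ l := le_trans (le_max_right _ _) hl
  have hWle := (hl₁ l hl1).2
  obtain ⟨W, hWd⟩ : ∃ W, W = WW l := ⟨_, rfl⟩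
  obtain ⟨N, hNd⟩ : ∃ N, N = NN l := ⟨_, rfl⟩
  rw [← hWd] at hc hWle ⊢
  rw [← hNd]
  have hNe : N = 2 ^ 2 ^ (l - 4) := hNd
  have hWe : W = (2 ^ 17 * l).factorial := hWd
  have hW1 : 1 ≤ W := by rw [hWe]; exact Nat.factorial_pos _
  have hW2 : 2 ≤ W := by
    rw [hWe]
    have h1 : 2 ≤ 2 ^ 17 * l := by omega
    calc 2 = Nat.factorial 2 := rfl
      _ ≤ _ := Nat.factorial_le h1
  have hN3 : 3 * N ≤ 2 ^ (2 ^ (l - 4) + 2) := by
    rw [hNe, pow_add]
    omega
  -- the finite sets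
  obtain ⟨A, hA⟩ : ∃ A : Finset ℕ, A = (range (3 * N + 1)).filter fun n =>
    n % W = c % W ∧ ¬ Good l n := ⟨_, rfl⟩
  obtain ⟨B, hBd⟩ : ∃ B : Finset ℕ, B = (range (3 * N + 1)).filter fun f =>
    BadC l f ∧ 2 ^ 17 * l < f ∧ Nat.Coprime f W := ⟨_, rfl⟩
  have hAset : {n : ℕ | n ≤ 3 * N ∧ n % W = c % W ∧ ¬ Good l n} = (A : Set ℕ) := by
    ext n
    simp only [hA, Set.mem_ofPred_eq, Finset.coe_filter, Finset.mem_range]
    constructor
    · rintro ⟨h1, h2, h3⟩
      exact ⟨by omega, h2, h3⟩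
    · rintro ⟨h1, h2, h3⟩
      exact ⟨by omega, h2, h3⟩
  rw [hAset, Set.ncard_coe_finset]
  have hsub : A ⊆ B.biUnion fun f => (range (3 * N + 1)).filter fun n => n % W = c % W ∧ f ∣ n := by
    intro n hn
    rw [hA, Finset.mem_filter, Finset.mem_range] at hn
    obtain ⟨hn1, hn2, hn3⟩ := hn
    have hcop : Nat.Coprime n W := by
      have h1 : Nat.gcd n W = Nat.gcd c W := by
        have e1 : Nat.gcd n W = Nat.gcd (n % W) W := by
          rw [Nat.gcd_comm n W, Nat.gcd_rec W n]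
        have e2 : Nat.gcd c W = Nat.gcd (c % W) W := by
          rw [Nat.gcd_comm c W, Nat.gcd_rec W c]
        rw [e1, e2, hn2]
      unfold Nat.Coprime at hc ⊢
      rw [h1, hc]
    have hn0 : 1 ≤ n := by
      rcases Nat.eq_zero_or_pos n with rfl | h
      · unfold Nat.Coprime at hcop
        rw [Nat.gcd_zero_left] at hcop
        omega
      · exact h
    obtain ⟨f, hfn, hf2, hfb⟩ := hB l n hl20 hn0 (by omega) hn3
    have hfW : Nat.Coprime f W := Nat.Coprime.coprime_dvd_left hfn hcop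
    have hfn' : f ≤ n := Nat.le_of_dvd hn0 hfn
    refine Finset.mem_biUnion.2 ⟨f, ?_, ?_⟩
    · rw [hBd, Finset.mem_filter, Finset.mem_range]
      refine ⟨by omega, hfb, ?_, hfW⟩
      by_contra hcon
      have h1 : f ∣ W := by
        rw [hWe]
        exact Nat.dvd_factorial (by omega) (by omega)
      have h2 : f = 1 := Nat.eq_one_of_dvd_coprimes hfW dvd_rfl h1
      omega
    · rw [Finset.mem_filter, Finset.mem_range]
      exact ⟨hn1, hn2, hfn⟩
  have hBm : ∀ f ∈ B, BadC l f ∧ 2 ^ 17 * l < f ∧ f ≤ 2 ^ (2 ^ (l - 4) + 2) := by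
    intro f hf
    rw [hBd, Finset.mem_filter, Finset.mem_range] at hf
    exact ⟨hf.2.1, hf.2.2.1, by omega⟩
  obtain ⟨hs1, hs2⟩ := hS l B hl20 hBm
  have hcard : A.card ≤ ∑ f ∈ B, (3 * N / (f * W) + 1) := by
    refine (Finset.card_le_card hsub).trans (Finset.card_biUnion_le.trans ?_)
    apply Finset.sum_le_sum
    intro f hf
    rw [hBd, Finset.mem_filter, Finset.mem_range] at hf
    exact hC (3 * N) W f c hW1 (by omega) hf.2.2.2
  have hWr : (0 : ℝ) < W := by exact_mod_cast hW1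
  have hNr : (0 : ℝ) < N := by rw [hNe]; positivity
  have hcardR : (A.card : ℝ) ≤ 3 * N / W * (1 / 64) + B.card := by
    calc (A.card : ℝ) ≤ ((∑ f ∈ B, (3 * N / (f * W) + 1) : ℕ) : ℝ) := by exact_mod_cast hcard
      _ = ∑ f ∈ B, (((3 * N / (f * W) : ℕ) : ℝ) + 1) := by push_cast; rfl
      _ ≤ ∑ f ∈ B, (3 * N / W * (1 / (f : ℝ)) + 1) := by
        apply Finset.sum_le_sum
        intro f hf
        have h1 := (hBm f hf).2.1
        have hf0 : (0 : ℝ) < f := by exact_mod_cast (by omega : 0 < f)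
        have h2 : ((3 * N / (f * W) : ℕ) : ℝ) ≤ ((3 * N : ℕ) : ℝ) / ((f * W : ℕ) : ℝ) :=
          Nat.cast_div_le
        have h3 : ((3 * N : ℕ) : ℝ) / ((f * W : ℕ) : ℝ) = 3 * N / W * (1 / (f : ℝ)) := by
          push_cast
          field_simp
        rw [h3] at h2
        linarith
      _ = 3 * N / W * (∑ f ∈ B, 1 / (f : ℝ)) + B.card := by
        rw [Finset.sum_add_distrib, ← Finset.mul_sum]
        simp
      _ ≤ 3 * N / W * (1 / 64) + B.card := by
        have h4 : (0 : ℝ) ≤ 3 * N / W := by positivity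
        have h5 := mul_le_mul_of_nonneg_left hs1 h4
        linarith
  have hB2 : 64 * W * B.card ≤ N := by
    have e1 : 2 ^ (l - 5) = 2 * 2 ^ (l - 6) := by
      rw [show l - 5 = (l - 6) + 1 by omega, pow_succ]
      ring
    have e2 : 2 ^ (l - 4) = 4 * 2 ^ (l - 6) := by
      rw [show l - 4 = (l - 6) + 2 by omega, pow_add]
      ring
    have e3 : 6 ≤ 2 ^ (l - 6) := by
      calc 6 ≤ 2 ^ 3 := by norm_num
        _ ≤ 2 ^ (l - 6) := Nat.pow_le_pow_right (by norm_num) (by omega)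
    calc 64 * W * B.card ≤ 64 * 2 ^ 2 ^ (l - 6) * 2 ^ 2 ^ (l - 5) :=
        Nat.mul_le_mul (Nat.mul_le_mul_left _ hWle) hs2
      _ = 2 ^ (6 + 2 ^ (l - 6) + 2 ^ (l - 5)) := by
        rw [pow_add, pow_add]
        norm_num
      _ ≤ 2 ^ 2 ^ (l - 4) := Nat.pow_le_pow_right (by norm_num) (by rw [e1, e2]; omega)
      _ = N := hNe.symm
  have hB2R : 64 * (W : ℝ) * B.card ≤ N := by exact_mod_cast hB2
  have hfin : 16 * (W : ℝ) * A.card ≤ N := by
    have h6 : 16 * (W : ℝ) * A.card ≤ 16 * W * (3 * N / W * (1 / 64) + B.card) :=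
      mul_le_mul_of_nonneg_left hcardR (by positivity)
    have h7 : 16 * (W : ℝ) * (3 * N / W * (1 / 64) + B.card) = 3 / 4 * N + 16 * W * B.card := by
      field_simp
      ring
    rw [h7] at h6
    linarith
  exact_mod_cast hfin

end Pool.Agent.UFL
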