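import Pool.Agent.UFL.Defs

/-!
# Distinct denominators (helper16)

If `0 < q < 1` is a sum of at most `t` unit fractions then it is a sum of at most `t` distinct unit
fractions (Takenouchi), and of exactly `t'` distinct unit fractions for all `t' ≥ t`.  Take a
representation with the fewest terms and, among these, with the largest sum of the `1 / x ^ 2`; a
repeated `x = 2 y` could be replaced by one `y`, and a repeated `x = 2 y + 1` by `y + 1` and
`x (y + 1)`.
-/

set_option autoImplicit false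

namespace Pool.Agent.UFL.DST

open Pool.Agent.UFL

theorem rs_cons (x : ℕ) (s : Multiset ℕ) : rs (x ::ₘ s) = 1 / (x : ℚ) + rs s := by
  simp [rs]

theorem rs_nonneg (s : Multiset ℕ) : 0 ≤ rs s := by
  induction s using Multiset.induction_on with
  | empty => simp [rs]
  | cons x s ih => rw [rs_cons]; positivity

theorem rs_le (m : ℕ) (hm : 0 < m) (s : Multiset ℕ) (h : ∀ x ∈ s, m ≤ x) :
    rs s * m ≤ Multiset.card s := by
  have hm' : (0 : ℚ) < m := by exact_mod_cast hm
  induction s using Multiset.induction_on with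
  | empty => simp [rs]
  | cons x s ih =>
    have h1 := ih fun y hy => h y (Multiset.mem_cons_of_mem hy)
    have hx : (m : ℚ) ≤ x := by exact_mod_cast h x (Multiset.mem_cons_self x s)
    have h2 : 1 / (x : ℚ) * m ≤ 1 := by
      rw [one_div, inv_mul_le_iff₀ (lt_of_lt_of_le hm' hx)]
      linarith
    rw [rs_cons, Multiset.card_cons, add_mul]
    push_cast
    linarith

/-- There are finitely many representations with `n` terms. -/
theorem fin_ms (n : ℕ) : ∀ q : ℚ,
    {s : Multiset ℕ | Multiset.card s = n ∧ (∀ x ∈ s, 0 < x) ∧ rs s = q}.Finite := by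
  induction n with
  | zero =>
    intro q
    refine (Set.finite_singleton (0 : Multiset ℕ)).subset ?_
    rintro s ⟨h1, -, -⟩
    exact Multiset.card_eq_zero.mp h1
  | succ n ih =>
    intro q
    refine ((Set.finite_Iic ⌈((n : ℚ) + 1) / q⌉₊).biUnion fun m _ =>
      (ih (q - 1 / (m : ℚ))).image (fun s => m ::ₘ s)).subset ?_
    rintro s ⟨h1, h2, h3⟩
    have hne : s.toFinset.Nonempty := by
      rw [Multiset.toFinset_nonempty]
      rintro rfl
      simp at h1
    obtain ⟨m, hm, hmin⟩ := Finset.exists_min_image s.toFinset id hne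
    rw [Multiset.mem_toFinset] at hm
    have hmin' : ∀ x ∈ s, m ≤ x := fun x hx => hmin x (Multiset.mem_toFinset.mpr hx)
    obtain ⟨s', rfl⟩ := Multiset.exists_cons_of_mem hm
    have hm0 : 0 < m := h2 m hm
    have hm' : (0 : ℚ) < m := by exact_mod_cast hm0
    have hle := rs_le m hm0 _ hmin'
    rw [h3, h1] at hle
    have hq : 0 < q := by
      rw [← h3, rs_cons]
      have := rs_nonneg s'
      positivity
    simp only [Set.mem_iUnion, Set.mem_image, Set.mem_ofPred_eq]
    refine ⟨m, ?_, s', ⟨?_, fun x hx => h2 x (Multiset.mem_cons_of_mem hx), ?_⟩, rfl⟩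
    · have h4 : (m : ℚ) ≤ ((n : ℚ) + 1) / q := by
        rw [le_div_iff₀ hq]
        push_cast at hle
        linarith
      have h5 : (m : ℚ) ≤ (⌈((n : ℚ) + 1) / q⌉₊ : ℚ) := h4.trans (Nat.le_ceil _)
      exact_mod_cast h5
    · rw [Multiset.card_cons] at h1
      omega
    · rw [rs_cons] at h3
      linarith

/-- The sum of the `1 / x ^ 2`. -/
def sq (s : Multiset ℕ) : ℚ := (s.map (fun x : ℕ => (1 : ℚ) / (x : ℚ) ^ 2)).sum

theorem sq_cons (x : ℕ) (s : Multiset ℕ) : sq (x ::ₘ s) = 1 / (x : ℚ) ^ 2 + sq s := by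
  simp [sq]

/-- Takenouchi: at most `t` distinct denominators. -/
theorem distinct (q : ℚ) (t : ℕ) (h1 : q < 1) (h : UF t q) :
    ∃ D : Finset ℕ, D.card ≤ t ∧ (∀ x ∈ D, 0 < x) ∧ ∑ x ∈ D, (1 : ℚ) / (x : ℚ) = q := by
  classical
  have hex : ∃ k, ∃ s : Multiset ℕ, Multiset.card s = k ∧ (∀ x ∈ s, 0 < x) ∧ rs s = q := by
    obtain ⟨s, -, hs2, hs3⟩ := h
    exact ⟨_, s, rfl, hs2, hs3⟩
  have hkt : Nat.find hex ≤ t := by
    obtain ⟨s, hs1, hs2, hs3⟩ := h
    exact (Nat.find_min' hex ⟨s, rfl, hs2, hs3⟩).trans hs1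
  obtain ⟨s, ⟨hs1, hs2, hs3⟩, hmax⟩ := Set.exists_max_image _ sq (fin_ms (Nat.find hex) q)
    (Nat.find_spec hex)
  have hnd : s.Nodup := by
    rw [Multiset.nodup_iff_le]
    intro x hx
    obtain ⟨s', hs'⟩ := Multiset.le_iff_exists_add.mp hx
    have hs'' : s = x ::ₘ x ::ₘ s' := by
      rw [hs', Multiset.cons_add, Multiset.cons_add, zero_add]
    subst hs''
    have hx0 : 0 < x := hs2 x (Multiset.mem_cons_self _ _)
    have hpos : ∀ y ∈ s', 0 < y := fun y hy =>
      hs2 y (Multiset.mem_cons_of_mem (Multiset.mem_cons_of_mem hy))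
    rw [rs_cons, rs_cons] at hs3
    rw [Multiset.card_cons, Multiset.card_cons] at hs1
    have hnn := rs_nonneg s'
    rcases Nat.even_or_odd' x with ⟨y, rfl | rfl⟩
    · have hy : 0 < y := by omega
      have hy' : (y : ℚ) ≠ 0 := by exact_mod_cast hy.ne'
      have hk : Nat.find hex ≤ Multiset.card s' + 1 := by
        refine Nat.find_min' hex ⟨y ::ₘ s', Multiset.card_cons _ _, ?_, ?_⟩
        · intro z hz
          rcases Multiset.mem_cons.mp hz with rfl | hz
          · exact hy
          · exact hpos z hz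
        · rw [rs_cons, ← hs3]
          push_cast
          field_simp
          ring
      omega
    · rcases Nat.eq_zero_or_pos y with rfl | hy
      · norm_num at hs3
        linarith
      · have hy' : (0 : ℚ) < y := by exact_mod_cast hy
        have hle := hmax ((y + 1) ::ₘ ((2 * y + 1) * (y + 1)) ::ₘ s') ⟨by
            rw [Multiset.card_cons, Multiset.card_cons, hs1], by
            intro z hz
            rcases Multiset.mem_cons.mp hz with rfl | hz
            · omega
            · rcases Multiset.mem_cons.mp hz with rfl | hz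
              · positivity
              · exact hpos z hz, by
            rw [rs_cons, rs_cons, ← hs3]
            push_cast
            field_simp
            ring⟩
        rw [sq_cons, sq_cons, sq_cons, sq_cons] at hle
        push_cast at hle
        exfalso
        have h5 : (1 : ℚ) / ((y : ℚ) + 1) ^ 2 + 1 / (((2 * (y : ℚ) + 1)) * ((y : ℚ) + 1)) ^ 2 -
            (1 / (2 * (y : ℚ) + 1) ^ 2 + 1 / (2 * (y : ℚ) + 1) ^ 2) =
            2 * (y : ℚ) ^ 2 / (((2 * (y : ℚ) + 1)) * ((y : ℚ) + 1)) ^ 2 := by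
          field_simp
          ring
        have h6 : 0 < 2 * (y : ℚ) ^ 2 / (((2 * (y : ℚ) + 1)) * ((y : ℚ) + 1)) ^ 2 := by
          positivity
        linarith
  exact ⟨⟨s, hnd⟩, hs1.le.trans hkt, hs2, hs3⟩

/-- One more distinct denominator. -/
theorem one_more (q : ℚ) (h0 : 0 < q) (h1 : q < 1) (D : Finset ℕ) (hD : ∀ x ∈ D, 0 < x)
    (hs : ∑ x ∈ D, (1 : ℚ) / (x : ℚ) = q) :
    ∃ D' : Finset ℕ, D'.card = D.card + 1 ∧ (∀ x ∈ D', 0 < x) ∧
      ∑ x ∈ D', (1 : ℚ) / (x : ℚ) = q := by
  classical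
  have hne : D.Nonempty := by
    rw [Finset.nonempty_iff_ne_empty]
    rintro rfl
    simp at hs
    linarith
  obtain ⟨x, hx, hmax⟩ := Finset.exists_max_image D id hne
  have hmax' : ∀ y ∈ D, y ≤ x := hmax
  have hx0 := hD x hx
  have hx' : (0 : ℚ) < x := by exact_mod_cast hx0
  have hsum := Finset.add_sum_erase D (fun y : ℕ => (1 : ℚ) / (y : ℚ)) hx
  have hx2 : 2 ≤ x := by
    by_contra hlt
    have hx1 : x = 1 := by omega
    subst hx1
    have hnn : 0 ≤ ∑ y ∈ D.erase 1, (1 : ℚ) / (y : ℚ) := Finset.sum_nonneg fun y _ => by positivity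
    simp only [Nat.cast_one, div_one] at hsum
    linarith
  have hb : ∀ y ∈ D.erase x, y < x := fun y hy =>
    lt_of_le_of_ne (hmax' y (Finset.mem_of_mem_erase hy)) (Finset.ne_of_mem_erase hy)
  have hxx : x + 1 < x * (x + 1) := by nlinarith
  have hn1 : x + 1 ∉ D.erase x := fun h => by
    have := hb _ h
    omega
  have hn2 : x * (x + 1) ∉ insert (x + 1) (D.erase x) := by
    rw [Finset.mem_insert]
    rintro (h | h)
    · omega
    · have := hb _ h
      omega
  refine ⟨insert (x * (x + 1)) (insert (x + 1) (D.erase x)), ?_, ?_, ?_⟩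
  · rw [Finset.card_insert_of_notMem hn2, Finset.card_insert_of_notMem hn1,
      Finset.card_erase_of_mem hx]
    have := Finset.card_pos.mpr hne
    omega
  · intro y hy
    rw [Finset.mem_insert, Finset.mem_insert] at hy
    rcases hy with rfl | rfl | hy
    · positivity
    · omega
    · exact hD y (Finset.mem_of_mem_erase hy)
  · rw [Finset.sum_insert hn2, Finset.sum_insert hn1, ← hs, ← hsum, ← add_assoc]
    congr 1
    push_cast
    field_simp
    ring

/-- Exactly `t'` distinct denominators, for all `t' ≥ t`. -/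
theorem exact_distinct (q : ℚ) (t : ℕ) (h0 : 0 < q) (h1 : q < 1) (h : UF t q) (t' : ℕ)
    (ht : t ≤ t') :
    ∃ D : Finset ℕ, D.card = t' ∧ (∀ x ∈ D, 0 < x) ∧ ∑ x ∈ D, (1 : ℚ) / (x : ℚ) = q := by
  obtain ⟨D, hD1, hD2, hD3⟩ := distinct q t h1 h
  have key : ∀ n : ℕ, ∃ D' : Finset ℕ, D'.card = D.card + n ∧ (∀ x ∈ D', 0 < x) ∧
      ∑ x ∈ D', (1 : ℚ) / (x : ℚ) = q := by
    intro n
    induction n with
    | zero => exact ⟨D, rfl, hD2, hD3⟩
    | succ n ih =>
      obtain ⟨D', h4, h5, h6⟩ := ih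
      obtain ⟨D'', h7, h8, h9⟩ := one_more q h0 h1 D' h5 h6
      exact ⟨D'', by omega, h8, h9⟩
  obtain ⟨D', h4, h5, h6⟩ := key (t' - D.card)
  exact ⟨D', by omega, h5, h6⟩

end Pool.Agent.UFL.DST

namespace Pool.Agent.UFL

/-- A sum of at most `t` unit fractions, in `(0, 1)`, is a sum of at most `t` distinct ones. -/
theorem DST (q : ℚ) (t : ℕ) (h1 : q < 1) (h : UF t q) :
    ∃ D : Finset ℕ, D.card ≤ t ∧ (∀ x ∈ D, 0 < x) ∧ ∑ x ∈ D, (1 : ℚ) / (x : ℚ) = q :=
  DST.distinct q t h1 h

end Pool.Agent.UFL
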