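import Mathlib
import Pool.Agent.UFL.St3

/-!
# Comparison of the counting functions of different rational numbers (MP_dcc108_nt, helper41, Dec 5)
-/

set_option autoImplicit false

namespace Pool.Agent.UFL

open Finset

/-- **INJ**.  `x ↦ (m x_1, ..., m x_t, y_1, ..., y_u)` is an injection of `Sol q t` into `Sol q' (t + u)`.  On
multisets: `s ↦ m s + Y` is injective; compare `Pool/Agent/UFL/MBRG.lean` (monotone tuples and multisets) and
`MFIN.lean`. -/
def S_INJ : Prop :=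
  ∀ (q q' r : ℚ) (m t u : ℕ), 1 ≤ m → q' = q / m + r → (∃ y, y ∈ Sol r u) → (Sol q' (t + u)).Finite →
    (Sol q t).ncard ≤ (Sol q' (t + u)).ncard ∧
    {x ∈ Sol q t | Monotone x}.ncard ≤ {x ∈ Sol q' (t + u) | Monotone x}.ncard

/-- **CMP** (from ERD, INJ, FIN).  `C₀ > 0` from ERD (may be enlarged).  `C` so large that `C₀ log log (b^3) ≤ C log log b` for
all `b ≥ 3` (`log log (b^3) = log log b + log 3` and `log log b ≥ log log 3 > 0`).  Let `u ≥ C log log b`.
First inequalities: `m = b / a + 1` (floor), so `1 / m < a / b`, `m ≤ b + 1`, and `a / b - 1 / m = (a m - b) / (b m)` with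
`3 ≤ b m ≤ b^3`: by ERD and `Pool.Agent.UFL.DST.exact_distinct` (`Pool/Agent/UFL/DST.lean`) it is a sum of exactly `u` unit
fractions; INJ with `q = 1`, `q' = a / b`.  Second: `1 - a / b = (b - a) / b` is a sum of exactly `u` unit fractions; INJ with
`m = 1`.  Finiteness: FIN. -/
def S_CMP : Prop :=
  ∃ C : ℝ, ∀ a b : ℕ, 1 ≤ a → a < b → 3 ≤ b → ∀ u : ℕ, C * Real.log (Real.log b) ≤ u → ∀ t : ℕ,
    ((Sol 1 t).ncard ≤ (Sol ((a : ℚ) / b) (t + u)).ncard ∧
      (Sol ((a : ℚ) / b) t).ncard ≤ (Sol 1 (t + u)).ncard) ∧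
    {x ∈ Sol 1 t | Monotone x}.ncard ≤ {x ∈ Sol ((a : ℚ) / b) (t + u) | Monotone x}.ncard ∧
      {x ∈ Sol ((a : ℚ) / b) t | Monotone x}.ncard ≤ {x ∈ Sol 1 (t + u) | Monotone x}.ncard

end Pool.Agent.UFL
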