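import Mathlib
import Pool.Agent.UFL.St4
import Pool.Agent.UFL.DST

/-!
# Module CMP (helper16): comparison of the counting functions of `a / b` and of `1`
-/

set_option autoImplicit false

namespace Pool.Agent.UFL

open Finset

/-- A finite set of `u` positive integers with sum of reciprocals `q` gives an element of `Sol q u`. -/
theorem cmp_sol_of_finset (q : ℚ) (u : ℕ) (D : Finset ℕ) (hc : D.card = u) (hp : ∀ x ∈ D, 0 < x)
    (hs : ∑ x ∈ D, (1 : ℚ) / (x : ℚ) = q) : ∃ y, y ∈ Sol q u := by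
  refine ⟨fun i => ((D.equivFinOfCardEq hc).symm i : ℕ), fun i => ?_, ?_⟩
  · exact hp _ ((D.equivFinOfCardEq hc).symm i).2
  · have h1 : ∑ i : Fin u, (1 : ℚ) / (((D.equivFinOfCardEq hc).symm i : ℕ) : ℚ) =
        ∑ x : D, (1 : ℚ) / ((x : ℕ) : ℚ) :=
      Equiv.sum_comp (D.equivFinOfCardEq hc).symm (fun x : D => (1 : ℚ) / ((x : ℕ) : ℚ))
    rw [h1, Finset.sum_coe_sort D (fun x : ℕ => (1 : ℚ) / (x : ℚ)), hs]

/-- Exactly `u` unit fractions, as soon as `u ≥ |C| log log b`. -/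
theorem cmp_exact (C : ℝ) (hC : ∀ a b : ℕ, 1 ≤ a → a < b → 3 ≤ b →
    ∃ S : Finset ℕ, (∀ x ∈ S, 0 < x) ∧ (S.card : ℝ) ≤ C * Real.log (Real.log b) ∧
      ∑ x ∈ S, (1 : ℚ) / (x : ℚ) = (a : ℚ) / b)
    (a b : ℕ) (ha : 1 ≤ a) (hab : a < b) (hb : 3 ≤ b) (u : ℕ)
    (hu : C * Real.log (Real.log b) ≤ u) : ∃ y, y ∈ Sol ((a : ℚ) / b) u := by
  obtain ⟨S, hS1, hS2, hS3⟩ := hC a b ha hab hb
  have hcard : S.card ≤ u := by exact_mod_cast hS2.trans hu
  have hb0 : (0 : ℚ) < b := by exact_mod_cast (by omega : 0 < b)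
  have ha0 : (0 : ℚ) < a := by exact_mod_cast ha
  have h0 : (0 : ℚ) < (a : ℚ) / b := div_pos ha0 hb0
  have h1 : (a : ℚ) / b < 1 := by
    rw [div_lt_one hb0]
    exact_mod_cast hab
  have hUF : UF S.card ((a : ℚ) / b) := by
    refine ⟨S.val, le_of_eq rfl, fun x hx => hS1 x hx, ?_⟩
    rw [← hS3]
    rfl
  obtain ⟨D, hD1, hD2, hD3⟩ := DST.exact_distinct _ _ h0 h1 hUF u hcard
  exact cmp_sol_of_finset _ u D hD1 hD2 hD3

theorem cmp_loglog3 : 0 < Real.log (Real.log 3) := by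
  have h3 : 1 < Real.log 3 := by
    rw [Real.lt_log_iff_exp_lt (by norm_num)]
    exact lt_trans Real.exp_one_lt_d9 (by norm_num)
  exact Real.log_pos h3

/-- `log log b' ≤ (1 + log 3 / log log 3) log log b` for `3 ≤ b' ≤ b ^ 3`. -/
theorem cmp_loglog (b b' : ℕ) (hb : 3 ≤ b) (hb' : 3 ≤ b') (h : b' ≤ b ^ 3) :
    Real.log (Real.log b') ≤
      (1 + Real.log 3 / Real.log (Real.log 3)) * Real.log (Real.log b) := by
  have hδ := cmp_loglog3
  have h3 : 1 < Real.log 3 := by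
    rw [Real.lt_log_iff_exp_lt (by norm_num)]
    exact lt_trans Real.exp_one_lt_d9 (by norm_num)
  have hb3 : (3 : ℝ) ≤ b := by exact_mod_cast hb
  have hb3' : (3 : ℝ) ≤ b' := by exact_mod_cast hb'
  have hle : (b' : ℝ) ≤ (b : ℝ) ^ 3 := by exact_mod_cast h
  have hlogb : Real.log 3 ≤ Real.log b := Real.log_le_log (by norm_num) hb3
  have hlogb' : Real.log 3 ≤ Real.log b' := Real.log_le_log (by norm_num) hb3'
  have hL : Real.log (Real.log 3) ≤ Real.log (Real.log b) :=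
    Real.log_le_log (by linarith) hlogb
  have h1 : Real.log b' ≤ 3 * Real.log b := by
    calc Real.log b' ≤ Real.log ((b : ℝ) ^ 3) := Real.log_le_log (by linarith) hle
      _ = 3 * Real.log b := by rw [Real.log_pow]; norm_num
  have h2 : Real.log (Real.log b') ≤ Real.log 3 + Real.log (Real.log b) := by
    calc Real.log (Real.log b') ≤ Real.log (3 * Real.log b) :=
          Real.log_le_log (by linarith) h1
      _ = Real.log 3 + Real.log (Real.log b) := by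
          rw [Real.log_mul (by norm_num) (by linarith)]
  have h4 : Real.log 3 ≤ Real.log 3 / Real.log (Real.log 3) * Real.log (Real.log b) := by
    rw [div_mul_eq_mul_div, le_div_iff₀ hδ]
    exact mul_le_mul_of_nonneg_left hL (by linarith)
  linarith

/-- Module CMP. -/
theorem t_CMP (hE : S_ERD) (hI : S_INJ) (hF : S_FIN) : S_CMP := by
  obtain ⟨C₀, hC₀⟩ := hE
  have hδ := cmp_loglog3
  have h3 : 1 < Real.log 3 := by
    rw [Real.lt_log_iff_exp_lt (by norm_num)]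
    exact lt_trans Real.exp_one_lt_d9 (by norm_num)
  have hC1 : ∀ a b : ℕ, 1 ≤ a → a < b → 3 ≤ b →
      ∃ S : Finset ℕ, (∀ x ∈ S, 0 < x) ∧ (S.card : ℝ) ≤ |C₀| * Real.log (Real.log b) ∧
        ∑ x ∈ S, (1 : ℚ) / (x : ℚ) = (a : ℚ) / b := by
    intro a b ha hab hb
    obtain ⟨S, hS1, hS2, hS3⟩ := hC₀ a b ha hab hb
    refine ⟨S, hS1, hS2.trans ?_, hS3⟩
    have hb3 : (3 : ℝ) ≤ b := by exact_mod_cast hb
    have hlogb : Real.log 3 ≤ Real.log b := Real.log_le_log (by norm_num) hb3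
    have hL : Real.log (Real.log 3) ≤ Real.log (Real.log b) :=
      Real.log_le_log (by linarith) hlogb
    exact mul_le_mul_of_nonneg_right (le_abs_self C₀) (by linarith)
  refine ⟨|C₀| * (1 + Real.log 3 / Real.log (Real.log 3)), fun a b ha hab hb u hu t => ?_⟩
  have hex : ∀ a' b' : ℕ, 1 ≤ a' → a' < b' → 3 ≤ b' → b' ≤ b ^ 3 →
      ∃ y, y ∈ Sol ((a' : ℚ) / b') u := by
    intro a' b' ha' hab' hb' hle
    refine cmp_exact |C₀| hC1 a' b' ha' hab' hb' u (le_trans ?_ hu)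
    rw [mul_assoc]
    exact mul_le_mul_of_nonneg_left (cmp_loglog b b' hb hb' hle) (abs_nonneg C₀)
  have hb0 : (0 : ℚ) < b := by exact_mod_cast (by omega : 0 < b)
  have ha0 : (0 : ℚ) < a := by exact_mod_cast ha
  -- the first inequalities
  obtain ⟨m, hm⟩ : ∃ m : ℕ, m = b / a + 1 := ⟨_, rfl⟩
  have hm1 : 1 ≤ m := by
    rw [hm]
    exact Nat.le_add_left 1 _
  have hbm : b < a * m := by
    rw [hm]
    exact Nat.lt_mul_div_succ b (by omega)
  have hmb : m ≤ b + 1 := by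
    rw [hm]
    exact Nat.add_le_add_right (Nat.div_le_self b a) 1
  have ham : a * m < b * m := Nat.mul_lt_mul_of_pos_right hab (by omega)
  have h1 : ∃ y, y ∈ Sol (((a * m - b : ℕ) : ℚ) / ((b * m : ℕ) : ℚ)) u := by
    refine hex (a * m - b) (b * m) (by omega) (by omega) ?_ ?_
    · calc 3 ≤ b := hb
        _ = b * 1 := (mul_one b).symm
        _ ≤ b * m := Nat.mul_le_mul_left b hm1
    · calc b * m ≤ b * (b * b) := by
            refine Nat.mul_le_mul_left b (hmb.trans ?_)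
            nlinarith
        _ = b ^ 3 := by ring
  have hm0 : (0 : ℚ) < m := by exact_mod_cast hm1
  have hr1 : (a : ℚ) / b = 1 / (m : ℚ) + ((a * m - b : ℕ) : ℚ) / ((b * m : ℕ) : ℚ) := by
    rw [Nat.cast_sub hbm.le]
    push_cast
    field_simp
    ring
  have hI1 := hI 1 ((a : ℚ) / b) (((a * m - b : ℕ) : ℚ) / ((b * m : ℕ) : ℚ)) m t u hm1 hr1 h1
    (hF.1 a b (t + u) ha hab.le)
  -- the second inequalities
  have h2 : ∃ y, y ∈ Sol (((b - a : ℕ) : ℚ) / (b : ℚ)) u := by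
    refine hex (b - a) b (by omega) (by omega) hb ?_
    calc b = b ^ 1 := (pow_one b).symm
      _ ≤ b ^ 3 := Nat.pow_le_pow_right (by omega) (by norm_num)
  have hr2 : (1 : ℚ) = (a : ℚ) / b / ((1 : ℕ) : ℚ) + ((b - a : ℕ) : ℚ) / (b : ℚ) := by
    rw [Nat.cast_sub hab.le]
    push_cast
    field_simp
    ring
  have hfin1 : (Sol 1 (t + u)).Finite := by
    have := hF.1 1 1 (t + u) le_rfl le_rfl
    simpa using this
  have hI2 := hI ((a : ℚ) / b) 1 (((b - a : ℕ) : ℚ) / (b : ℚ)) 1 t u le_rfl hr2 h2 hfin1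
  exact ⟨⟨hI1.1, hI2.1⟩, hI1.2, hI2.2⟩

end Pool.Agent.UFL
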