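import Mathlib
import Pool.Agent.UFL.St

/-!
# Module CNT (helper65): counting one class
-/

set_option autoImplicit false

namespace Pool.Agent.UFL

open Finset

theorem t_CNT : S_CNT := by
  intro N W f c _hW _hf hcop
  have hcard : (range (N / (f * W) + 1)).card = N / (f * W) + 1 := card_range _
  rw [← hcard]
  refine card_le_card_of_injOn (fun n => n / (f * W)) ?_ ?_
  · intro n hn
    have hn' := mem_filter.1 (mem_coe.1 hn)
    have h1 : n < N + 1 := mem_range.1 hn'.1
    refine mem_coe.2 (mem_range.2 ?_)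
    exact Nat.lt_succ_of_le (Nat.div_le_div_right (Nat.lt_succ_iff.1 h1))
  · intro n hn n' hn' hq
    have h1 := (mem_filter.1 (mem_coe.1 hn)).2
    have h2 := (mem_filter.1 (mem_coe.1 hn')).2
    have hq' : n / (f * W) = n' / (f * W) := hq
    have hWm : n ≡ n' [MOD W] := h1.1.trans h2.1.symm
    have hfm : n ≡ n' [MOD f] :=
      ((Nat.modEq_zero_iff_dvd).2 h1.2).trans ((Nat.modEq_zero_iff_dvd).2 h2.2).symm
    have hm : n ≡ n' [MOD f * W] := (Nat.modEq_and_modEq_iff_modEq_mul hcop).1 ⟨hfm, hWm⟩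
    have hm' : n % (f * W) = n' % (f * W) := hm
    rw [← Nat.div_add_mod n (f * W), ← Nat.div_add_mod n' (f * W), hq', hm']

end Pool.Agent.UFL
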