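import Mathlib
import Pool.Agent.UFL.St2

/-!
# DIG2: digits, with distinct denominators
-/

set_option autoImplicit false

namespace Pool.Agent.UFL

namespace DIG2

theorem dig2_zero (Q k : ℕ) (Φ : Finset ℕ) : DUF Q k Φ 0 :=
  ⟨∅, by simp, by simp, by simp, by simp, by simp⟩

theorem dig2_add {Q k k' κ : ℕ} {q q' : ℚ} {Φ : Finset ℕ} (h : DUF Q k Φ q)
    (hΦ : Φ.card + k ≤ κ) (h' : ∀ Φ' : Finset ℕ, Φ'.card ≤ κ → Φ ⊆ Φ' → DUF Q k' Φ' q') :
    DUF Q (k + k') Φ (q + q') := by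
  classical
  obtain ⟨S, h1, h2, h3, h4, h5⟩ := h
  obtain ⟨S', h1', h2', h3', h4', h5'⟩ := h' (Φ ∪ S)
    ((Finset.card_union_le _ _).trans (by omega)) Finset.subset_union_left
  have hd : Disjoint S S' := (Finset.disjoint_of_subset_right Finset.subset_union_right h2').symm
  refine ⟨S ∪ S', ?_, ?_, ?_, ?_, ?_⟩
  · exact (Finset.card_union_le _ _).trans (by omega)
  · exact Finset.disjoint_union_left.2
      ⟨h2, Finset.disjoint_of_subset_right Finset.subset_union_left h2'⟩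
  · intro y hy
    rcases Finset.mem_union.1 hy with hy | hy
    · exact h3 y hy
    · exact h3' y hy
  · intro hq
    rcases lt_or_ge 0 q with h0 | h0
    · obtain ⟨y, hy, hQ⟩ := h4 h0
      exact ⟨y, Finset.mem_union_left _ hy, hQ⟩
    · have h0' : 0 < q' := by linarith
      obtain ⟨y, hy, hQ⟩ := h4' h0'
      exact ⟨y, Finset.mem_union_right _ hy, hQ⟩
  · rw [Finset.sum_union hd, h5, h5']

end DIG2

open DIG2 in
/-- Digits: a number below `2 ^ (d (e + 1))` in base `2 ^ d`. -/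
theorem t_DIG2 : S_DIG2 := by
  intro Q d κ hQ h e
  induction e with
  | zero =>
    intro x z Φ hx hz hΦ
    rcases Nat.eq_zero_or_pos x with rfl | hx0
    · simpa using dig2_zero Q 4 Φ
    · have h1 := h x z Φ hx0 (by simpa using hx.le) hz (by omega)
      simpa using h1
  | succ e ih =>
    intro x z Φ hx hz hΦ
    have hp : 0 < 2 ^ (d * (e + 1)) := by positivity
    have hm : x / 2 ^ (d * (e + 1)) < 2 ^ d := by
      rw [Nat.div_lt_iff_lt_mul hp, ← pow_add]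
      have e1 : d + d * (e + 1) = d * (e + 1 + 1) := by ring
      rw [e1]
      exact hx
    have hr : x % 2 ^ (d * (e + 1)) < 2 ^ (d * (e + 1)) := Nat.mod_lt _ hp
    have h1 : DUF Q 4 Φ (((x / 2 ^ (d * (e + 1)) : ℕ) : ℚ) / ((Q : ℚ) * z)) := by
      rcases Nat.eq_zero_or_pos (x / 2 ^ (d * (e + 1))) with h0 | h0
      · rw [h0]
        simpa using dig2_zero Q 4 Φ
      · exact h _ z Φ h0 hm.le hz (by omega)
    have h3 : DUF Q (4 + 4 * (e + 1)) Φ (((x / 2 ^ (d * (e + 1)) : ℕ) : ℚ) / ((Q : ℚ) * z) +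
        ((x % 2 ^ (d * (e + 1)) : ℕ) : ℚ) / ((2 : ℚ) ^ (d * e) * Q * ((2 ^ d * z : ℕ) : ℚ))) := by
      refine dig2_add (κ := κ - 4 * (e + 1)) h1 (by omega) ?_
      intro Φ' hΦ' _
      exact ih (x % 2 ^ (d * (e + 1))) (2 ^ d * z) Φ' hr
        (Nat.one_le_iff_ne_zero.2 (by positivity)) (by omega)
    have e2 : 4 + 4 * (e + 1) = 4 * (e + 1 + 1) := by ring
    rw [e2] at h3
    convert h3 using 1
    have hQ' : (Q : ℚ) ≠ 0 := by
      have : Q ≠ 0 := by omega
      exact_mod_cast this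
    have hz' : (z : ℚ) ≠ 0 := by
      have : z ≠ 0 := by omega
      exact_mod_cast this
    have hx' : (x : ℚ) = ((2 : ℚ) ^ (d * (e + 1))) * ((x / 2 ^ (d * (e + 1)) : ℕ) : ℚ) +
        ((x % 2 ^ (d * (e + 1)) : ℕ) : ℚ) := by
      have := Nat.div_add_mod x (2 ^ (d * (e + 1)))
      exact_mod_cast this.symm
    have e3 : (2 : ℚ) ^ (d * (e + 1)) = (2 : ℚ) ^ (d * e) * (2 : ℚ) ^ d := by
      rw [← pow_add]
      congr 1
    generalize hA : ((x / 2 ^ (d * (e + 1)) : ℕ) : ℚ) = A at *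
    generalize hB : ((x % 2 ^ (d * (e + 1)) : ℕ) : ℚ) = B at *
    rw [hx', e3]
    push_cast
    have h2d : (2 : ℚ) ^ d ≠ 0 := by positivity
    have h2de : (2 : ℚ) ^ (d * e) ≠ 0 := by positivity
    field_simp

end Pool.Agent.UFL
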