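import Pool.Agent.UFL.St
import Pool.Agent.Lib_helper83.EF.Coll

/-!
# Module EN of the project UFL: the energy bound
-/

set_option autoImplicit false

namespace Pool.Agent.UFL

open Finset

theorem t_EN : S_EN := by
  classical
  intro P hP j
  set A : Finset (Fin j → ℕ) := Fintype.piFinset fun _ : Fin j => P with hA
  have hAc : A.card = P.card ^ j := by
    rw [hA, Fintype.card_piFinset]
    simp
  have hmap : ∀ z ∈ (A ×ˢ A).filter (fun z => ∏ i, z.1 i = ∏ i, z.2 i), z.2 ∈ A := by
    intro z hz
    exact (mem_product.mp (mem_filter.mp hz).1).2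
  rw [card_eq_sum_card_fiberwise hmap]
  calc ∑ y ∈ A, (((A ×ˢ A).filter (fun z => ∏ i, z.1 i = ∏ i, z.2 i)).filter
          (fun z => z.2 = y)).card
      ≤ ∑ _y ∈ A, j.factorial := by
        refine sum_le_sum fun y _ => ?_
        have h1 := Pool.Agent.Lib_helper83.EF.card_prod_eq_le (ι := Fin j) P hP (∏ i, y i)
        rw [Fintype.card_fin] at h1
        refine le_trans (card_le_card_of_injOn (fun z => z.1) ?_ ?_) h1
        · intro z hz
          rw [mem_coe, mem_filter, mem_filter, mem_product] at hz
          rw [mem_coe, mem_filter]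
          refine ⟨hz.1.1.1, ?_⟩
          rw [hz.1.2, hz.2]
        · intro z hz z' hz' h
          rw [mem_coe, mem_filter] at hz hz'
          exact Prod.ext h (hz.2.trans hz'.2.symm)
    _ = j.factorial * P.card ^ j := by
        rw [sum_const, smul_eq_mul, hAc, mul_comm]

end Pool.Agent.UFL
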