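import Mathlib
import Pool.Agent.UFL.St2

/-!
# Module ERD2 (helper65): the conjecture of Erdős (1950)
-/

set_option autoImplicit false

namespace Pool.Agent.UFL

open Finset

theorem t_ERD2 (hM : S_MAIN2D) : S_ERD := by
  obtain ⟨t₀, ht₀⟩ := hM
  have h3 : 1 < Real.log 3 := by
    rw [Real.lt_log_iff_exp_lt (by norm_num)]
    exact lt_trans Real.exp_one_lt_d9 (by norm_num)
  have hδ : 0 < Real.log (Real.log 3) := Real.log_pos h3
  refine ⟨((t₀ : ℝ) + 1) / Real.log (Real.log 3) + 40000, fun a b ha hab hb => ?_⟩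
  have hb3 : (3 : ℝ) ≤ b := by exact_mod_cast hb
  have hlog : Real.log 3 ≤ Real.log b := Real.log_le_log (by norm_num) hb3
  have hlogb : 0 < Real.log b := by linarith
  have hL : Real.log (Real.log 3) ≤ Real.log (Real.log b) := Real.log_le_log (by linarith) hlog
  have hbpos : (0 : ℝ) < b := by linarith
  obtain ⟨L, hLd⟩ : ∃ L : ℝ, L = Real.log (Real.log b) := ⟨_, rfl⟩
  rw [← hLd] at hL
  have hL0 : 0 < L := lt_of_lt_of_le hδ hL
  obtain ⟨t, htd⟩ : ∃ t : ℕ, t = max t₀ ⌈40000 * L⌉₊ := ⟨_, rfl⟩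
  have ht1 : t₀ ≤ t := by rw [htd]; exact le_max_left _ _
  have ht2 : 40000 * L ≤ (t : ℝ) := by
    have h1 : 40000 * L ≤ (⌈40000 * L⌉₊ : ℝ) := Nat.le_ceil _
    have h2 : ⌈40000 * L⌉₊ ≤ t := by rw [htd]; exact le_max_right _ _
    have h2' : ((⌈40000 * L⌉₊ : ℕ) : ℝ) ≤ (t : ℝ) := by exact_mod_cast h2
    exact h1.trans h2'
  have ht3 : (t : ℝ) ≤ (t₀ : ℝ) + (40000 * L + 1) := by
    have h1 : (⌈40000 * L⌉₊ : ℝ) < 40000 * L + 1 := Nat.ceil_lt_add_one (by positivity)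
    have h0 : (0 : ℝ) ≤ (t₀ : ℝ) := Nat.cast_nonneg _
    rcases le_total t₀ ⌈40000 * L⌉₊ with h | h
    · rw [htd, max_eq_right h]
      linarith
    · rw [htd, max_eq_left h]
      have : 0 ≤ 40000 * L := by positivity
      linarith
  have hLt : L ≤ (t : ℝ) / 40000 := by
    rw [le_div_iff₀ (by norm_num)]
    linarith
  have hexp : (b : ℝ) ≤ Real.exp (Real.exp ((t : ℝ) / 40000)) := by
    have h1 : Real.exp L ≤ Real.exp ((t : ℝ) / 40000) := Real.exp_le_exp.2 hLt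
    have h2 : Real.exp L = Real.log b := by rw [hLd, Real.exp_log hlogb]
    have h4 : Real.exp (Real.log b) = b := Real.exp_log hbpos
    calc (b : ℝ) = Real.exp (Real.log b) := h4.symm
      _ ≤ Real.exp (Real.exp ((t : ℝ) / 40000)) := by
          apply Real.exp_le_exp.2
          rw [← h2]
          exact h1
  obtain ⟨K, hK, F, hF, hcard⟩ := ht₀ t ht1 a b ∅ ha hab hexp (by simp; positivity) (by simp)
  have hK0 : 0 < K := by
    have : (0 : ℝ) < (K : ℝ) := lt_of_lt_of_le (Real.exp_pos _) hK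
    exact_mod_cast this
  obtain ⟨S, hS⟩ : F.Nonempty := Finset.card_pos.1 (lt_of_lt_of_le hK0 hcard)
  obtain ⟨h1, _, h5, _, h6⟩ := hF S hS
  refine ⟨S, h5, ?_, h6⟩
  rw [h1, ← hLd]
  have h7 : (t₀ : ℝ) + 1 ≤ ((t₀ : ℝ) + 1) / Real.log (Real.log 3) * L := by
    rw [div_mul_eq_mul_div, le_div_iff₀ hδ]
    exact mul_le_mul_of_nonneg_left hL (by positivity)
  calc (t : ℝ) ≤ (t₀ : ℝ) + (40000 * L + 1) := ht3
    _ ≤ ((t₀ : ℝ) + 1) / Real.log (Real.log 3) * L + 40000 * L := by linarith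
    _ = (((t₀ : ℝ) + 1) / Real.log (Real.log 3) + 40000) * L := by ring

end Pool.Agent.UFL
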