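import Pool.Agent.UFL.St
import Pool.Agent.Lib_helper63.EF.UB

/-!
# Module FIN of the project UFL: finiteness and injections
-/

set_option autoImplicit false

namespace Pool.Agent.UFL

/-- The solutions of `1` form a finite set. -/
theorem fin_one (t : ℕ) : (Sol 1 t).Finite := by
  have h := Pool.Agent.Lib_helper63.EF.osol_finite t
  exact h

/-- Appending a fixed solution maps solutions of `q` to solutions of `1`. -/
theorem append_mem {q : ℚ} {t u : ℕ} {x : Fin t → ℕ} {y : Fin u → ℕ} (hx : x ∈ Sol q t)
    (hy : y ∈ Sol (1 - q) u) : Fin.append x y ∈ Sol 1 (t + u) := by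
  obtain ⟨hx1, hx2⟩ := hx
  obtain ⟨hy1, hy2⟩ := hy
  refine ⟨fun i => ?_, ?_⟩
  · refine Fin.addCases (fun j => ?_) (fun j => ?_) i
    · rw [Fin.append_left]; exact hx1 j
    · rw [Fin.append_right]; exact hy1 j
  · rw [Fin.sum_univ_add]
    simp only [Fin.append_left, Fin.append_right]
    rw [hx2, hy2]
    ring

theorem append_inj {t u : ℕ} (y : Fin u → ℕ) :
    Function.Injective (fun x : Fin t → ℕ => Fin.append x y) := by
  intro x x' h
  funext i
  have := congrFun h (Fin.castAdd u i)
  simpa [Fin.append_left] using this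

/-- Module FIN. -/
theorem t_FIN : S_FIN := by
  refine ⟨?_, ?_⟩
  · intro a b t ha hab
    have hb : (0 : ℚ) < b := by exact_mod_cast (lt_of_lt_of_le ha hab)
    have hy : (fun _ : Fin (b - a) => b) ∈ Sol (1 - (a : ℚ) / b) (b - a) := by
      refine ⟨fun _ => lt_of_lt_of_le ha hab, ?_⟩
      simp only [Finset.sum_const, Finset.card_univ, Fintype.card_fin, nsmul_eq_mul]
      rw [Nat.cast_sub hab]
      field_simp
    refine Set.Finite.of_injOn (f := fun x : Fin t → ℕ => Fin.append x (fun _ : Fin (b - a) => b))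
      (t := Sol 1 (t + (b - a))) ?_ ?_ (fin_one _)
    · intro x hx
      exact append_mem hx hy
    · exact (append_inj _).injOn
  · rintro q t u ⟨y, hy⟩
    refine Set.ncard_le_ncard_of_injOn (fun x : Fin t → ℕ => Fin.append x y) ?_ ?_ (fin_one _)
    · intro x hx
      exact append_mem hx hy
    · exact (append_inj _).injOn

end Pool.Agent.UFL
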