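import Pool.Agent.UFL.St2

/-!
# UFL, module GRE2: the greedy algorithm avoiding a finite set (helper81)

In the state after `i` steps the rest is `a / b`; `m = card Φ + i + 2`.  A step takes some `x` with
`b / a < x ≤ b / a + m` outside `Φ` and the set of the denominators used so far.
-/

set_option autoImplicit false

namespace Pool.Agent.UFL

namespace GRE2x

/-- State after `i` steps. -/
structure GSt (a₀ b₀ Q R N : ℕ) (Φ : Finset ℕ) (i a b : ℕ) (S : Finset ℕ) : Prop where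
  card : S.card ≤ i
  dis : Disjoint S Φ
  pos : ∀ x ∈ S, 0 < x
  apos : 1 ≤ a
  bpos : 1 ≤ b
  abd : a ≤ b₀ * R ^ i
  bbd : b ≤ b₀ * Q * R ^ N * (Q + R)
  eq : (a₀ : ℚ) / b₀ = ∑ x ∈ S, (1 : ℚ) / (x : ℚ) + (a : ℚ) / b

/-- The conclusion. -/
def Fin2 (a₀ b₀ Q R N : ℕ) (Φ : Finset ℕ) : Prop :=
  ∃ (S : Finset ℕ) (a' b' : ℕ), S.card ≤ N ∧ Disjoint S Φ ∧ (∀ x ∈ S, 0 < x) ∧ 1 ≤ a' ∧
    a' * Q < b' ∧ b' ≤ b₀ * Q * R ^ N * (Q + R) ∧
    (a₀ : ℚ) / b₀ = ∑ x ∈ S, (1 : ℚ) / (x : ℚ) + (a' : ℚ) / b'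

theorem fin {a₀ b₀ Q R N : ℕ} {Φ : Finset ℕ} {i a b : ℕ} {S : Finset ℕ}
    (h : GSt a₀ b₀ Q R N Φ i a b S) (hi : i ≤ N) (hq : a * Q < b) : Fin2 a₀ b₀ Q R N Φ :=
  ⟨S, a, b, h.card.trans hi, h.dis, h.pos, h.apos, hq, h.bbd, h.eq⟩

/-- One step. -/
theorem step {a₀ b₀ Q R N : ℕ} {Φ : Finset ℕ} {i a b : ℕ} {S : Finset ℕ}
    (h : GSt a₀ b₀ Q R N Φ i a b S) (hi : i < N) (hR : R = Φ.card + N + 1)
    (hq : ¬ a * Q < b) :
    ∃ (a' b' : ℕ) (S' : Finset ℕ) (x : ℕ), GSt a₀ b₀ Q R N Φ (i + 1) a' b' S' ∧ 0 < x ∧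
      (a' : ℚ) / b' = (a : ℚ) / b - 1 / (x : ℚ) ∧ 1 < (a : ℚ) / b * x ∧
      (a : ℚ) / b * x ≤ 1 + ((Φ.card + i + 2 : ℕ) : ℚ) * ((a : ℚ) / b) := by
  have ha : 1 ≤ a := h.apos
  have hb : 1 ≤ b := h.bpos
  have hcard : (Φ ∪ S).card < (Finset.Ioc (b / a) (b / a + (Φ.card + i + 1))).card := by
    rw [Nat.card_Ioc]
    have h1 := Finset.card_union_le Φ S
    have h2 := h.card
    omega
  obtain ⟨x, hx1, hx2⟩ := Finset.exists_mem_notMem_of_card_lt_card hcard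
  rw [Finset.mem_Ioc] at hx1
  rw [Finset.mem_union, not_or] at hx2
  have hx0 : 0 < x := lt_of_le_of_lt (Nat.zero_le _) hx1.1
  have h1 : a * (b / a) ≤ b := Nat.mul_div_le b a
  have h2 : b < a * (b / a + 1) := Nat.lt_mul_div_succ b ha
  have h3 : b < a * x := lt_of_lt_of_le h2 (Nat.mul_le_mul_left a hx1.1)
  have h4 : a * x ≤ b + (Φ.card + i + 1) * a := by
    calc a * x ≤ a * (b / a + (Φ.card + i + 1)) := Nat.mul_le_mul_left a hx1.2
      _ = a * (b / a) + (Φ.card + i + 1) * a := by ring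
      _ ≤ b + (Φ.card + i + 1) * a := Nat.add_le_add_right h1 _
  obtain ⟨c, hc⟩ := Nat.exists_eq_add_of_lt h3
  have hbq : (b : ℚ) ≠ 0 := Nat.cast_ne_zero.2 (by omega)
  have hbq0 : (0 : ℚ) < b := Nat.cast_pos.2 (by omega)
  have hxq : (x : ℚ) ≠ 0 := Nat.cast_ne_zero.2 (by omega)
  have hcq : (a : ℚ) * x = (b : ℚ) + c + 1 := by exact_mod_cast hc
  have hmR : Φ.card + i + 1 ≤ R := by omega
  have hc1 : c + 1 ≤ R * a := by
    have : c + 1 ≤ (Φ.card + i + 1) * a := by omega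
    exact this.trans (Nat.mul_le_mul_right a hmR)
  have hrest : ((c + 1 : ℕ) : ℚ) / ((b * x : ℕ) : ℚ) = (a : ℚ) / b - 1 / (x : ℚ) := by
    push_cast
    rw [div_sub_div _ _ hbq hxq, div_eq_div_iff (mul_ne_zero hbq hxq) (mul_ne_zero hbq hxq)]
    linear_combination (-(b : ℚ) * x) * hcq
  refine ⟨c + 1, b * x, insert x S, x, ⟨?_, ?_, ?_, ?_, ?_, ?_, ?_, ?_⟩, hx0, hrest, ?_, ?_⟩
  · exact (Finset.card_insert_le x S).trans (Nat.add_le_add_right h.card 1)
  · rw [Finset.disjoint_insert_left]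
    exact ⟨hx2.1, h.dis⟩
  · intro y hy
    rcases Finset.mem_insert.1 hy with rfl | hy
    · exact hx0
    · exact h.pos y hy
  · omega
  · exact Nat.mul_pos (by omega) hx0
  · calc c + 1 ≤ R * a := hc1
      _ ≤ R * (b₀ * R ^ i) := Nat.mul_le_mul_left R h.abd
      _ = b₀ * R ^ (i + 1) := by ring
  · have hbQ : b ≤ a * Q := not_lt.1 hq
    have hxQ : x ≤ Q + R := by
      have h5 : b / a ≤ Q := by
        rw [Nat.div_le_iff_le_mul_add_pred ha]
        have : a * Q ≤ a * Q + (a - 1) := Nat.le_add_right _ _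
        omega
      have := hx1.2
      omega
    have hR1 : 1 ≤ R := by omega
    have h6 : a ≤ b₀ * R ^ N :=
      h.abd.trans (Nat.mul_le_mul_left b₀ (Nat.pow_le_pow_right hR1 hi.le))
    calc b * x ≤ (a * Q) * (Q + R) := Nat.mul_le_mul hbQ hxQ
      _ ≤ (b₀ * R ^ N * Q) * (Q + R) :=
          Nat.mul_le_mul_right _ (Nat.mul_le_mul_right Q h6)
      _ = b₀ * Q * R ^ N * (Q + R) := by ring
  · rw [Finset.sum_insert hx2.2, hrest, h.eq]
    ring
  · rw [div_mul_eq_mul_div, lt_div_iff₀ hbq0, one_mul]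
    exact_mod_cast h3
  · have h7 : (a : ℚ) * x ≤ b + (Φ.card + i + 1) * a := by exact_mod_cast h4
    have ha0 : (0 : ℚ) ≤ a := Nat.cast_nonneg a
    rw [div_mul_eq_mul_div, div_le_iff₀ hbq0]
    have h8 : (1 + ((Φ.card + i + 2 : ℕ) : ℚ) * ((a : ℚ) / b)) * b
        = b + (Φ.card + i + 2) * a := by
      push_cast
      field_simp
    rw [h8]
    nlinarith

/-- The fast phase. -/
theorem fast {a₀ b₀ Q R N : ℕ} {Φ : Finset ℕ} (hR : R = Φ.card + N + 1) (hQ1 : 1 ≤ Q) :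
    ∀ (j i a b : ℕ) (S : Finset ℕ) (u : ℚ), GSt a₀ b₀ Q R N Φ i a b S → i + j ≤ N →
      3 / 2 * ((Φ.card + i + 2 : ℕ) : ℚ) * ((a : ℚ) / b) ≤ u → u ^ 2 ^ j * Q ≤ 1 →
      Fin2 a₀ b₀ Q R N Φ := by
  intro j
  induction j with
  | zero =>
    intro i a b S u h hi hu hQ
    have ha0 : (0 : ℚ) < a := Nat.cast_pos.2 h.apos
    have hb0 : (0 : ℚ) < b := Nat.cast_pos.2 h.bpos
    have hQ0 : (0 : ℚ) < Q := Nat.cast_pos.2 hQ1
    have hρ : (0 : ℚ) < (a : ℚ) / b := div_pos ha0 hb0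
    have hm : (2 : ℚ) ≤ ((Φ.card + i + 2 : ℕ) : ℚ) := by
      push_cast
      have := Nat.cast_nonneg (α := ℚ) (Φ.card + i)
      push_cast at this
      linarith
    rw [pow_zero, pow_one] at hQ
    refine fin h (by omega) ?_
    have h1 : (a : ℚ) / b < u := by
      refine lt_of_lt_of_le ?_ hu
      nlinarith
    have h2 : (a : ℚ) / b * Q < 1 := lt_of_lt_of_le (mul_lt_mul_of_pos_right h1 hQ0) hQ
    rw [div_mul_eq_mul_div, div_lt_one hb0] at h2
    exact_mod_cast h2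
  | succ j ih =>
    intro i a b S u h hi hu hQ
    by_cases hq : a * Q < b
    · exact fin h (by omega) hq
    · obtain ⟨a', b', S', x, h', hx0, hrest, hx1, hx2⟩ := step h (by omega) hR hq
      refine ih (i + 1) a' b' S' (u ^ 2) h' (by omega) ?_ ?_
      · have ha0 : (0 : ℚ) < a := Nat.cast_pos.2 h.apos
        have hb0 : (0 : ℚ) < b := Nat.cast_pos.2 h.bpos
        have hρ : (0 : ℚ) < (a : ℚ) / b := div_pos ha0 hb0
        have hxq : (0 : ℚ) < x := Nat.cast_pos.2 hx0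
        have hm : (2 : ℚ) ≤ ((Φ.card + i + 2 : ℕ) : ℚ) := by
          push_cast
          have := Nat.cast_nonneg (α := ℚ) (Φ.card + i)
          push_cast at this
          linarith
        have hm1 : ((Φ.card + (i + 1) + 2 : ℕ) : ℚ) = ((Φ.card + i + 2 : ℕ) : ℚ) + 1 := by
          push_cast
          ring
        rw [hm1]
        generalize ((Φ.card + i + 2 : ℕ) : ℚ) = m at hm hu hx2 ⊢
        generalize (a : ℚ) / b = ρ at hρ hu hrest hx1 hx2 ⊢
        rw [hrest]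
        -- `ρ - 1 / x ≤ m ρ ^ 2`
        have h1 : 1 / (x : ℚ) ≤ ρ := by
          rw [div_le_iff₀ hxq]
          exact hx1.le
        have h2 : ρ - 1 / (x : ℚ) ≤ m * ρ ^ 2 := by
          have h3 : ρ - 1 / (x : ℚ) = (ρ * x - 1) * (1 / (x : ℚ)) := by
            field_simp
          rw [h3]
          calc (ρ * x - 1) * (1 / (x : ℚ)) ≤ (m * ρ) * ρ := by
                refine mul_le_mul (by linarith) h1 (by positivity) (by positivity)
            _ = m * ρ ^ 2 := by ring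
        have h4 : (3 / 2 * m * ρ) ^ 2 ≤ u ^ 2 := by
          refine pow_le_pow_left₀ (by positivity) hu 2
        refine le_trans ?_ h4
        calc 3 / 2 * (m + 1) * (ρ - 1 / (x : ℚ)) ≤ 3 / 2 * (m + 1) * (m * ρ ^ 2) := by
              refine mul_le_mul_of_nonneg_left h2 (by positivity)
          _ ≤ 3 / 2 * (3 / 2 * m) * (m * ρ ^ 2) := by
              refine mul_le_mul_of_nonneg_right ?_ (by positivity)
              linarith
          _ = (3 / 2 * m * ρ) ^ 2 := by ring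
      · rw [← pow_mul, mul_comm 2, ← pow_succ]
        exact hQ

theorem harm (A : ℕ) (hA : 1 ≤ A) : ∀ t : ℕ,
    (t : ℚ) / 2 ≤ ∑ j ∈ Finset.range ((2 ^ t - 1) * A), (1 : ℚ) / ((A + j : ℕ) : ℚ) := by
  intro t
  induction t with
  | zero => simp
  | succ t ih =>
    have h2t : 1 ≤ 2 ^ t := Nat.one_le_two_pow
    have h1 : (2 ^ (t + 1) - 1) * A = (2 ^ t - 1) * A + 2 ^ t * A := by
      rw [← Nat.add_mul, pow_succ]
      congr 1
      omega
    rw [h1, Finset.sum_range_add]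
    have h3 : (1 : ℚ) / 2 ≤ ∑ x ∈ Finset.range (2 ^ t * A),
        (1 : ℚ) / ((A + ((2 ^ t - 1) * A + x) : ℕ) : ℚ) := by
      have h4 : ∀ x ∈ Finset.range (2 ^ t * A), (1 : ℚ) / ((2 ^ (t + 1) * A : ℕ) : ℚ) ≤
          (1 : ℚ) / ((A + ((2 ^ t - 1) * A + x) : ℕ) : ℚ) := by
        intro x hx
        rw [Finset.mem_range] at hx
        refine one_div_le_one_div_of_le ?_ ?_
        · exact Nat.cast_pos.2 (by omega)
        · have h5 : (2 ^ t - 1) * A + A = 2 ^ t * A := by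
            rw [← Nat.succ_mul]
            congr 1
            omega
          have h6 : 2 ^ (t + 1) * A = 2 ^ t * A + 2 ^ t * A := by ring
          exact Nat.cast_le.2 (by omega)
      refine le_trans ?_ (Finset.sum_le_sum h4)
      rw [Finset.sum_const, Finset.card_range, nsmul_eq_mul]
      have hA0 : (A : ℚ) ≠ 0 := Nat.cast_ne_zero.2 (by omega)
      have h2 : (2 : ℚ) ^ t ≠ 0 := by positivity
      push_cast
      rw [pow_succ]
      refine le_of_eq ?_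
      field_simp
    push_cast at ih h3 ⊢
    linarith

/-- The slow phase. -/
theorem slow {a₀ b₀ Q R N k : ℕ} {Φ : Finset ℕ} (hR : R = Φ.card + N + 1) (hQ1 : 1 ≤ Q)
    (hQk : Q ≤ 2 ^ 2 ^ k) (hN : N = 64 * (Φ.card + 2) + k + 4) :
    ∀ (n i a b : ℕ) (S : Finset ℕ), i + n = 63 * (Φ.card + 2) → GSt a₀ b₀ Q R N Φ i a b S →
      (a : ℚ) / b + (∑ j ∈ Finset.range i, (1 : ℚ) / ((Φ.card + 2 + j : ℕ) : ℚ)) / 3 ≤ 1 →
      Fin2 a₀ b₀ Q R N Φ := by
  intro n
  induction n with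
  | zero =>
    intro i a b S hin h hs
    exfalso
    have ha0 : (0 : ℚ) < a := Nat.cast_pos.2 h.apos
    have hb0 : (0 : ℚ) < b := Nat.cast_pos.2 h.bpos
    have hρ : (0 : ℚ) < (a : ℚ) / b := div_pos ha0 hb0
    have h1 := harm (Φ.card + 2) (by omega) 6
    have h2 : (2 ^ 6 - 1) * (Φ.card + 2) = i := by
      norm_num
      omega
    rw [h2] at h1
    norm_num at h1
    norm_num at hs
    linarith
  | succ n ih =>
    intro i a b S hin h hs
    have hi : i < N := by omega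
    by_cases hq : a * Q < b
    · exact fin h hi.le hq
    by_cases hr : 2 * ((Φ.card + i + 2 : ℕ) : ℚ) * ((a : ℚ) / b) ≤ 1
    · refine fast hR hQ1 (k + 2) i a b S (3 / 4) h (by omega) (by linarith) ?_
      have h1 : (Q : ℚ) ≤ 2 ^ 2 ^ k := by exact_mod_cast hQk
      calc (3 / 4 : ℚ) ^ 2 ^ (k + 2) * Q ≤ (3 / 4 : ℚ) ^ 2 ^ (k + 2) * 2 ^ 2 ^ k :=
            mul_le_mul_of_nonneg_left h1 (by positivity)
        _ = ((3 / 4 : ℚ) ^ 4 * 2) ^ 2 ^ k := by
            rw [mul_pow, ← pow_mul]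
            congr 2
            ring
        _ ≤ 1 := pow_le_one₀ (by norm_num) (by norm_num)
    · obtain ⟨a', b', S', x, h', hx0, hrest, hx1, hx2⟩ := step h hi hR hq
      refine ih (i + 1) a' b' S' (by omega) h' ?_
      rw [Finset.sum_range_succ, hrest]
      have ha0 : (0 : ℚ) < a := Nat.cast_pos.2 h.apos
      have hb0 : (0 : ℚ) < b := Nat.cast_pos.2 h.bpos
      have hρ : (0 : ℚ) < (a : ℚ) / b := div_pos ha0 hb0
      have hxq : (0 : ℚ) < x := Nat.cast_pos.2 hx0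
      have hm1 : ((Φ.card + 2 + i : ℕ) : ℚ) = ((Φ.card + i + 2 : ℕ) : ℚ) := by
        push_cast
        ring
      have hm0 : (0 : ℚ) < ((Φ.card + i + 2 : ℕ) : ℚ) := Nat.cast_pos.2 (by omega)
      rw [hm1]
      generalize ((Φ.card + i + 2 : ℕ) : ℚ) = m at hm0 hr hx2 ⊢
      generalize (a : ℚ) / b = ρ at hρ hs hr hx1 hx2 hrest ⊢
      have h1 : (x : ℚ) ≤ 3 * m := by
        have h2 : ρ * x < ρ * (3 * m) := by
          nlinarith [not_le.1 hr]
        exact (lt_of_mul_lt_mul_left h2 hρ.le).le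
      have h3 : 1 / (3 * m) ≤ 1 / (x : ℚ) := one_div_le_one_div_of_le hxq h1
      have h4 : 1 / (3 * m) = (1 / m) / 3 := by
        field_simp
      linarith

end GRE2x

open GRE2x in
theorem t_GRE2 : S_GRE2 := by
  intro a b Q k N R Φ ha hab hQ hQk hN hR
  have hb : 1 ≤ b := by omega
  have hR1 : 1 ≤ R := by omega
  refine slow (k := k) hR hQ hQk hN (63 * (Φ.card + 2)) 0 a b ∅ (by omega) ⟨?_, ?_, ?_, ha, hb, ?_, ?_, ?_⟩ ?_
  · simp
  · exact Finset.disjoint_empty_left Φ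
  · intro x hx
    simp at hx
  · rw [pow_zero, mul_one]
    exact hab.le
  · calc b = b * 1 * 1 * 1 := by ring
      _ ≤ b * Q * R ^ N * (Q + R) := by
        refine Nat.mul_le_mul (Nat.mul_le_mul (Nat.mul_le_mul_left b hQ) ?_) ?_
        · exact Nat.one_le_pow _ _ hR1
        · omega
  · rw [Finset.sum_empty, zero_add]
  · have hb0 : (0 : ℚ) < b := Nat.cast_pos.2 hb
    have h1 : (a : ℚ) / b < 1 := by
      rw [div_lt_one hb0]
      exact_mod_cast hab
    simp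
    exact h1.le

end Pool.Agent.UFL
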