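import Mathlib
import Pool.Agent.UFL.St

/-! Module UFL_BRG (helper66): multisets and non-decreasing tuples. -/

set_option autoImplicit false

namespace Pool.Agent.UFL

open Finset

namespace BRG

/-- The non-decreasing tuple of a multiset. -/
noncomputable def tup (t : ℕ) (s : Multiset ℕ) : Fin t → ℕ :=
  fun i => (s.sort (· ≤ ·)).getD i 0

lemma ofFn_tup {t : ℕ} {s : Multiset ℕ} (h : Multiset.card s = t) :
    List.ofFn (tup t s) = s.sort (· ≤ ·) := by
  have hl : (s.sort (· ≤ ·)).length = t := by rw [Multiset.length_sort, h]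
  apply List.ext_getElem
  · rw [List.length_ofFn, hl]
  · intro n h1 h2
    rw [List.getElem_ofFn]
    simp only [tup]
    rw [List.getD_eq_getElem]

lemma ms_tup {t : ℕ} {s : Multiset ℕ} (h : Multiset.card s = t) : ms (tup t s) = s := by
  unfold ms
  rw [Fin.univ_val_map, ofFn_tup h, Multiset.sort_eq]

lemma mono_tup {t : ℕ} {s : Multiset ℕ} (h : Multiset.card s = t) : Monotone (tup t s) := by
  have hp : (List.ofFn (tup t s)).Pairwise (· ≤ ·) := by
    rw [ofFn_tup h]; exact Multiset.pairwise_sort s (· ≤ ·)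
  intro i j hij
  rcases eq_or_lt_of_le hij with rfl | hlt
  · exact le_rfl
  · have := List.pairwise_iff_getElem.1 hp i.1 j.1 (by rw [List.length_ofFn]; exact i.2)
      (by rw [List.length_ofFn]; exact j.2) hlt
    simpa [List.getElem_ofFn] using this

end BRG

theorem t_BRG : S_BRG := by
  classical
  intro q t K A F hfin hF hK
  have hinj : Set.InjOn (BRG.tup t) (F : Set (Multiset ℕ)) := by
    intro s hs s' hs' h
    have h1 := BRG.ms_tup (hF s hs).1
    have h2 := BRG.ms_tup (hF s' hs').1
    rw [← h1, ← h2, h]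
  have hsub : ((F.image (BRG.tup t) : Finset (Fin t → ℕ)) : Set (Fin t → ℕ)) ⊆
      {x ∈ Sol q t | Monotone x ∧ A ≤ ms x} := by
    intro x hx
    rw [Finset.mem_coe, Finset.mem_image] at hx
    obtain ⟨s, hs, rfl⟩ := hx
    obtain ⟨hc, hpos, hrs, hA⟩ := hF s hs
    have hms := BRG.ms_tup hc
    refine ⟨⟨?_, ?_⟩, BRG.mono_tup hc, by rw [hms]; exact hA⟩
    · intro i
      have h1 : BRG.tup t s i ∈ ms (BRG.tup t s) :=
        Multiset.mem_map_of_mem _ (Finset.mem_univ_val i)
      rw [hms] at h1
      exact hpos _ h1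
    · rw [← hrs]
      conv_rhs => rw [← hms]
      unfold rs ms
      rw [Multiset.map_map]
      rfl
  have hfin' : {x ∈ Sol q t | Monotone x ∧ A ≤ ms x}.Finite := hfin.subset fun x hx => hx.1
  calc K ≤ F.card := hK
    _ = (F.image (BRG.tup t)).card := (Finset.card_image_of_injOn hinj).symm
    _ = ((F.image (BRG.tup t) : Finset (Fin t → ℕ)) : Set (Fin t → ℕ)).ncard :=
        (Set.ncard_coe_finset _).symm
    _ ≤ _ := Set.ncard_le_ncard hsub hfin'

end Pool.Agent.UFL
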