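import Mathlib
import Pool.Agent.UFL.St4
import Pool.Agent.UFL.MBRG

/-! Module UFL_INJ (helper42): injections between the sets of solutions. -/

set_option autoImplicit false

namespace Pool.Agent.UFL

open Finset

namespace INJ

lemma mono_eq {t : ℕ} {x x' : Fin t → ℕ} (hx : Monotone x) (hx' : Monotone x')
    (h : ms x = ms x') : x = x' := by
  have h1 : (List.ofFn x).Perm (List.ofFn x') := by
    rw [← Multiset.coe_eq_coe, ← Fin.univ_val_map, ← Fin.univ_val_map]
    exact h
  have hp : (List.ofFn x).Pairwise (· ≤ ·) := by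
    rw [List.pairwise_ofFn]
    intro i j hij
    exact hx hij.le
  have hp' : (List.ofFn x').Pairwise (· ≤ ·) := by
    rw [List.pairwise_ofFn]
    intro i j hij
    exact hx' hij.le
  exact List.ofFn_injective (h1.eq_of_pairwise (fun a b _ _ hab hba => le_antisymm hab hba) hp hp')

lemma ms_append {t u : ℕ} (x : Fin t → ℕ) (y : Fin u → ℕ) :
    ms (Fin.append x y) = ms x + ms y := by
  unfold ms
  rw [Fin.univ_val_map, Fin.univ_val_map, Fin.univ_val_map, List.ofFn_fin_append]
  rfl

lemma rs_ms {t : ℕ} (x : Fin t → ℕ) : rs (ms x) = ∑ i, (1 : ℚ) / (x i : ℚ) := by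
  unfold rs ms
  rw [Multiset.map_map]
  rfl

/-- The image of a solution. -/
def ap {t u : ℕ} (m : ℕ) (y : Fin u → ℕ) (x : Fin t → ℕ) : Fin (t + u) → ℕ :=
  Fin.append (fun i => m * x i) y

lemma ap_mem {q q' r : ℚ} {m t u : ℕ} (hm : 1 ≤ m) (hq : q' = q / m + r) {y : Fin u → ℕ}
    (hy : y ∈ Sol r u) {x : Fin t → ℕ} (hx : x ∈ Sol q t) : ap m y x ∈ Sol q' (t + u) := by
  refine ⟨?_, ?_⟩
  · intro i
    refine Fin.addCases (fun i => ?_) (fun i => ?_) i
    · simp only [ap, Fin.append_left]
      exact Nat.mul_pos hm (hx.1 i)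
    · simp only [ap, Fin.append_right]
      exact hy.1 i
  · rw [Fin.sum_univ_add]
    simp only [ap, Fin.append_left, Fin.append_right]
    rw [hy.2, hq, ← hx.2, Finset.sum_div]
    congr 1
    refine Finset.sum_congr rfl fun i _ => ?_
    push_cast
    rw [div_div, mul_comm]

lemma mul_inj {m t : ℕ} (hm : 1 ≤ m) {x x' : Fin t → ℕ}
    (h : (fun i => m * x i) = fun i => m * x' i) : x = x' := by
  funext i
  exact Nat.eq_of_mul_eq_mul_left hm (congrFun h i)

end INJ

theorem t_INJ : S_INJ := by
  classical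
  intro q q' r m t u hm hq hy hfin
  obtain ⟨y, hy⟩ := hy
  refine ⟨?_, ?_⟩
  · refine Set.ncard_le_ncard_of_injOn (INJ.ap m y) (fun x hx => INJ.ap_mem hm hq hy hx) ?_ hfin
    intro x _ x' _ h
    apply INJ.mul_inj hm
    funext i
    have := congrFun h (Fin.castAdd u i)
    simpa only [INJ.ap, Fin.append_left] using this
  · have hcard : ∀ x : Fin t → ℕ, Multiset.card (ms (INJ.ap m y x)) = t + u := by
      intro x
      unfold ms
      rw [Multiset.card_map, Finset.card_val, Finset.card_univ, Fintype.card_fin]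
    refine Set.ncard_le_ncard_of_injOn (fun x => BRG.tup (t + u) (ms (INJ.ap m y x))) ?_ ?_
      (hfin.subset fun x hx => hx.1)
    · intro x hx
      have hS := INJ.ap_mem hm hq hy hx.1
      have hms := BRG.ms_tup (hcard x)
      refine ⟨⟨?_, ?_⟩, BRG.mono_tup (hcard x)⟩
      · intro i
        have h1 : BRG.tup (t + u) (ms (INJ.ap m y x)) i ∈ ms (BRG.tup (t + u) (ms (INJ.ap m y x))) :=
          Multiset.mem_map_of_mem _ (Finset.mem_univ_val i)
        rw [hms] at h1
        obtain ⟨j, _, hj⟩ := Multiset.mem_map.1 h1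
        rw [← hj]
        exact hS.1 j
      · rw [← INJ.rs_ms, hms, INJ.rs_ms]
        exact hS.2
    · intro x hx x' hx' h
      have h1 := BRG.ms_tup (hcard x)
      have h2 := BRG.ms_tup (hcard x')
      simp only at h
      rw [h, h2] at h1
      unfold INJ.ap at h1
      rw [INJ.ms_append, INJ.ms_append] at h1
      have h3 := add_right_cancel h1
      apply INJ.mul_inj hm
      refine (INJ.mono_eq ?_ ?_ h3).symm
      · intro i j hij
        exact Nat.mul_le_mul_left m (hx'.2 hij)
      · intro i j hij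
        exact Nat.mul_le_mul_left m (hx.2 hij)

end Pool.Agent.UFL
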