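import Pool.Agent.UFL.St

/-!
# MP_dcc108_nt, module LS: a large sieve inequality by duality
-/

set_option autoImplicit false

namespace Pool.Agent.UFL

open Finset

namespace LSx

/-- The duality principle with almost orthogonal vectors. -/
theorem dual {ι : Type} (B : Finset ι) (X : ℕ) (a : ℕ → ℝ) (ψ : ι → ℕ → ℂ)
    (T : ι → ℂ) (E C : ℝ)
    (hT : ∀ f ∈ B, T f = ∑ m ∈ range X, (a m : ℂ) * ψ f m)
    (hE : ∑ m ∈ range X, a m ^ 2 ≤ E) (hC : 0 ≤ C)
    (hdiag : ∀ f ∈ B, ‖∑ m ∈ range X, ψ f m * (starRingEnd ℂ) (ψ f m)‖ ≤ X)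
    (hoff : ∀ f ∈ B, ∀ f' ∈ B, f ≠ f' →
      ‖∑ m ∈ range X, ψ f m * (starRingEnd ℂ) (ψ f' m)‖ ≤ C) :
    ∑ f ∈ B, ‖T f‖ ^ 2 ≤ E * (X + C * B.card) := by
  classical
  set S : ℝ := ∑ f ∈ B, ‖T f‖ ^ 2 with hS
  have hS0 : 0 ≤ S := Finset.sum_nonneg fun f _ => sq_nonneg _
  have hE0 : 0 ≤ E := le_trans (Finset.sum_nonneg fun m _ => sq_nonneg (a m)) hE
  have hK0 : 0 ≤ (X : ℝ) + C * B.card := by positivity
  set D : ℕ → ℂ := fun m => ∑ f ∈ B, (starRingEnd ℂ) (T f) * ψ f m with hD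
  -- (1)
  have h1 : (S : ℂ) = ∑ m ∈ range X, (a m : ℂ) * D m := by
    have e1 : (S : ℂ) = ∑ f ∈ B, (starRingEnd ℂ) (T f) * T f := by
      rw [hS]
      push_cast
      refine Finset.sum_congr rfl fun f _ => ?_
      rw [Complex.conj_mul']
    rw [e1]
    have e2 : ∀ f ∈ B, (starRingEnd ℂ) (T f) * T f =
        ∑ m ∈ range X, (a m : ℂ) * ((starRingEnd ℂ) (T f) * ψ f m) := by
      intro f hf
      have g : ∀ w : ℂ, w * T f = ∑ m ∈ range X, (a m : ℂ) * (w * ψ f m) := by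
        intro w
        rw [hT f hf, Finset.mul_sum]
        exact Finset.sum_congr rfl fun m _ => by ring
      exact g _
    rw [Finset.sum_congr rfl e2, Finset.sum_comm]
    refine Finset.sum_congr rfl fun m _ => ?_
    rw [hD, Finset.mul_sum]
  -- (2)
  have h2 : S ^ 2 ≤ (∑ m ∈ range X, a m ^ 2) * ∑ m ∈ range X, ‖D m‖ ^ 2 := by
    have e1 : S ≤ ∑ m ∈ range X, |a m| * ‖D m‖ := by
      calc S = ‖(S : ℂ)‖ := by rw [Complex.norm_real, Real.norm_of_nonneg hS0]
        _ ≤ ∑ m ∈ range X, ‖(a m : ℂ) * D m‖ := by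
          rw [h1]
          exact norm_sum_le _ _
        _ = ∑ m ∈ range X, |a m| * ‖D m‖ := by
          refine Finset.sum_congr rfl fun m _ => ?_
          rw [norm_mul, Complex.norm_real, Real.norm_eq_abs]
    calc S ^ 2 ≤ (∑ m ∈ range X, |a m| * ‖D m‖) ^ 2 := pow_le_pow_left₀ hS0 e1 2
      _ ≤ (∑ m ∈ range X, |a m| ^ 2) * ∑ m ∈ range X, ‖D m‖ ^ 2 :=
        Finset.sum_mul_sq_le_sq_mul_sq _ _ _
      _ = (∑ m ∈ range X, a m ^ 2) * ∑ m ∈ range X, ‖D m‖ ^ 2 := by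
        simp only [sq_abs]
  -- (3)
  have h3 : ∑ m ∈ range X, ‖D m‖ ^ 2 ≤ (X + C * B.card) * S := by
    have e1 : ((∑ m ∈ range X, ‖D m‖ ^ 2 : ℝ) : ℂ) =
        ∑ f ∈ B, ∑ f' ∈ B, ((starRingEnd ℂ) (T f) * T f') *
          ∑ m ∈ range X, ψ f m * (starRingEnd ℂ) (ψ f' m) := by
      push_cast
      have e2 : ∀ m ∈ range X, ((‖D m‖ : ℂ)) ^ 2 =
          ∑ f ∈ B, ∑ f' ∈ B, ((starRingEnd ℂ) (T f) * T f') *
            (ψ f m * (starRingEnd ℂ) (ψ f' m)) := by
        intro m _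
        rw [← Complex.mul_conj', hD, map_sum, Finset.sum_mul_sum]
        refine Finset.sum_congr rfl fun f _ => Finset.sum_congr rfl fun f' _ => ?_
        rw [map_mul, Complex.conj_conj]
        ring
      rw [Finset.sum_congr rfl e2, Finset.sum_comm]
      refine Finset.sum_congr rfl fun f _ => ?_
      rw [Finset.sum_comm]
      refine Finset.sum_congr rfl fun f' _ => ?_
      rw [Finset.mul_sum]
    have e3 : ∑ m ∈ range X, ‖D m‖ ^ 2 = ‖((∑ m ∈ range X, ‖D m‖ ^ 2 : ℝ) : ℂ)‖ := by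
      rw [Complex.norm_real, Real.norm_of_nonneg (Finset.sum_nonneg fun m _ => sq_nonneg _)]
    rw [e3, e1]
    calc ‖∑ f ∈ B, ∑ f' ∈ B, ((starRingEnd ℂ) (T f) * T f') *
          ∑ m ∈ range X, ψ f m * (starRingEnd ℂ) (ψ f' m)‖
        ≤ ∑ f ∈ B, ∑ f' ∈ B, ‖((starRingEnd ℂ) (T f) * T f') *
          ∑ m ∈ range X, ψ f m * (starRingEnd ℂ) (ψ f' m)‖ :=
          (norm_sum_le _ _).trans (Finset.sum_le_sum fun f _ => norm_sum_le _ _)
      _ ≤ ∑ f ∈ B, ∑ f' ∈ B, (‖T f‖ * ‖T f'‖) * ((if f = f' then (X : ℝ) else 0) + C) := by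
          refine Finset.sum_le_sum fun f hf => Finset.sum_le_sum fun f' hf' => ?_
          rw [norm_mul, norm_mul, RCLike.norm_conj]
          refine mul_le_mul_of_nonneg_left ?_ (by positivity)
          split_ifs with h
          · subst h
            linarith [hdiag f hf]
          · linarith [hoff f hf f' hf' h]
      _ = X * S + C * (∑ f ∈ B, ‖T f‖) ^ 2 := by
          have g1 : ∀ f ∈ B, ∑ f' ∈ B, (‖T f‖ * ‖T f'‖) * ((if f = f' then (X : ℝ) else 0) + C) =
              X * ‖T f‖ ^ 2 + C * (‖T f‖ * ∑ f' ∈ B, ‖T f'‖) := by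
            intro f hf
            have g2 : ∀ f' ∈ B, (‖T f‖ * ‖T f'‖) * ((if f = f' then (X : ℝ) else 0) + C) =
                (if f = f' then (X : ℝ) * (‖T f‖ * ‖T f'‖) else 0) +
                  C * (‖T f‖ * ‖T f'‖) := by
              intro f' _
              split_ifs <;> ring
            rw [Finset.sum_congr rfl g2, Finset.sum_add_distrib, Finset.sum_ite_eq, if_pos hf,
              ← Finset.mul_sum, ← Finset.mul_sum]
            ring
          rw [Finset.sum_congr rfl g1, Finset.sum_add_distrib, ← Finset.mul_sum,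
            ← Finset.mul_sum, ← Finset.sum_mul]
          ring
      _ ≤ X * S + C * (B.card * S) := by
          have g1 : (∑ f ∈ B, ‖T f‖) ^ 2 ≤ B.card * S := sq_sum_le_card_mul_sum_sq
          have := mul_le_mul_of_nonneg_left g1 hC
          linarith
      _ = (X + C * B.card) * S := by ring
  -- (4)
  rcases hS0.eq_or_lt with h | h
  · rw [← h]
    exact mul_nonneg hE0 hK0
  · have h4 : S * S ≤ (E * (X + C * B.card)) * S := by
      have hnn : 0 ≤ ∑ m ∈ range X, ‖D m‖ ^ 2 := Finset.sum_nonneg fun m _ => sq_nonneg _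
      calc S * S = S ^ 2 := (sq S).symm
        _ ≤ (∑ m ∈ range X, a m ^ 2) * ∑ m ∈ range X, ‖D m‖ ^ 2 := h2
        _ ≤ E * ((X + C * B.card) * S) :=
          mul_le_mul hE h3 hnn hE0
        _ = (E * (X + C * B.card)) * S := by ring
    exact le_of_mul_le_mul_right h4 h

/-- The number of tuples with product `m`. -/
def am (P : Finset ℕ) (j m : ℕ) : ℕ :=
  ((Fintype.piFinset fun _ : Fin j => P).filter fun z => ∏ i, z i = m).card

theorem sum_am_sq (P : Finset ℕ) (j X : ℕ)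
    (hX : ∀ z ∈ Fintype.piFinset (fun _ : Fin j => P), ∏ i, z i < X) :
    ∑ m ∈ range X, am P j m ^ 2 =
      (((Fintype.piFinset fun _ : Fin j => P) ×ˢ (Fintype.piFinset fun _ : Fin j => P)).filter
      fun z => ∏ i, z.1 i = ∏ i, z.2 i).card := by
  classical
  set Ω := Fintype.piFinset fun _ : Fin j => P with hΩ
  have hmap : ∀ z ∈ (Ω ×ˢ Ω).filter (fun z => ∏ i, z.1 i = ∏ i, z.2 i),
      ∏ i, z.1 i ∈ range X := by
    intro z hz
    rw [Finset.mem_filter, Finset.mem_product] at hz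
    exact Finset.mem_range.mpr (hX z.1 hz.1.1)
  rw [Finset.card_eq_sum_card_fiberwise hmap]
  refine Finset.sum_congr rfl fun m _ => ?_
  have he : ((Ω ×ˢ Ω).filter (fun z => ∏ i, z.1 i = ∏ i, z.2 i)).filter
      (fun z => ∏ i, z.1 i = m) =
      (Ω.filter fun z => ∏ i, z i = m) ×ˢ (Ω.filter fun z => ∏ i, z i = m) := by
    ext z
    simp only [Finset.mem_filter, Finset.mem_product]
    constructor
    · rintro ⟨⟨⟨h1, h2⟩, h3⟩, h4⟩
      exact ⟨⟨h1, h4⟩, h2, h3 ▸ h4⟩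
    · rintro ⟨⟨h1, h2⟩, h3, h4⟩
      exact ⟨⟨⟨h1, h3⟩, h2.trans h4.symm⟩, h2⟩
  rw [he, Finset.card_product, sq]
  rfl

theorem pow_eq (P : Finset ℕ) (j X : ℕ)
    (hX : ∀ z ∈ Fintype.piFinset (fun _ : Fin j => P), ∏ i, z i < X) (f : ℕ)
    (ψ : DirichletCharacter ℂ f) :
    (∑ q ∈ P, ψ (q : ZMod f)) ^ j =
      ∑ m ∈ range X, ((am P j m : ℝ) : ℂ) * ψ (m : ZMod f) := by
  classical
  have h1 : (∑ q ∈ P, ψ (q : ZMod f)) ^ j =
      ∑ z ∈ Fintype.piFinset (fun _ : Fin j => P), ψ ((∏ i, z i : ℕ) : ZMod f) := by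
    rw [← Fin.prod_const j, Finset.prod_univ_sum]
    refine Finset.sum_congr rfl fun z _ => ?_
    rw [Nat.cast_prod, map_prod]
  rw [h1, ← Finset.sum_fiberwise_of_maps_to (g := fun z : Fin j → ℕ => ∏ i, z i)
    (t := range X) (fun z hz => Finset.mem_range.mpr (hX z hz))]
  refine Finset.sum_congr rfl fun m _ => ?_
  have h2 : ∀ z ∈ (Fintype.piFinset (fun _ : Fin j => P)).filter (fun z => ∏ i, z i = m),
      ψ ((∏ i, z i : ℕ) : ZMod f) = ψ (m : ZMod f) := by
    intro z hz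
    rw [(Finset.mem_filter.mp hz).2]
  rw [Finset.sum_congr rfl h2, Finset.sum_const, nsmul_eq_mul]
  rw [am]
  push_cast
  rfl

end LSx

/-- LS: the large sieve. -/
theorem t_LS (hE : S_EN) (hO : S_ORT) : S_LS := by
  classical
  intro l j F B hj hB
  rcases Nat.eq_zero_or_pos (pool l).card with hP | hP
  · have hB0 : B = ∅ := by
      rw [Finset.eq_empty_iff_forall_notMem]
      intro f hf
      obtain ⟨⟨ψ, -, h⟩, -⟩ := hB f hf
      rw [Finset.card_eq_zero] at hP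
      rw [hP] at h
      simp at h
    rw [hB0]
    simp
  -- the characters
  have hch : ∀ f ∈ B, ∃ ψ : DirichletCharacter ℂ f, ψ.IsPrimitive ∧
      ((pool l).card : ℝ) < 4 * ‖∑ q ∈ pool l, ψ (q : ZMod f)‖ := fun f hf => (hB f hf).1
  have hch' : ∀ f : ℕ, ∃ ψ : DirichletCharacter ℂ f, f ∈ B → (ψ.IsPrimitive ∧
      ((pool l).card : ℝ) < 4 * ‖∑ q ∈ pool l, ψ (q : ZMod f)‖) := by
    intro f
    by_cases hf : f ∈ B
    · obtain ⟨ψ, h⟩ := hch f hf
      exact ⟨ψ, fun _ => h⟩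
    · exact ⟨1, fun h => absurd h hf⟩
  choose ψ hψ using hch'
  set X : ℕ := 2 ^ (20 * l * j) with hXdef
  have hX : ∀ z ∈ Fintype.piFinset (fun _ : Fin j => pool l), ∏ i, z i < X := by
    intro z hz
    rw [Fintype.mem_piFinset] at hz
    have h1 : ∀ i, z i ≤ 2 ^ (20 * l) - 1 := by
      intro i
      have := hz i
      rw [pool, Finset.mem_filter, Finset.mem_range] at this
      omega
    calc ∏ i, z i ≤ ∏ _i : Fin j, (2 ^ (20 * l) - 1) :=
          Finset.prod_le_prod' fun i _ => h1 i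
      _ = (2 ^ (20 * l) - 1) ^ j := by rw [Finset.prod_const, Finset.card_univ, Fintype.card_fin]
      _ < (2 ^ (20 * l)) ^ j :=
          Nat.pow_lt_pow_left (Nat.sub_lt (by positivity) one_pos) (by omega)
      _ = X := by rw [hXdef, ← pow_mul]
  have hprime : ∀ p ∈ pool l, p.Prime := fun p hp => (Finset.mem_filter.mp hp).2
  have hen := hE (pool l) hprime j
  rw [← LSx.sum_am_sq (pool l) j X hX] at hen
  have hmain := LSx.dual B X (fun m => (LSx.am (pool l) j m : ℝ))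
    (fun f m => ψ f (m : ZMod f)) (fun f => (∑ q ∈ pool l, ψ f (q : ZMod f)) ^ j)
    ((j.factorial : ℝ) * ((pool l).card : ℝ) ^ j) ((F : ℝ) ^ 2)
    (fun f _ => LSx.pow_eq (pool l) j X hX f (ψ f))
    (by exact_mod_cast hen) (by positivity)
    (fun f _ => by
      refine (norm_sum_le _ _).trans ?_
      calc ∑ m ∈ range X, ‖ψ f (m : ZMod f) * (starRingEnd ℂ) (ψ f (m : ZMod f))‖
          ≤ ∑ _m ∈ range X, (1 : ℝ) := by
            refine Finset.sum_le_sum fun m _ => ?_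
            rw [norm_mul, RCLike.norm_conj]
            have := DirichletCharacter.norm_le_one (ψ f) (m : ZMod f)
            exact mul_le_one₀ this (norm_nonneg _) this
        _ = X := by simp)
    (fun f hf f' hf' hne => by
      obtain ⟨-, hf2, hfF⟩ := hB f hf
      obtain ⟨-, hf2', hfF'⟩ := hB f' hf'
      refine (hO f f' (ψ f) (ψ f') X (by omega) (by omega) hne (hψ f hf).1 (hψ f' hf').1).trans ?_
      have h1 : (f : ℝ) ≤ F := by exact_mod_cast hfF
      have h2 : (f' : ℝ) ≤ F := by exact_mod_cast hfF'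
      rw [sq]
      exact mul_le_mul h1 h2 (by positivity) (by positivity))
  -- lower bound
  have hlow : ∀ f ∈ B, (((pool l).card : ℝ) / 4) ^ (2 * j) ≤
      ‖(∑ q ∈ pool l, ψ f (q : ZMod f)) ^ j‖ ^ 2 := by
    intro f hf
    have h1 := (hψ f hf).2
    have h2 : ((pool l).card : ℝ) / 4 ≤ ‖∑ q ∈ pool l, ψ f (q : ZMod f)‖ := by linarith
    rw [norm_pow, ← pow_mul, mul_comm 2 j]
    exact pow_le_pow_left₀ (by positivity) h2 _
  have hsum : (B.card : ℝ) * (((pool l).card : ℝ) / 4) ^ (2 * j) ≤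
      ∑ f ∈ B, ‖(∑ q ∈ pool l, ψ f (q : ZMod f)) ^ j‖ ^ 2 := by
    rw [← nsmul_eq_mul]
    exact Finset.card_nsmul_le_sum _ _ _ hlow
  have hfin := hsum.trans hmain
  have hPpos : (0 : ℝ) < ((pool l).card : ℝ) ^ j := by positivity
  have h16 : (0 : ℝ) < 16 ^ j := by positivity
  have hexp : (((pool l).card : ℝ) / 4) ^ (2 * j) * 16 ^ j =
      ((pool l).card : ℝ) ^ j * ((pool l).card : ℝ) ^ j := by
    rw [div_pow, pow_mul (4 : ℝ) 2 j, two_mul, pow_add]
    norm_num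
  have hr : (B.card : ℝ) * ((pool l).card : ℝ) ^ j ≤
      16 ^ j * j.factorial * ((X : ℝ) + (F : ℝ) ^ 2 * B.card) := by
    have h5 := mul_le_mul_of_nonneg_right hfin h16.le
    rw [mul_assoc, hexp] at h5
    have h6 : ((B.card : ℝ) * ((pool l).card : ℝ) ^ j) * ((pool l).card : ℝ) ^ j ≤
        (16 ^ j * j.factorial * ((X : ℝ) + (F : ℝ) ^ 2 * B.card)) * ((pool l).card : ℝ) ^ j := by
      calc ((B.card : ℝ) * ((pool l).card : ℝ) ^ j) * ((pool l).card : ℝ) ^ j
          = (B.card : ℝ) * (((pool l).card : ℝ) ^ j * ((pool l).card : ℝ) ^ j) := by ring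
        _ ≤ _ := h5
        _ = (16 ^ j * j.factorial * ((X : ℝ) + (F : ℝ) ^ 2 * B.card)) *
            ((pool l).card : ℝ) ^ j := by ring
    exact le_of_mul_le_mul_right h6 hPpos
  exact_mod_cast hr

end Pool.Agent.UFL
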