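import Mathlib
import Pool.Agent.UFL.St2

set_option autoImplicit false

/-!
# Module MAIN1D: assembly of the version with distinct denominators
-/

namespace Pool.Agent.UFL

open Finset

theorem main1d_pow (l : ℕ) (hl : 21 ≤ l) : 40000 * l ≤ 2 ^ (l - 1) := by
  induction l, hl using Nat.le_induction with
  | base => norm_num
  | succ n hn ih =>
    have h1 : n + 1 - 1 = (n - 1) + 1 := by omega
    rw [h1, pow_succ]
    omega

theorem main1d_pow2 (l : ℕ) (hl : 21 ≤ l) : 66 * l ^ 2 + 132 * l + 1 ≤ 2 ^ l := by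
  induction l, hl using Nat.le_induction with
  | base => norm_num
  | succ n hn ih =>
    rw [pow_succ 2 n]
    nlinarith

theorem main1d_pow3 (l : ℕ) (hl : 21 ≤ l) : 200 * l ≤ 2 ^ l := by
  induction l, hl using Nat.le_induction with
  | base => norm_num
  | succ n hn ih =>
    rw [pow_succ 2 n]
    omega

/-- MAIN1D. -/
theorem t_MAIN1D (hE : S_ENG2) (hD : S_DIG2) (hG : S_GRE2) (hS : S_SPL2) (hM : S_MUL2) :
    S_MAIN1D := by
  obtain ⟨l₀, hl₀⟩ := hE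
  refine ⟨max l₀ 21, ?_⟩
  intro l hl a b Φ ha hab hb hΦ1 hΦ2
  have hl21 : 21 ≤ l := le_trans (le_max_right _ _) hl
  obtain ⟨Q, hQ1, hQ2, hQ⟩ := hl₀ l (le_trans (le_max_left _ _) hl)
  have hpow := main1d_pow l hl21
  have hpow2 := main1d_pow2 l hl21
  have hpow3 := main1d_pow3 l hl21
  have hlw : 2 ^ l = 2 * 2 ^ (l - 1) := by
    have h1 : l = (l - 1) + 1 := by omega
    conv_lhs => rw [h1]
    rw [pow_succ]
    ring
  -- notation
  obtain ⟨w, hw⟩ : ∃ w : ℕ, w = 2 ^ l := ⟨_, rfl⟩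
  have hw1 : 80000 * l ≤ w := by omega
  have hwd : w = 2 ^ (l - 5) * 32 := by
    rw [hw]
    have h1 : l = (l - 5) + 5 := by omega
    conv_lhs => rw [h1]
    rw [pow_add]
    norm_num
  obtain ⟨d, hd⟩ : ∃ d : ℕ, d = 2 ^ (l - 5) := ⟨_, rfl⟩
  obtain ⟨e, he⟩ : ∃ e : ℕ, e = 32 * (40 * l + 4) := ⟨_, rfl⟩
  obtain ⟨κ, hκ⟩ : ∃ κ : ℕ, κ = 2 ^ 2 ^ (l - 1) := ⟨_, rfl⟩
  have hκ1 : 40000 * l ≤ κ := by
    rw [hκ]
    exact hpow.trans Nat.lt_two_pow_self.le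
  have hde : d * e = w * (40 * l + 4) := by
    rw [hwd, ← hd, he]
    ring
  rw [← hw] at hQ1 hQ2 hb hΦ2 hpow2 hpow3
  have hQ0 : 1 ≤ Q := by omega
  have hwQ : w < Q := lt_trans Nat.lt_two_pow_self hQ1
  have hdig := hD Q d κ hQ0 (by rw [hd, hκ]; exact hQ) e
  obtain ⟨P, hP⟩ : ∃ P : ℕ, P = 2 ^ (d * e) := ⟨_, rfl⟩
  have hP1 : 1 ≤ P := by rw [hP]; exact Nat.one_le_two_pow
  -- greedy
  have hQk : Q ≤ 2 ^ 2 ^ (2 * l) := by
    refine hQ2.trans (Nat.pow_le_pow_right (by norm_num) ?_)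
    have h1 : 2 ^ (2 * l) = w * w := by rw [two_mul, pow_add, hw]
    rw [h1]
    exact Nat.mul_le_mul_right w (by omega)
  obtain ⟨N, hN⟩ : ∃ N : ℕ, N = 64 * (Φ.card + 2) + 2 * l + 4 := ⟨_, rfl⟩
  obtain ⟨R, hR⟩ : ∃ R : ℕ, R = Φ.card + N + 1 := ⟨_, rfl⟩
  obtain ⟨S₀, a', b', hs1, hs2, hs3, ha', haQ, hb', hsum⟩ :=
    hG a b Q (2 * l) N R Φ ha hab hQ0 hQk hN hR
  have hb'0 : 0 < b' := by omega
  have hN1 : N ≤ 66 * l + 132 := by omega
  have hR1 : R ≤ 2 ^ l := by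
    rw [← hw]
    omega
  have hRQ : R ≤ Q := by
    rw [← hw] at hR1
    omega
  -- `b' ≤ 2 ^ (2 w) Q ^ 2`
  have hRN : 2 * R ^ N ≤ 2 ^ w := by
    have h1 : R ^ N ≤ 2 ^ (l * (66 * l + 132)) := by
      calc R ^ N ≤ (2 ^ l) ^ N := Nat.pow_le_pow_left hR1 N
        _ = 2 ^ (l * N) := (pow_mul 2 l N).symm
        _ ≤ 2 ^ (l * (66 * l + 132)) :=
          Nat.pow_le_pow_right (by norm_num) (Nat.mul_le_mul_left l hN1)
    calc 2 * R ^ N ≤ 2 * 2 ^ (l * (66 * l + 132)) := Nat.mul_le_mul_left 2 h1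
      _ = 2 ^ (l * (66 * l + 132) + 1) := by rw [pow_succ]; ring
      _ ≤ 2 ^ w := by
        apply Nat.pow_le_pow_right (by norm_num)
        have h2 : l * (66 * l + 132) + 1 = 66 * l ^ 2 + 132 * l + 1 := by ring
        rw [h2]
        exact hpow2
  have hb'2 : b' ≤ 2 ^ (2 * w) * Q ^ 2 := by
    refine hb'.trans ?_
    calc b * Q * R ^ N * (Q + R) ≤ 2 ^ w * Q * R ^ N * (2 * Q) := by
          apply Nat.mul_le_mul
          · exact Nat.mul_le_mul_right _ (Nat.mul_le_mul_right _ hb)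
          · omega
      _ = 2 ^ w * (2 * R ^ N) * Q ^ 2 := by ring
      _ ≤ 2 ^ w * 2 ^ w * Q ^ 2 :=
          Nat.mul_le_mul_right _ (Nat.mul_le_mul_left _ hRN)
      _ = 2 ^ (2 * w) * Q ^ 2 := by rw [two_mul, pow_add]
  have hw68 : 80000 ≤ w := by omega
  have hb'P : b' ≤ P := by
    refine hb'2.trans ?_
    have h1 : 2 ^ (2 * w) * Q ^ 2 ≤ 2 ^ (2 * w + 2 * (20 * l * w)) := by
      rw [pow_add, Nat.mul_comm 2 (20 * l * w), pow_mul 2 (20 * l * w) 2]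
      exact Nat.mul_le_mul_left _ (Nat.pow_le_pow_left hQ2 2)
    refine h1.trans ?_
    rw [hP, hde]
    apply Nat.pow_le_pow_right (by norm_num)
    nlinarith
  -- the number `x`
  obtain ⟨x, hx⟩ : ∃ x : ℕ, x = a' * P * Q / b' := ⟨_, rfl⟩
  obtain ⟨r, hr⟩ : ∃ r : ℕ, r = a' * P * Q % b' := ⟨_, rfl⟩
  have hxr : a' * P * Q = b' * x + r := by
    rw [hx, hr]
    exact (Nat.div_add_mod _ _).symm
  have hrb : r < b' := by rw [hr]; exact Nat.mod_lt _ hb'0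
  have hxP : x < P := by
    rw [hx, Nat.div_lt_iff_lt_mul hb'0]
    calc a' * P * Q = P * (a' * Q) := by ring
      _ < P * b' := Nat.mul_lt_mul_of_pos_left haQ (by omega)
  have hx2 : 2 ^ w + 1 ≤ x := by
    rw [hx, Nat.le_div_iff_mul_le hb'0]
    have h1 : (2 ^ w + 1) * b' ≤ 2 ^ (w + 1) * (2 ^ (2 * w) * Q ^ 2) := by
      apply Nat.mul_le_mul
      · rw [pow_succ]
        have := Nat.one_le_two_pow (n := w)
        omega
      · exact hb'2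
    have h2 : 2 ^ (w + 1) * (2 ^ (2 * w) * Q ^ 2) ≤ P * Q := by
      have h3 : 2 ^ (w + 1) * 2 ^ (2 * w) * Q ≤ P := by
        calc 2 ^ (w + 1) * 2 ^ (2 * w) * Q ≤ 2 ^ (w + 1) * 2 ^ (2 * w) * 2 ^ (20 * l * w) :=
              Nat.mul_le_mul_left _ hQ2
          _ = 2 ^ ((w + 1) + 2 * w + 20 * l * w) := by
              rw [pow_add 2 ((w + 1) + 2 * w) (20 * l * w), pow_add 2 (w + 1) (2 * w)]
          _ ≤ P := by
              rw [hP, hde]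
              apply Nat.pow_le_pow_right (by norm_num)
              nlinarith
      calc 2 ^ (w + 1) * (2 ^ (2 * w) * Q ^ 2) = 2 ^ (w + 1) * 2 ^ (2 * w) * Q * Q := by ring
        _ ≤ P * Q := Nat.mul_le_mul_right Q h3
    calc (2 ^ w + 1) * b' ≤ P * Q := h1.trans h2
      _ ≤ a' * P * Q := by
          rw [Nat.mul_assoc]
          exact Nat.le_mul_of_pos_left _ (by omega)
  -- rational numbers
  have hPq : (0 : ℚ) < (P : ℚ) := by exact_mod_cast hP1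
  have hQq : (0 : ℚ) < (Q : ℚ) := by exact_mod_cast hQ0
  have hbq : (0 : ℚ) < (b' : ℚ) := by exact_mod_cast hb'0
  have hPcast : ((2 : ℚ) ^ (d * e)) = (P : ℚ) := by rw [hP]; push_cast; rfl
  have hPe : P ≤ 2 ^ (d * (e + 1)) := by
    rw [hP]
    exact Nat.pow_le_pow_right (by norm_num) (Nat.mul_le_mul_left d (by omega))
  obtain ⟨k₁, hk₁⟩ : ∃ k₁ : ℕ, k₁ = 4 * (e + 1) := ⟨_, rfl⟩
  rw [← hk₁] at hdig
  have hUF1 : ∀ (σ : ℕ) (Ψ : Finset ℕ), 1 ≤ σ → σ < x → Ψ.card ≤ κ - k₁ →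
      DUF Q k₁ Ψ ((σ : ℚ) * (1 / ((P : ℚ) * Q))) := by
    intro σ Ψ _ hσ hΨ
    have h1 := hdig σ 1 Ψ ((hσ.trans hxP).trans_le hPe) le_rfl (by omega)
    rw [hPcast] at h1
    convert h1 using 1
    push_cast
    field_simp
  have hUF2 : DUF Q k₁ (Φ ∪ S₀) ((r : ℚ) / ((P : ℚ) * Q * b')) := by
    have h2 := Finset.card_union_le Φ S₀
    have h1 := hdig r b' (Φ ∪ S₀) ((hrb.trans_le hb'P).trans_le hPe) hb'0 (by omega)
    rw [hPcast] at h1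
    exact h1
  obtain ⟨R₀, hr1, hr2, hr3, -, hr5⟩ := hUF2
  rw [Finset.disjoint_union_right] at hr2
  have hval : (x : ℚ) * (1 / ((P : ℚ) * Q)) + (∑ y ∈ S₀, (1 : ℚ) / (y : ℚ) +
      (r : ℚ) / ((P : ℚ) * Q * b')) = (a : ℚ) / b := by
    rw [hsum]
    have h1 : ((a' : ℚ) * P * Q) = b' * x + r := by exact_mod_cast hxr
    have h2 : (a' : ℚ) / b' = ((a' : ℚ) * P * Q) / ((P : ℚ) * Q * b') := by
      field_simp
    rw [h2, h1]
    field_simp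
    ring
  obtain ⟨t', ht', hC⟩ := hM (1 / ((P : ℚ) * Q))
    (∑ y ∈ S₀, (1 : ℚ) / (y : ℚ) + (r : ℚ) / ((P : ℚ) * Q * b')) Q x k₁ (N + k₁) (κ - k₁) Φ
    (S₀ ∪ R₀) (by positivity) (by omega) (fun y hy => (hΦ2 y hy).trans_lt hQ1) hUF1
    ((Finset.card_union_le _ _).trans (Nat.add_le_add hs1 hr1))
    (Finset.disjoint_union_left.2 ⟨hs2, hr2.1⟩)
    (fun y hy => (Finset.mem_union.1 hy).elim (hs3 y) (hr3 y))
    (by rw [Finset.sum_union hr2.2.symm, hr5]) (by omega)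
  rw [hval] at hC
  obtain ⟨T, hT⟩ : ∃ T : ℕ, T = 2 * k₁ + (N + k₁) := ⟨_, rfl⟩
  rw [← hT] at hC ht'
  have hT2 : T ≤ 20000 * l := by omega
  have hC2 := hS Φ _ t' (20000 * l) _ (ht'.trans hT2) hC
  obtain ⟨F, hF1, hF2⟩ := hC2
  refine ⟨F, hF1, le_trans ?_ hF2⟩
  rw [Nat.le_div_iff_mul_le (by positivity)]
  have h5 : T + 1 ≤ 2 ^ T := Nat.lt_two_pow_self
  calc 2 ^ 2 ^ (l - 1) * (2 ^ T * (T + 1)) ≤ 2 ^ 2 ^ (l - 1) * (2 ^ T * 2 ^ T) :=
        Nat.mul_le_mul_left _ (Nat.mul_le_mul_left _ h5)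
    _ = 2 ^ (2 ^ (l - 1) + (T + T)) := by rw [pow_add, pow_add]
    _ ≤ 2 ^ w := Nat.pow_le_pow_right (by norm_num) (by omega)
    _ ≤ x - 1 := by omega

end Pool.Agent.UFL
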