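import Pool.Agent.UFL.St2

/-!
# MAIN2D from MAIN1D and SPL2
-/

set_option autoImplicit false

namespace Pool.Agent.UFL

open Finset

private lemma main2d_expexp_le (t l : ℕ) (hl : 20 ≤ l) (ht : t < 20000 * (l + 1)) :
    Real.exp (Real.exp ((t : ℝ) / 40000)) ≤ ((2 ^ 2 ^ (l - 1) : ℕ) : ℝ) := by
  have hlog : (0.6931 : ℝ) < Real.log 2 := by
    have := Real.log_two_gt_d9
    linarith
  have htR : (t : ℝ) < 20000 * ((l : ℝ) + 1) := by exact_mod_cast ht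
  have hlR : (20 : ℝ) ≤ (l : ℝ) := by exact_mod_cast hl
  obtain ⟨k, rfl⟩ : ∃ k, l = k + 2 := ⟨l - 2, by omega⟩
  have hk : ((k + 2 : ℕ) : ℝ) = (k : ℝ) + 2 := by push_cast; ring
  rw [hk] at htR hlR
  have hx : (t : ℝ) / 40000 ≤ (k : ℝ) * Real.log 2 := by
    have h1 : (t : ℝ) / 40000 ≤ (1 / 2 : ℝ) * ((k : ℝ) + 3) := by
      rw [div_le_iff₀ (by norm_num)]
      nlinarith
    have h2 : (1 / 2 : ℝ) * ((k : ℝ) + 3) ≤ (k : ℝ) * 0.6931 := by nlinarith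
    have h3 : (k : ℝ) * 0.6931 ≤ (k : ℝ) * Real.log 2 :=
      mul_le_mul_of_nonneg_left hlog.le (by linarith)
    linarith
  have h4 : Real.exp ((t : ℝ) / 40000) ≤ 2 ^ k := by
    calc Real.exp ((t : ℝ) / 40000) ≤ Real.exp ((k : ℝ) * Real.log 2) := Real.exp_le_exp.mpr hx
      _ = 2 ^ k := by
        rw [Real.exp_nat_mul, Real.exp_log (by norm_num)]
  have h5 : (2 : ℝ) ^ k ≤ ((2 ^ (k + 1) : ℕ) : ℝ) * Real.log 2 := by
    push_cast
    rw [pow_succ]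
    have : (0 : ℝ) < 2 ^ k := by positivity
    nlinarith
  have h6 : Real.exp (((2 ^ (k + 1) : ℕ) : ℝ) * Real.log 2) = ((2 ^ 2 ^ (k + 1) : ℕ) : ℝ) := by
    rw [Real.exp_nat_mul, Real.exp_log (by norm_num)]
    push_cast
    rfl
  have h7 : k + 2 - 1 = k + 1 := by omega
  rw [h7, ← h6]
  exact Real.exp_le_exp.mpr (h4.trans h5)

theorem t_MAIN2D (hM : S_MAIN1D) (hS : S_SPL2) : S_MAIN2D := by
  obtain ⟨l₀, hM⟩ := hM
  refine ⟨20000 * (max l₀ 20), fun t ht a b Φ ha hab hb hΦc hΦ => ?_⟩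
  have hl1 : max l₀ 20 ≤ t / 20000 := by omega
  have hl0 : l₀ ≤ t / 20000 := (le_max_left _ _).trans hl1
  have hl20 : 20 ≤ t / 20000 := (le_max_right _ _).trans hl1
  have htl : t < 20000 * (t / 20000 + 1) := by omega
  have hle := main2d_expexp_le t (t / 20000) hl20 htl
  refine ⟨2 ^ 2 ^ (t / 20000 - 1), hle, ?_⟩
  have hmono : 2 ^ 2 ^ (t / 20000 - 1) ≤ 2 ^ 2 ^ (t / 20000) := by
    apply Nat.pow_le_pow_right (by norm_num)
    apply Nat.pow_le_pow_right (by norm_num)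
    omega
  have hbn : b ≤ 2 ^ 2 ^ (t / 20000 - 1) := by
    have := hb.trans hle
    exact_mod_cast this
  have hy : ∀ y ∈ Φ, y ≤ 2 ^ 2 ^ (t / 20000) := by
    intro y hy
    have h1 : y ≤ 2 ^ 2 ^ (t / 20000 - 1) := by
      have := (hΦ y hy).trans hle
      exact_mod_cast this
    exact h1.trans hmono
  have hcard : Φ.card ≤ t / 20000 := by
    have h1 : (Φ.card : ℝ) * 40000 ≤ (t : ℝ) := by
      rwa [le_div_iff₀ (by norm_num)] at hΦc
    have h2 : Φ.card * 40000 ≤ t := by exact_mod_cast h1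
    omega
  have hc := hM (t / 20000) hl0 a b Φ ha hab (hbn.trans hmono) hcard hy
  exact hS Φ ((a : ℚ) / b) (20000 * (t / 20000)) t _ (by omega) hc

end Pool.Agent.UFL
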