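import Mathlib
import Pool.Agent.UFL.St2

/-!
# `t_MUL2` for MP_dcc108_nt: multiplicity, version with distinct denominators
-/

set_option autoImplicit false

namespace Pool.Agent.UFL

open Finset

theorem t_MUL2 : S_MUL2 := by
  classical
  intro ε ρ Q x k k' κ Φ R hε hQ hΦ hσ hRc hRd hR0 hRs hκ
  have hexA : ∀ σ : ℕ, ∃ A : Finset ℕ, 1 ≤ σ → σ < x →
      A.card ≤ k ∧ Disjoint A (Φ ∪ R) ∧ (∀ y ∈ A, 0 < y) ∧ (∃ y ∈ A, Q ≤ y) ∧
        ∑ y ∈ A, (1 : ℚ) / (y : ℚ) = σ * ε := by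
    intro σ
    by_cases h : 1 ≤ σ ∧ σ < x
    · obtain ⟨A, h1, h2, h3, h4, h5⟩ := hσ σ (Φ ∪ R) h.1 h.2
        ((card_union_le _ _).trans (by omega))
      refine ⟨A, fun _ _ => ⟨h1, h2, h3, h4 ?_, h5⟩⟩
      have h6 : (0 : ℚ) < σ := by exact_mod_cast h.1
      positivity
    · exact ⟨∅, fun h1 h2 => absurd ⟨h1, h2⟩ h⟩
  choose A hA using hexA
  have hexB : ∀ σ : ℕ, ∃ B : Finset ℕ, 1 ≤ σ → σ < x →
      B.card ≤ k ∧ Disjoint B (Φ ∪ R ∪ A σ) ∧ (∀ y ∈ B, 0 < y) ∧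
        ∑ y ∈ B, (1 : ℚ) / (y : ℚ) = ((x - σ : ℕ) : ℚ) * ε := by
    intro σ
    by_cases h : 1 ≤ σ ∧ σ < x
    · have h0 := (hA σ h.1 h.2).1
      obtain ⟨B, h1, h2, h3, -, h5⟩ := hσ (x - σ) (Φ ∪ R ∪ A σ) (by omega) (by omega) (by
        have e1 := card_union_le (Φ ∪ R) (A σ)
        have e2 := card_union_le Φ R
        omega)
      exact ⟨B, fun _ _ => ⟨h1, h2, h3, h5⟩⟩
    · exact ⟨∅, fun h1 h2 => absurd ⟨h1, h2⟩ h⟩
  choose B hB using hexB
  set m : ℕ := 2 * k + k' with hm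
  let M : ℕ → Finset ℕ := fun σ => R ∪ A σ ∪ B σ
  have hM : ∀ σ ∈ Finset.Ico 1 x, (M σ).card ≤ m ∧ Disjoint (M σ) Φ ∧ (∀ y ∈ M σ, 0 < y) ∧
      (∃ y ∈ M σ, 2 ≤ y ∧ ∀ z ∈ Φ, z < y) ∧
      ∑ y ∈ M σ, (1 : ℚ) / (y : ℚ) = x * ε + ρ := by
    intro σ hs
    rw [Finset.mem_Ico] at hs
    obtain ⟨h1, h2, h3, ⟨y₀, hy₀, hy₀Q⟩, h5⟩ := hA σ hs.1 hs.2
    obtain ⟨g1, g2, g3, g5⟩ := hB σ hs.1 hs.2
    rw [disjoint_union_right] at h2
    rw [disjoint_union_right, disjoint_union_right] at g2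
    refine ⟨?_, ?_, ?_, ?_, ?_⟩
    · have e1 := card_union_le (R ∪ A σ) (B σ)
      have e2 := card_union_le R (A σ)
      simp only [M]
      omega
    · simp only [M]
      rw [disjoint_union_left, disjoint_union_left]
      exact ⟨⟨hRd, h2.1⟩, g2.1.1⟩
    · intro y hy
      simp only [M, Finset.mem_union] at hy
      rcases hy with (hy | hy) | hy
      · exact hR0 y hy
      · exact h3 y hy
      · exact g3 y hy
    · refine ⟨y₀, ?_, hQ.trans hy₀Q, fun z hz => (hΦ z hz).trans_le hy₀Q⟩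
      simp only [M, Finset.mem_union]
      exact Or.inl (Or.inr hy₀)
    · simp only [M]
      rw [Finset.sum_union, Finset.sum_union, hRs, h5, g5]
      · rw [Nat.cast_sub hs.2.le]
        ring
      · exact h2.2.symm
      · rw [disjoint_union_left]
        exact ⟨g2.1.2.symm, g2.2.symm⟩
  set F : Finset (Finset ℕ) := (Finset.Ico 1 x).image M with hF
  have hfib : ∀ a ∈ (Finset.Ico 1 x).image M,
      ((Finset.Ico 1 x).filter fun σ => M σ = a).card ≤ 2 ^ m := by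
    intro a ha
    obtain ⟨σ₀, hσ₀, rfl⟩ := Finset.mem_image.1 ha
    have h1 : ((Finset.Ico 1 x).filter fun σ => M σ = M σ₀).card ≤
        ((M σ₀).powerset).card := by
      apply Finset.card_le_card_of_injOn A
      · intro σ hs
        have hs' := Finset.mem_filter.1 hs
        have : A σ ⊆ M σ₀ := by
          rw [← hs'.2]
          intro y hy
          simp only [M, Finset.mem_union]
          exact Or.inl (Or.inr hy)
        exact Finset.mem_coe.2 (Finset.mem_powerset.2 this)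
      · intro σ hs τ ht hst
        have hs' := Finset.mem_filter.1 hs
        have ht' := Finset.mem_filter.1 ht
        have hs2 := Finset.mem_Ico.1 hs'.1
        have ht2 := Finset.mem_Ico.1 ht'.1
        have e1 := (hA σ hs2.1 hs2.2).2.2.2.2
        have e2 := (hA τ ht2.1 ht2.2).2.2.2.2
        have e3 : (σ : ℚ) * ε = τ * ε := by rw [← e1, ← e2, hst]
        have e4 := mul_right_cancel₀ hε.ne' e3
        exact_mod_cast e4
    refine h1.trans ?_
    rw [Finset.card_powerset]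
    exact Nat.pow_le_pow_right (by norm_num) (hM σ₀ hσ₀).1
  have hcard : (Finset.Ico 1 x).card ≤ 2 ^ m * F.card :=
    Finset.card_le_mul_card_image _ _ hfib
  rw [Nat.card_Ico] at hcard
  set K : ℕ := (x - 1) / (2 ^ m * (m + 1)) with hK
  have hKle : K * (2 ^ m * (m + 1)) ≤ x - 1 := Nat.div_mul_le_self _ _
  have hn : (Finset.range (m + 1)).card * K ≤ F.card := by
    rw [Finset.card_range]
    have h2 : 2 ^ m * ((m + 1) * K) ≤ 2 ^ m * F.card := by
      calc 2 ^ m * ((m + 1) * K) = K * (2 ^ m * (m + 1)) := by ring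
        _ ≤ x - 1 := hKle
        _ ≤ _ := hcard
    exact Nat.le_of_mul_le_mul_left h2 (by positivity)
  obtain ⟨t', ht', hle⟩ := Finset.exists_le_card_fiber_of_mul_le_card_of_maps_to
    (s := F) (t := Finset.range (m + 1)) (f := fun s => Finset.card s) (n := K) (by
      intro s hs
      obtain ⟨σ, h1, rfl⟩ := Finset.mem_image.1 hs
      exact Finset.mem_range.2 (Nat.lt_succ_of_le (hM σ h1).1)) ⟨0, by simp⟩ hn
  refine ⟨t', by
    have := Finset.mem_range.1 ht'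
    omega, F.filter fun s => Finset.card s = t', ?_, hle⟩
  intro s hs
  obtain ⟨h1, h2⟩ := Finset.mem_filter.1 hs
  obtain ⟨σ, h3, rfl⟩ := Finset.mem_image.1 h1
  obtain ⟨-, e2, e3, e4, e5⟩ := hM σ h3
  exact ⟨h2, e2, e3, e4, e5⟩

end Pool.Agent.UFL
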