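import Mathlib
import Pool.Agent.UFL.St2

set_option autoImplicit false

/-!
# UFL: module NICE2
-/

namespace Pool.Agent.UFL

open Finset

/-- The character sum counting the subsets `S` with `-1 = ∏ q_i`. -/
theorem nice2_sum (n w : ℕ) [NeZero n] (q : Fin w → ℕ) :
    ∑ χ : DirichletCharacter ℂ n, χ ((-1 : ZMod n)⁻¹) * ∏ i, (1 + χ (q i : ZMod n)) =
      (n.totient : ℂ) *
        (((univ : Finset (Finset (Fin w))).filter fun S => n ∣ (∏ i ∈ S, q i) + 1).card : ℂ) := by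
  classical
  have h1 : ∀ χ : DirichletCharacter ℂ n,
      χ ((-1 : ZMod n)⁻¹) * ∏ i, (1 + χ (q i : ZMod n)) =
        ∑ S ∈ (Finset.univ : Finset (Fin w)).powerset,
          χ ((-1 : ZMod n)⁻¹) * χ (∏ i ∈ S, (q i : ZMod n)) := by
    intro χ
    rw [Finset.prod_one_add, Finset.mul_sum]
    apply Finset.sum_congr rfl
    intro S _
    rw [map_prod]
  rw [Finset.sum_congr rfl (fun χ _ => h1 χ), Finset.sum_comm]
  have h2 : ∀ S ∈ (Finset.univ : Finset (Fin w)).powerset,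
      ∑ χ : DirichletCharacter ℂ n, χ ((-1 : ZMod n)⁻¹) * χ (∏ i ∈ S, (q i : ZMod n)) =
        if n ∣ (∏ i ∈ S, q i) + 1 then (n.totient : ℂ) else 0 := by
    intro S _
    rw [DirichletCharacter.sum_char_inv_mul_char_eq ℂ (isUnit_one.neg)]
    have h3 : (-1 : ZMod n) = ∏ i ∈ S, (q i : ZMod n) ↔ n ∣ (∏ i ∈ S, q i) + 1 := by
      rw [← ZMod.natCast_eq_zero_iff]
      push_cast
      constructor
      · intro h
        rw [← h]
        ring
      · intro h
        linear_combination -h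
    by_cases h : n ∣ (∏ i ∈ S, q i) + 1
    · rw [if_pos h, if_pos (h3.mpr h)]
    · rw [if_neg h, if_neg (fun h' => h (h3.mp h'))]
  rw [Finset.sum_congr rfl h2, Finset.powerset_univ, ← Finset.sum_filter, Finset.sum_const,
    nsmul_eq_mul, mul_comm]

theorem t_NICE2 : S_NICE2 := by
  classical
  intro n w q hn hq hsum
  have : NeZero n := ⟨by omega⟩
  have hmain := nice2_sum n w q
  have hu : IsUnit ((-1 : ZMod n)⁻¹) := by
    have h1 : (-1 : ZMod n)⁻¹ = -1 := by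
      have h2 : (-1 : ZMod n) * (-1) = 1 := by ring
      exact ZMod.inv_eq_of_mul_eq_one n (-1) (-1) h2
    rw [h1]
    exact isUnit_one.neg
  have hone : ((1 : DirichletCharacter ℂ n) ((-1 : ZMod n)⁻¹) *
      ∏ i, (1 + (1 : DirichletCharacter ℂ n) (q i : ZMod n))) = 2 ^ w := by
    rw [MulChar.one_apply hu, one_mul]
    have h1 : ∀ i : Fin w, (1 + (1 : DirichletCharacter ℂ n) (q i : ZMod n)) = 2 := by
      intro i
      rw [MulChar.one_apply ((ZMod.isUnit_iff_coprime _ _).mpr (hq i))]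
      norm_num
    rw [Finset.prod_congr rfl (fun i _ => h1 i), Finset.prod_const]
    simp
  have honen : ∏ i, ‖1 + (1 : DirichletCharacter ℂ n) (q i : ZMod n)‖ = (2 : ℝ) ^ w := by
    have h1 : ∀ i : Fin w, ‖1 + (1 : DirichletCharacter ℂ n) (q i : ZMod n)‖ = 2 := by
      intro i
      rw [MulChar.one_apply ((ZMod.isUnit_iff_coprime _ _).mpr (hq i))]
      norm_num
    rw [Finset.prod_congr rfl (fun i _ => h1 i), Finset.prod_const]
    simp
  set c : ℕ := ((univ : Finset (Finset (Fin w))).filter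
    fun S => n ∣ (∏ i ∈ S, q i) + 1).card with hc
  rw [← Finset.add_sum_erase _ _ (Finset.mem_univ (1 : DirichletCharacter ℂ n)), hone] at hmain
  rw [← Finset.add_sum_erase _ _ (Finset.mem_univ (1 : DirichletCharacter ℂ n)), honen] at hsum
  have hle : ‖∑ χ ∈ Finset.univ.erase (1 : DirichletCharacter ℂ n),
      χ ((-1 : ZMod n)⁻¹) * ∏ i, (1 + χ (q i : ZMod n))‖ ≤
      ∑ χ ∈ Finset.univ.erase (1 : DirichletCharacter ℂ n),
        ∏ i, ‖1 + χ (q i : ZMod n)‖ := by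
    refine le_trans (norm_sum_le _ _) (Finset.sum_le_sum fun χ _ => ?_)
    rw [norm_mul, norm_prod]
    have h1 : ‖χ ((-1 : ZMod n)⁻¹)‖ ≤ 1 := DirichletCharacter.norm_le_one χ _
    have h2 : 0 ≤ ∏ i, ‖1 + χ (q i : ZMod n)‖ := Finset.prod_nonneg fun i _ => norm_nonneg _
    nlinarith
  have heq : (2 : ℂ) ^ w = (n.totient : ℂ) * (c : ℂ) -
      ∑ χ ∈ Finset.univ.erase (1 : DirichletCharacter ℂ n),
      χ ((-1 : ZMod n)⁻¹) * ∏ i, (1 + χ (q i : ZMod n)) := by
    linear_combination hmain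
  have hnorm : (2 : ℝ) ^ w ≤ (n.totient : ℝ) * c +
      ∑ χ ∈ Finset.univ.erase (1 : DirichletCharacter ℂ n),
        ∏ i, ‖1 + χ (q i : ZMod n)‖ := by
    have h1 : ‖(2 : ℂ) ^ w‖ = (2 : ℝ) ^ w := by
      rw [norm_pow]
      norm_num
    have h2 : ‖(n.totient : ℂ) * (c : ℂ)‖ = (n.totient : ℝ) * c := by
      rw [norm_mul, Complex.norm_natCast, Complex.norm_natCast]
    calc (2 : ℝ) ^ w = ‖(2 : ℂ) ^ w‖ := h1.symm
      _ ≤ ‖(n.totient : ℂ) * (c : ℂ)‖ + ‖∑ χ ∈ Finset.univ.erase (1 : DirichletCharacter ℂ n),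
            χ ((-1 : ZMod n)⁻¹) * ∏ i, (1 + χ (q i : ZMod n))‖ := by
          rw [heq]
          exact norm_sub_le _ _
      _ ≤ _ := by
          rw [h2]
          linarith
  have h5 : (2 : ℝ) ^ w ≤ 2 * ((n.totient : ℝ) * c) := by linarith
  have h6 : 2 ^ w ≤ 2 * (n.totient * c) := by exact_mod_cast h5
  have h7 : n.totient * c ≤ n * c := Nat.mul_le_mul_right _ (Nat.totient_le n)
  show 2 ^ w ≤ 2 * n * c
  calc 2 ^ w ≤ 2 * (n.totient * c) := h6
    _ ≤ 2 * (n * c) := by omega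
    _ = 2 * n * c := by ring

end Pool.Agent.UFL
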