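import Pool.Agent.UFL.St

/-!
Module ORT (MP_dcc108_nt): orthogonality of primitive characters with different conductors.
-/

set_option autoImplicit false

namespace Pool.Agent.UFL

open Finset

namespace ORTx

/-- The sum of a nontrivial character mod `L` over an initial segment has norm at most `L`. -/
theorem sum_range_le (L : ℕ) [NeZero L] (θ : DirichletCharacter ℂ L) (hθ : θ ≠ 1) (X : ℕ) :
    ‖∑ m ∈ range X, θ (m : ZMod L)‖ ≤ L := by
  have hper : ∑ m ∈ range L, θ (m : ZMod L) = 0 := by
    have h0 : ∑ a : ZMod L, θ a = 0 := MulChar.sum_eq_zero_of_ne_one hθ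
    rw [← h0]
    refine Finset.sum_bij (fun (m : ℕ) _ => (m : ZMod L)) (fun _ _ => mem_univ _) ?_ ?_ ?_
    · intro a ha b hb hab
      have ha' := mem_range.1 ha
      have hb' := mem_range.1 hb
      have := congrArg ZMod.val hab
      rwa [ZMod.val_natCast_of_lt ha', ZMod.val_natCast_of_lt hb'] at this
    · intro b _
      exact ⟨b.val, mem_range.2 (ZMod.val_lt b), by simp⟩
    · intro a _
      rfl
  have hmul : ∀ a : ℕ, ∑ m ∈ range (L * a), θ (m : ZMod L) = 0 := by
    intro a
    induction a with
    | zero => simp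
    | succ a ih =>
      rw [Nat.mul_succ, Finset.sum_range_add, ih, zero_add, ← hper]
      refine Finset.sum_congr rfl fun i _ => ?_
      congr 1
      push_cast
      simp
  have hX : X = L * (X / L) + X % L := (Nat.div_add_mod X L).symm
  rw [hX, Finset.sum_range_add, hmul, zero_add]
  refine (norm_sum_le _ _).trans ?_
  refine (Finset.sum_le_card_nsmul _ _ 1 fun i _ => DirichletCharacter.norm_le_one _ _).trans ?_
  rw [card_range, nsmul_eq_mul, mul_one]
  exact_mod_cast (Nat.mod_lt X (Nat.pos_of_ne_zero (NeZero.ne L))).le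

end ORTx

/-- **ORT**. -/
theorem t_ORT : S_ORT := by
  intro f f' ψ ψ' X hf hf' hne hψ hψ'
  haveI : NeZero f := ⟨by omega⟩
  haveI : NeZero f' := ⟨by omega⟩
  haveI : NeZero (f * f') := ⟨Nat.mul_ne_zero (by omega) (by omega)⟩
  have hd : f ∣ f * f' := Nat.dvd_mul_right f f'
  have hd' : f' ∣ f * f' := Nat.dvd_mul_left f' f
  set Θ : DirichletCharacter ℂ (f * f') :=
    DirichletCharacter.changeLevel hd ψ * (DirichletCharacter.changeLevel hd' ψ')⁻¹ with hΘ
  have hΘ1 : Θ ≠ 1 := by
    intro h
    have h1 : DirichletCharacter.changeLevel hd ψ = DirichletCharacter.changeLevel hd' ψ' :=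
      mul_inv_eq_one.1 h
    have h2 := congrArg DirichletCharacter.conductor h1
    rw [DirichletCharacter.conductor_changeLevel, DirichletCharacter.conductor_changeLevel] at h2
    have e1 : ψ.conductor = f := hψ
    have e2 : ψ'.conductor = f' := hψ'
    exact hne (by rw [← e1, h2, e2])
  have hval : ∀ m : ℕ, ψ (m : ZMod f) * (starRingEnd ℂ) (ψ' (m : ZMod f')) =
      Θ (m : ZMod (f * f')) := by
    intro m
    by_cases hm : Nat.Coprime m (f * f')
    · have hu : ((ZMod.unitOfCoprime m hm : (ZMod (f * f'))ˣ) : ZMod (f * f')) = (m : ZMod (f * f')) :=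
        ZMod.coe_unitOfCoprime m hm
      have a1 : DirichletCharacter.changeLevel hd ψ (m : ZMod (f * f')) = ψ (m : ZMod f) := by
        have := DirichletCharacter.changeLevel_eq_cast_of_dvd ψ hd (ZMod.unitOfCoprime m hm)
        rw [hu, ZMod.cast_natCast hd] at this
        exact this
      have a2 : DirichletCharacter.changeLevel hd' ψ' (m : ZMod (f * f')) = ψ' (m : ZMod f') := by
        have := DirichletCharacter.changeLevel_eq_cast_of_dvd ψ' hd' (ZMod.unitOfCoprime m hm)
        rw [hu, ZMod.cast_natCast hd'] at this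
        exact this
      have hm' : Nat.Coprime m f' := Nat.Coprime.coprime_mul_left_right hm
      have n1 : ‖ψ' (m : ZMod f')‖ = 1 := by
        have := DirichletCharacter.unit_norm_eq_one ψ' (ZMod.unitOfCoprime m hm')
        rwa [ZMod.coe_unitOfCoprime] at this
      rw [hΘ, MulChar.mul_apply, MulChar.inv_apply_eq_inv', a1, a2, Complex.inv_eq_conj n1]
    · rw [MulChar.map_nonunit Θ (by rwa [ZMod.isUnit_iff_coprime])]
      rw [Nat.coprime_mul_iff_right, not_and_or] at hm
      rcases hm with h | h
      · rw [MulChar.map_nonunit ψ (by rwa [ZMod.isUnit_iff_coprime]), zero_mul]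
      · rw [MulChar.map_nonunit ψ' (by rwa [ZMod.isUnit_iff_coprime]), map_zero, mul_zero]
  rw [Finset.sum_congr rfl fun m _ => hval m]
  have := ORTx.sum_range_le (f * f') Θ hΘ1 X
  push_cast at this
  exact this

end Pool.Agent.UFL
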