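import Mathlib
import Pool.Agent.UFL.St3

set_option autoImplicit false

/-!
# Module PRE3: prescribed and forbidden denominators
-/

namespace Pool.Agent.UFL

open Finset

/-- The sum of the reciprocals with the common denominator `L`. -/
theorem pre3_sum_eq (A : Finset ℕ) (L : ℕ) (hL : 1 ≤ L) (hA : ∀ n ∈ A, n ∣ L) :
    ∑ n ∈ A, (1 : ℚ) / (n : ℚ) = ((∑ n ∈ A, L / n : ℕ) : ℚ) / L := by
  have hL0 : (L : ℚ) ≠ 0 := by exact_mod_cast (by omega : L ≠ 0)
  rw [Nat.cast_sum, Finset.sum_div]
  refine Finset.sum_congr rfl fun n hn => ?_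
  have hd := hA n hn
  have h0 : 0 < n := Nat.pos_of_dvd_of_pos hd hL
  have hn0 : (n : ℚ) ≠ 0 := by exact_mod_cast h0.ne'
  rw [Nat.cast_div hd hn0]
  field_simp

theorem pre3_sum_pos (A : Finset ℕ) (L : ℕ) (hL : 1 ≤ L) (hA : ∀ n ∈ A, n ∣ L)
    (h0 : A.Nonempty) : 1 ≤ ∑ n ∈ A, L / n := by
  obtain ⟨n, hn⟩ := h0
  have hd := hA n hn
  have h1 : 1 ≤ L / n := Nat.div_pos (Nat.le_of_dvd hL hd) (Nat.pos_of_dvd_of_pos hd hL)
  exact h1.trans (Finset.single_le_sum (f := fun n => L / n) (fun _ _ => Nat.zero_le _) hn)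

/-- Adding a fixed set to the members of a family. -/
theorem pre3_lift (hB : S_BRG3) (q q' : ℚ) (t t' K : ℕ) (A A' B : Finset ℕ)
    (hfin : (Sol q t).Finite) (hAA : A ⊆ A') (hd : Disjoint A' B) (hpos : ∀ n ∈ A', 0 < n)
    (hcard : A'.card + t' = t) (hsum : ∑ n ∈ A', (1 : ℚ) / (n : ℚ) + q' = q)
    (h : DCnt (A' ∪ B) q' t' K) :
    K ≤ {x ∈ Sol q t | StrictMono x ∧ (∀ n ∈ A, ∃ i, x i = n) ∧ ∀ i, x i ∉ B}.ncard := by
  obtain ⟨F, hF1, hF2⟩ := h
  refine hB q t K A B (F.image fun S => A' ∪ S) hfin ?_ ?_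
  · intro u hu
    obtain ⟨S, hS, rfl⟩ := Finset.mem_image.1 hu
    obtain ⟨v1, v2, v3, -, v5⟩ := hF1 S hS
    have v6 : Disjoint S A' := v2.mono_right Finset.subset_union_left
    have v7 : Disjoint S B := v2.mono_right Finset.subset_union_right
    refine ⟨?_, fun x hx => ?_, ?_, hAA.trans Finset.subset_union_left, ?_⟩
    · rw [Finset.card_union_of_disjoint v6.symm, v1, hcard]
    · rcases Finset.mem_union.1 hx with hx | hx
      · exact hpos x hx
      · exact v3 x hx
    · rw [Finset.sum_union v6.symm, v5, hsum]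
    · exact Finset.disjoint_union_left.2 ⟨hd, v7⟩
  · rw [Finset.card_image_of_injOn]
    · exact hF2
    · intro S hS S' hS' h
      have h1 : Disjoint S A' := (hF1 S hS).2.1.mono_right Finset.subset_union_left
      have h2 : Disjoint S' A' := (hF1 S' hS').2.1.mono_right Finset.subset_union_left
      have h3 : A' ∪ S = A' ∪ S' := h
      have h4 : (A' ∪ S) \ A' = S := by
        rw [Finset.union_sdiff_left]
        exact Finset.sdiff_eq_self_of_disjoint h1
      have h5 : (A' ∪ S') \ A' = S' := by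
        rw [Finset.union_sdiff_left]
        exact Finset.sdiff_eq_self_of_disjoint h2
      rw [← h4, ← h5, h3]

/-- A small number outside a finite set. -/
theorem pre3_outside (B : Finset ℕ) : ∃ m : ℕ, 2 ≤ m ∧ m ≤ B.card + 2 ∧ m ∉ B := by
  by_contra hcon
  push Not at hcon
  have h1 : Finset.Icc 2 (B.card + 2) ⊆ B := by
    intro m hm
    rw [Finset.mem_Icc] at hm
    exact hcon m hm.1 hm.2
  have h2 := Finset.card_le_card h1
  rw [Nat.card_Icc] at h2
  omega

/-- **PRE3**. -/
theorem t_PRE3 (hM : S_MAIN2D) (hB : S_BRG3) (hF : S_FIN) : S_PRE3 := by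
  obtain ⟨t₀, ht₀⟩ := hM
  refine ⟨2 * t₀ + 300000, fun t ht a b L A B ha hab hL hbL hA hexp hBe hcard hdis hlt => ?_⟩
  have hL0 : (0 : ℚ) < L := by exact_mod_cast (by omega : 0 < L)
  have hb0 : 0 < b := by omega
  have hb0' : (b : ℚ) ≠ 0 := by exact_mod_cast hb0.ne'
  have hfin : (Sol ((a : ℚ) / b) t).Finite := hF.1 a b t ha hab
  have htR : (2 * (t₀ : ℝ) + 300000) ≤ t := by exact_mod_cast ht
  have hApos : ∀ n ∈ A, 0 < n := fun n hn => Nat.pos_of_dvd_of_pos (hA n hn) hL
  have hAle : ∀ n ∈ A, n ≤ L := fun n hn => Nat.le_of_dvd hL (hA n hn)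
  have hcA : (0 : ℝ) ≤ A.card := Nat.cast_nonneg _
  have hcB : (0 : ℝ) ≤ B.card := Nat.cast_nonneg _
  by_cases hcase : A.Nonempty ∨ a < b
  · -- first case
    have hAt : A.card ≤ t := by
      have : (A.card : ℝ) ≤ t := by linarith [Nat.cast_nonneg (α := ℝ) t]
      exact_mod_cast this
    set t' := t - A.card with ht'
    have ht'c : (t' : ℝ) = (t : ℝ) - A.card := by rw [ht', Nat.cast_sub hAt]
    have hmono : (t : ℝ) / 50000 ≤ (t' : ℝ) / 40000 := by
      rw [ht'c]
      linarith
    have hee : Real.exp (Real.exp ((t : ℝ) / 50000)) ≤ Real.exp (Real.exp ((t' : ℝ) / 40000)) :=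
      Real.exp_le_exp.2 (Real.exp_le_exp.2 hmono)
    set s := ∑ n ∈ A, L / n with hs
    have e1 : ∑ n ∈ A, (1 : ℚ) / (n : ℚ) = (s : ℚ) / L := pre3_sum_eq A L hL hA
    obtain ⟨c, hc⟩ := hbL
    have hc0 : 0 < c := by
      rcases Nat.eq_zero_or_pos c with h | h
      · rw [h, mul_zero] at hc
        omega
      · exact h
    have hc0' : (c : ℚ) ≠ 0 := by exact_mod_cast hc0.ne'
    have e2 : (a : ℚ) / b = ((a * c : ℕ) : ℚ) / L := by
      rw [hc]
      push_cast
      field_simp
    have s2 : s < a * c := by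
      rw [e1, e2, div_lt_div_iff_of_pos_right hL0] at hlt
      exact_mod_cast hlt
    have hacL : a * c ≤ L := by
      rw [hc]
      exact Nat.mul_le_mul_right _ hab
    have s3 : a * c - s < L := by
      rcases hcase with h | h
      · have := pre3_sum_pos A L hL hA h
        omega
      · have : a * c < b * c := Nat.mul_lt_mul_of_pos_right h hc0
        omega
    obtain ⟨K, hK, hD⟩ := ht₀ t' (by
        have : (t₀ : ℝ) ≤ t' := by
          rw [ht'c]
          linarith
        exact_mod_cast this) (a * c - s) L (A ∪ B) (by omega) s3 (hexp.trans hee)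
      (by
        have h1 : ((A ∪ B).card : ℝ) ≤ A.card + B.card := by
          exact_mod_cast Finset.card_union_le A B
        linarith)
      (by
        intro y hy
        rcases Finset.mem_union.1 hy with hy | hy
        · exact le_trans (by exact_mod_cast hAle y hy) (hexp.trans hee)
        · exact (hBe y hy).trans hee)
    have hlift := pre3_lift hB ((a : ℚ) / b) (((a * c - s : ℕ) : ℚ) / L) t t' K A A B hfin
      (Finset.Subset.refl A) hdis hApos (by omega) (by
        rw [Nat.cast_sub s2.le, e1, e2]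
        ring) hD
    exact hee.trans (hK.trans (by exact_mod_cast hlift))
  · -- second case
    push Not at hcase
    obtain ⟨h1, h2⟩ := hcase
    have hA0 : A = ∅ := by simpa using h1
    subst hA0
    have hab' : a = b := le_antisymm hab h2
    subst hab'
    obtain ⟨m, hm2, hmB, hmo⟩ := pre3_outside B
    have hmBR : (m : ℝ) ≤ B.card + 2 := by exact_mod_cast hmB
    have hcB' : (B.card : ℝ) ≤ (t : ℝ) / 50000 := by linarith
    have htc : ((t - 1 : ℕ) : ℝ) = (t : ℝ) - 1 := by
      rw [Nat.cast_sub (by omega)]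
      simp
    have hmono : (t : ℝ) / 50000 + 1 ≤ ((t - 1 : ℕ) : ℝ) / 40000 := by
      rw [htc]
      linarith [Nat.cast_nonneg (α := ℝ) t₀]
    have hee : Real.exp (Real.exp ((t : ℝ) / 50000)) ≤
        Real.exp (Real.exp (((t - 1 : ℕ) : ℝ) / 40000)) :=
      Real.exp_le_exp.2 (Real.exp_le_exp.2 (by linarith))
    have hme : (m : ℝ) ≤ Real.exp (Real.exp (((t - 1 : ℕ) : ℝ) / 40000)) := by
      have h3 := Real.add_one_le_exp (((t - 1 : ℕ) : ℝ) / 40000)
      have h4 := Real.add_one_le_exp (Real.exp (((t - 1 : ℕ) : ℝ) / 40000))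
      linarith
    obtain ⟨K, hK, hD⟩ := ht₀ (t - 1) (by omega) (m - 1) m ({m} ∪ B) (by omega) (by omega) hme
      (by
        have h3 : (({m} ∪ B : Finset ℕ).card : ℝ) ≤ 1 + B.card := by
          have := Finset.card_union_le {m} B
          rw [Finset.card_singleton] at this
          exact_mod_cast this
        linarith)
      (by
        intro y hy
        rcases Finset.mem_union.1 hy with hy | hy
        · rw [Finset.mem_singleton.1 hy]
          exact hme
        · exact (hBe y hy).trans hee)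
    have hm0 : (m : ℚ) ≠ 0 := by exact_mod_cast (by omega : m ≠ 0)
    have hlift := pre3_lift hB ((a : ℚ) / a) (((m - 1 : ℕ) : ℚ) / m) t (t - 1) K ∅ {m} B hfin
      (Finset.empty_subset _) (Finset.disjoint_singleton_left.2 hmo)
      (by
        intro n hn
        rw [Finset.mem_singleton.1 hn]
        omega)
      (by
        rw [Finset.card_singleton]
        omega)
      (by
        rw [Finset.sum_singleton, Nat.cast_sub (by omega), div_self hb0']
        field_simp
        push_cast
        ring) hD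
    exact hee.trans (hK.trans (by exact_mod_cast hlift))

end Pool.Agent.UFL
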