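import Pool.Agent.UFL.St2

/-!
# UFL, module SPL2 (helper56): splitting the largest element of a set is injective
-/

set_option autoImplicit false

namespace Pool.Agent.UFL

open Finset

/-- The largest element. -/
def spl2_mx (S : Finset ℕ) : ℕ := S.sup id

/-- The splitting of the largest element. -/
def spl2_sp (S : Finset ℕ) : Finset ℕ :=
  insert (spl2_mx S + 1) (insert (spl2_mx S * (spl2_mx S + 1)) (S.erase (spl2_mx S)))

theorem spl2_le_mx {S : Finset ℕ} {y : ℕ} (h : y ∈ S) : y ≤ spl2_mx S := by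
  have := Finset.le_sup (f := id) h
  simpa [spl2_mx] using this

theorem spl2_mx_mem {S : Finset ℕ} (h : S.Nonempty) : spl2_mx S ∈ S := by
  obtain ⟨i, hi, he⟩ := Finset.exists_mem_eq_sup S h id
  have : spl2_mx S = i := by
    unfold spl2_mx
    rw [he]
    rfl
  rw [this]
  exact hi

theorem spl2_mem_sp {S : Finset ℕ} {x : ℕ} (h : x ∈ spl2_sp S) :
    x = spl2_mx S + 1 ∨ x = spl2_mx S * (spl2_mx S + 1) ∨ x ∈ S := by
  unfold spl2_sp at h
  rw [mem_insert, mem_insert, mem_erase] at h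
  tauto

theorem spl2_not1 (S : Finset ℕ) (h2 : 2 ≤ spl2_mx S) :
    spl2_mx S + 1 ∉ insert (spl2_mx S * (spl2_mx S + 1)) (S.erase (spl2_mx S)) := by
  rw [mem_insert, mem_erase]
  rintro (h | h)
  · nlinarith
  · have := spl2_le_mx h.2
    omega

theorem spl2_not2 (S : Finset ℕ) (h2 : 2 ≤ spl2_mx S) :
    spl2_mx S * (spl2_mx S + 1) ∉ S.erase (spl2_mx S) := by
  rw [mem_erase]
  rintro ⟨_, h⟩
  have := spl2_le_mx h
  nlinarith

theorem spl2_card {S : Finset ℕ} (h : S.Nonempty) (h2 : 2 ≤ spl2_mx S) :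
    (spl2_sp S).card = S.card + 1 := by
  unfold spl2_sp
  rw [card_insert_of_notMem (spl2_not1 S h2), card_insert_of_notMem (spl2_not2 S h2),
    card_erase_of_mem (spl2_mx_mem h)]
  have : 0 < S.card := Finset.card_pos.2 h
  omega

theorem spl2_sum {S : Finset ℕ} (h : S.Nonempty) (h2 : 2 ≤ spl2_mx S) :
    ∑ x ∈ spl2_sp S, (1 : ℚ) / (x : ℚ) = ∑ x ∈ S, (1 : ℚ) / (x : ℚ) := by
  unfold spl2_sp
  rw [sum_insert (spl2_not1 S h2), sum_insert (spl2_not2 S h2),
    ← Finset.add_sum_erase S (fun x : ℕ => (1 : ℚ) / (x : ℚ)) (spl2_mx_mem h), ← add_assoc]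
  congr 1
  have h3 : (spl2_mx S : ℚ) ≠ 0 := by
    have : spl2_mx S ≠ 0 := by omega
    exact_mod_cast this
  have h4 : (spl2_mx S : ℚ) + 1 ≠ 0 := by positivity
  push_cast
  field_simp

theorem spl2_mx_sp {S : Finset ℕ} (h2 : 2 ≤ spl2_mx S) :
    spl2_mx (spl2_sp S) = spl2_mx S * (spl2_mx S + 1) := by
  apply le_antisymm
  · unfold spl2_mx
    refine Finset.sup_le fun x hx => ?_
    rcases spl2_mem_sp hx with h | h | h
    · rw [h]
      show S.sup id + 1 ≤ _
      have : 2 ≤ S.sup id := h2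
      nlinarith
    · rw [h]
      exact le_rfl
    · have := spl2_le_mx h
      have h' : id x ≤ S.sup id := this
      have : 2 ≤ S.sup id := h2
      nlinarith
  · apply spl2_le_mx
    unfold spl2_sp
    rw [mem_insert, mem_insert]
    exact Or.inr (Or.inl rfl)

theorem spl2_inj {S T : Finset ℕ} (hS : S.Nonempty) (hT : T.Nonempty) (h2 : 2 ≤ spl2_mx S)
    (h2' : 2 ≤ spl2_mx T) (h : spl2_sp S = spl2_sp T) : S = T := by
  have h3 : spl2_mx S = spl2_mx T := by
    have h4 := spl2_mx_sp h2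
    rw [h, spl2_mx_sp h2'] at h4
    by_contra hne
    rcases Nat.lt_or_gt_of_ne hne with h5 | h5 <;> nlinarith
  have h6 : (spl2_sp S).erase (spl2_mx S + 1) = (spl2_sp T).erase (spl2_mx T + 1) := by
    rw [h, h3]
  unfold spl2_sp at h6
  rw [erase_insert (spl2_not1 S h2), erase_insert (spl2_not1 T h2')] at h6
  have h7 : (insert (spl2_mx S * (spl2_mx S + 1)) (S.erase (spl2_mx S))).erase
      (spl2_mx S * (spl2_mx S + 1)) =
      (insert (spl2_mx T * (spl2_mx T + 1)) (T.erase (spl2_mx T))).erase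
      (spl2_mx T * (spl2_mx T + 1)) := by
    rw [h6, h3]
  rw [erase_insert (spl2_not2 S h2), erase_insert (spl2_not2 T h2')] at h7
  rw [← insert_erase (spl2_mx_mem hS), ← insert_erase (spl2_mx_mem hT), h7, h3]

theorem spl2_step (Φ : Finset ℕ) (q : ℚ) (t K : ℕ) (h : DCnt Φ q t K) : DCnt Φ q (t + 1) K := by
  classical
  obtain ⟨F, hF, hK⟩ := h
  have hne : ∀ S ∈ F, S.Nonempty := fun S hS => by
    obtain ⟨y, hy, _⟩ := (hF S hS).2.2.2.1
    exact ⟨y, hy⟩
  have h2 : ∀ S ∈ F, 2 ≤ spl2_mx S := fun S hS => by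
    obtain ⟨y, hy, hy2, _⟩ := (hF S hS).2.2.2.1
    exact hy2.trans (spl2_le_mx hy)
  have hΦ : ∀ S ∈ F, ∀ x ∈ Φ, x < spl2_mx S := fun S hS x hx => by
    obtain ⟨y, hy, _, hy3⟩ := (hF S hS).2.2.2.1
    exact (hy3 x hx).trans_le (spl2_le_mx hy)
  refine ⟨F.image spl2_sp, fun s hs => ?_, ?_⟩
  · obtain ⟨u, hu, rfl⟩ := Finset.mem_image.1 hs
    obtain ⟨h1, h3, h4, _, h5⟩ := hF u hu
    have hm := h2 u hu
    refine ⟨by rw [spl2_card (hne u hu) hm, h1], ?_, ?_, ?_, ?_⟩
    · rw [Finset.disjoint_left]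
      intro x hx hxΦ
      have hlt := hΦ u hu x hxΦ
      rcases spl2_mem_sp hx with h | h | h
      · omega
      · nlinarith
      · exact (Finset.disjoint_left.1 h3) h hxΦ
    · intro x hx
      rcases spl2_mem_sp hx with h | h | h
      · omega
      · rw [h]
        positivity
      · exact h4 x h
    · refine ⟨spl2_mx u * (spl2_mx u + 1), ?_, ?_, ?_⟩
      · unfold spl2_sp
        rw [mem_insert, mem_insert]
        exact Or.inr (Or.inl rfl)
      · nlinarith
      · intro x hx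
        have := hΦ u hu x hx
        nlinarith
    · rw [spl2_sum (hne u hu) hm, h5]
  · rw [Finset.card_image_of_injOn]
    · exact hK
    · intro s hs u hu h
      exact spl2_inj (hne s hs) (hne u hu) (h2 s hs) (h2 u hu) h

theorem t_SPL2 : S_SPL2 := by
  intro Φ q t t' K htt h
  induction t', htt using Nat.le_induction with
  | base => exact h
  | succ n _ ih => exact spl2_step Φ q n K ih

end Pool.Agent.UFL
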