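import Pool.Agent.UFL.St

/-!
# Module UFL_SUMF: the sum over the bad conductors (helper56)
-/

set_option autoImplicit false

namespace Pool.Agent.UFL.SUMFAux

open Finset

/-- `8 * l + 6 ≤ 2 ^ (l - 4)` for `l ≥ 20`. -/
theorem pow_lb (l : ℕ) (hl : 20 ≤ l) : 8 * l + 6 ≤ 2 ^ (l - 4) := by
  obtain ⟨k, rfl⟩ := Nat.exists_eq_add_of_le hl
  have e : 20 + k - 4 = 16 + k := by omega
  rw [e]
  induction k with
  | zero => norm_num
  | succ n ih =>
    have h1 := ih (by omega) (by omega)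
    have h2 : 2 ^ (16 + (n + 1)) = 2 * 2 ^ (16 + n) := by
      rw [← add_assoc, pow_succ]; ring
    rw [h2]
    omega

/-- The number `J`. -/
theorem exists_J (l : ℕ) (hl : 20 ≤ l) :
    ∃ J : ℕ, 1 ≤ J ∧ J ≤ 2 ^ l ∧ 2 ^ (l - 4) + 2 ≤ 8 * l * J ∧ 2 * l * J + 1 ≤ 2 ^ (l - 5) := by
  have h8 := pow_lb l hl
  set T := 2 ^ (l - 4) with hT
  have hT5 : T = 2 * 2 ^ (l - 5) := by
    rw [hT, ← pow_succ']
    congr 1
    omega
  have hTl : 2 ^ l = 16 * T := by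
    rw [hT, show (16 : ℕ) = 2 ^ 4 by norm_num, ← pow_add]
    congr 1
    omega
  refine ⟨(T + 2) / (8 * l) + 1, Nat.le_add_left 1 _, ?_, ?_, ?_⟩
  · have : (T + 2) / (8 * l) ≤ T + 2 := Nat.div_le_self _ _
    omega
  · have h := Nat.lt_div_mul_add (a := T + 2) (b := 8 * l) (by omega)
    have e : 8 * l * ((T + 2) / (8 * l) + 1) = (T + 2) / (8 * l) * (8 * l) + 8 * l := by ring
    rw [e]
    exact h.le
  · have h := Nat.div_mul_le_self (T + 2) (8 * l)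
    have e : (T + 2) / (8 * l) * (8 * l) = 4 * (2 * l * ((T + 2) / (8 * l))) := by ring
    rw [e] at h
    have e2 : 2 * l * ((T + 2) / (8 * l) + 1) = 2 * l * ((T + 2) / (8 * l)) + 2 * l := by ring
    rw [e2]
    omega

/-- The part between `2 ^ (8 l j)` and `2 ^ (8 l (j + 1))`. -/
theorem part (l j : ℕ) (B : Finset ℕ) (hl : 20 ≤ l) (hj : 1 ≤ j)
    (hc : B.card ≤ 2 ^ (2 * l * (j + 1) + 1)) (hB : ∀ f ∈ B, 2 ^ (8 * l * j) < f) :
    ∑ f ∈ B, (1 : ℝ) / f ≤ 1 / 2 ^ (j + 11) := by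
  have h1 : ∑ f ∈ B, (1 : ℝ) / f ≤ ∑ f ∈ B, (1 : ℝ) / 2 ^ (8 * l * j) := by
    refine sum_le_sum fun f hf => ?_
    have h := hB f hf
    have h' : (2 : ℝ) ^ (8 * l * j) ≤ (f : ℝ) := by
      have : ((2 ^ (8 * l * j) : ℕ) : ℝ) ≤ (f : ℝ) := by exact_mod_cast h.le
      simpa using this
    exact one_div_le_one_div_of_le (by positivity) h'
  have h2 : ∑ f ∈ B, (1 : ℝ) / 2 ^ (8 * l * j) = (B.card : ℝ) * (1 / 2 ^ (8 * l * j)) := by
    rw [sum_const, nsmul_eq_mul]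
  have h3 : (B.card : ℝ) ≤ 2 ^ (2 * l * (j + 1) + 1) := by exact_mod_cast hc
  have h4 : (B.card : ℝ) * (1 / 2 ^ (8 * l * j)) ≤ 2 ^ (2 * l * (j + 1) + 1) * (1 / 2 ^ (8 * l * j)) :=
    mul_le_mul_of_nonneg_right h3 (by positivity)
  have h5 : (2 : ℝ) ^ (2 * l * (j + 1) + 1) * (1 / 2 ^ (8 * l * j)) ≤ 1 / 2 ^ (j + 11) := by
    rw [mul_one_div, div_le_div_iff₀ (by positivity) (by positivity), one_mul, ← pow_add]
    refine pow_le_pow_right₀ (by norm_num) ?_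
    nlinarith [Nat.mul_le_mul hl hj, Nat.mul_le_mul_right j hl, Nat.mul_le_mul_left l hj]
  rw [h2] at h1
  exact h1.trans (h4.trans h5)

/-- The induction over `j`. -/
theorem main_sum (h1 : S_BC1) (h2 : S_BC2) (l : ℕ) (B : Finset ℕ) (hl : 20 ≤ l)
    (hB : ∀ f ∈ B, BadC l f ∧ 2 ^ 17 * l < f) (j : ℕ) (hj : j + 1 ≤ 2 ^ l) :
    ∑ f ∈ B.filter (fun f => f ≤ 2 ^ (8 * l * (j + 1))), (1 : ℝ) / f ≤
      1280 / 2 ^ 17 + 1 / 2 ^ 11 * (1 - 1 / 2 ^ j) := by
  have hl0 : (0 : ℝ) < l := by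
    have : 0 < l := by omega
    exact_mod_cast this
  induction j with
  | zero =>
    have hc : (B.filter (fun f => f ≤ 2 ^ (8 * l * (0 + 1)))).card ≤ 1280 * l := by
      refine h1 l _ hl fun f hf => ?_
      rw [mem_filter] at hf
      have := hB f hf.1
      refine ⟨this.1, ?_, ?_⟩
      · have := this.2
        omega
      · simpa using hf.2
    have hs : ∑ f ∈ B.filter (fun f => f ≤ 2 ^ (8 * l * (0 + 1))), (1 : ℝ) / f ≤
        ∑ f ∈ B.filter (fun f => f ≤ 2 ^ (8 * l * (0 + 1))), (1 : ℝ) / (2 ^ 17 * l) := by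
      refine sum_le_sum fun f hf => ?_
      rw [mem_filter] at hf
      have h := (hB f hf.1).2
      have h' : (2 : ℝ) ^ 17 * l ≤ (f : ℝ) := by
        have : ((2 ^ 17 * l : ℕ) : ℝ) ≤ (f : ℝ) := by exact_mod_cast h.le
        push_cast at this
        linarith
      exact one_div_le_one_div_of_le (by positivity) h'
    rw [sum_const, nsmul_eq_mul] at hs
    have h3 : ((B.filter (fun f => f ≤ 2 ^ (8 * l * (0 + 1)))).card : ℝ) ≤ 1280 * l := by
      exact_mod_cast hc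
    have h4 := mul_le_mul_of_nonneg_right h3
      (show (0 : ℝ) ≤ 1 / (2 ^ 17 * (l : ℝ)) by positivity)
    have h5 : 1280 * (l : ℝ) * (1 / (2 ^ 17 * (l : ℝ))) = 1280 / 2 ^ 17 := by
      field_simp
    rw [h5] at h4
    have h6 : (1 : ℝ) / 2 ^ 11 * (1 - 1 / 2 ^ 0) = 0 := by norm_num
    rw [h6, add_zero]
    exact hs.trans h4
  | succ j ih =>
    have ih' := ih (by omega)
    have hsplit : B.filter (fun f => f ≤ 2 ^ (8 * l * (j + 1 + 1))) ⊆
        B.filter (fun f => f ≤ 2 ^ (8 * l * (j + 1))) ∪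
        B.filter (fun f => 2 ^ (8 * l * (j + 1)) < f ∧ f ≤ 2 ^ (8 * l * (j + 1 + 1))) := by
      intro f hf
      rw [mem_filter] at hf
      rw [mem_union, mem_filter, mem_filter]
      rcases Nat.lt_or_ge (2 ^ (8 * l * (j + 1))) f with h | h
      · exact Or.inr ⟨hf.1, h, hf.2⟩
      · exact Or.inl ⟨hf.1, h⟩
    have hdisj : Disjoint (B.filter (fun f => f ≤ 2 ^ (8 * l * (j + 1))))
        (B.filter (fun f => 2 ^ (8 * l * (j + 1)) < f ∧ f ≤ 2 ^ (8 * l * (j + 1 + 1)))) := by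
      rw [Finset.disjoint_left]
      intro f hf hf'
      rw [mem_filter] at hf hf'
      exact absurd hf.2 (not_le.mpr hf'.2.1)
    have hp : ∑ f ∈ B.filter (fun f => 2 ^ (8 * l * (j + 1)) < f ∧ f ≤ 2 ^ (8 * l * (j + 1 + 1))),
        (1 : ℝ) / f ≤ 1 / 2 ^ (j + 1 + 11) := by
      refine part l (j + 1) _ hl (by omega) ?_ ?_
      · refine h2 l (j + 1 + 1) _ hl (by omega) (by omega) fun f hf => ?_
        rw [mem_filter] at hf
        have := hB f hf.1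
        refine ⟨this.1, ?_, hf.2.2⟩
        have := this.2
        omega
      · intro f hf
        rw [mem_filter] at hf
        exact hf.2.1
    have hle := sum_le_sum_of_subset_of_nonneg hsplit
      (f := fun f : ℕ => (1 : ℝ) / f) (fun f _ _ => by positivity)
    rw [sum_union hdisj] at hle
    have e1 : (1 : ℝ) / 2 ^ (j + 1 + 11) = 1 / 2 ^ 11 * (1 / 2 ^ (j + 1)) := by
      rw [pow_add]
      field_simp
    have e2 : (1 : ℝ) / 2 ^ j = 2 * (1 / 2 ^ (j + 1)) := by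
      rw [pow_succ]
      field_simp
    rw [e1] at hp
    rw [e2] at ih'
    set y := (1 : ℝ) / 2 ^ (j + 1)
    have : (1 : ℝ) / 2 ^ 11 * (1 - 2 * y) + 1 / 2 ^ 11 * y = 1 / 2 ^ 11 * (1 - y) := by ring
    linarith

end Pool.Agent.UFL.SUMFAux

namespace Pool.Agent.UFL

open Finset

theorem t_SUMF (h1 : S_BC1) (h2 : S_BC2) : S_SUMF := by
  intro l B hl hB
  obtain ⟨J, hJ1, hJ2, hJ3, hJ4⟩ := SUMFAux.exists_J l hl
  have hle : ∀ f ∈ B, f ≤ 2 ^ (8 * l * J) := fun f hf =>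
    (hB f hf).2.2.trans (Nat.pow_le_pow_right (by norm_num) hJ3)
  constructor
  · have hm := SUMFAux.main_sum h1 h2 l B hl (fun f hf => ⟨(hB f hf).1, (hB f hf).2.1⟩) (J - 1)
      (by omega)
    have e : J - 1 + 1 = J := by omega
    rw [e] at hm
    have hf : B.filter (fun f => f ≤ 2 ^ (8 * l * J)) = B := by
      rw [filter_true_of_mem hle]
    rw [hf] at hm
    have hpos : (0 : ℝ) < 1 / 2 ^ (J - 1) := by positivity
    have : (1280 : ℝ) / 2 ^ 17 + 1 / 2 ^ 11 * (1 - 1 / 2 ^ (J - 1)) ≤ 1 / 64 := by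
      have : (1 : ℝ) / 2 ^ 11 * (1 - 1 / 2 ^ (J - 1)) ≤ 1 / 2 ^ 11 := by
        nlinarith
      have h' : (1280 : ℝ) / 2 ^ 17 + 1 / 2 ^ 11 ≤ 1 / 64 := by norm_num
      linarith
    exact hm.trans this
  · have hc := h2 l J B hl hJ1 hJ2 (fun f hf => ⟨(hB f hf).1, by
      have := (hB f hf).2.1
      omega, hle f hf⟩)
    exact hc.trans (Nat.pow_le_pow_right (by norm_num) hJ4)

end Pool.Agent.UFL
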