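import Mathlib
import Pool.Agent.UFL.St3

/-!
Module UFL_UP3 (helper91): upper bound for the number of ordered solutions.
-/

set_option autoImplicit false

namespace Pool.Agent.UFL

open Finset

/-- A set of `t` positive integers gives an ordered solution. -/
theorem UP3_sol_of_set (q : ℚ) (t : ℕ) (S : Finset ℕ) (hc : S.card = t)
    (hp : ∀ x ∈ S, 0 < x) (hs : ∑ x ∈ S, (1 : ℚ) / (x : ℚ) = q) : ∃ y, y ∈ Sol q t := by
  refine ⟨fun i => S.orderEmbOfFin hc i, ?_, ?_⟩
  · intro i
    exact hp _ (Finset.orderEmbOfFin_mem S hc i)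
  · rw [← hs]
    have himg : Finset.univ.map (S.orderEmbOfFin hc).toEmbedding = S := by
      ext x
      simp only [Finset.mem_map, Finset.mem_univ, true_and, RelEmbedding.coe_toEmbedding]
      constructor
      · rintro ⟨i, rfl⟩
        exact Finset.orderEmbOfFin_mem S hc i
      · intro hx
        have := Finset.range_orderEmbOfFin S hc
        have hx' : x ∈ Set.range (S.orderEmbOfFin hc) := by
          rw [this]; exact hx
        exact hx'
    conv_rhs => rw [← himg]
    rw [Finset.sum_map]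
    rfl

theorem t_UP3 (hM : S_MAIN2D) (hF : S_FIN) (hU : S_UPB) : S_UP3 := by
  obtain ⟨t1, h1⟩ := hM
  obtain ⟨t2, h2⟩ := hU
  refine ⟨max t1 t2, ?_⟩
  intro t ht a b ha hab hb
  have ht1 : t1 ≤ t := le_trans (le_max_left _ _) ht
  have ht2 : t2 ≤ t := le_trans (le_max_right _ _) ht
  have htr : (0 : ℝ) ≤ (t : ℝ) := Nat.cast_nonneg t
  have hb0 : (b : ℚ) ≠ 0 := by
    have : 0 < b := lt_of_lt_of_le ha hab
    exact_mod_cast this.ne'
  rcases hab.eq_or_lt with hEq | hlt
  · subst hEq
    have hq : (a : ℚ) / (a : ℚ) = 1 := div_self hb0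
    rw [hq]
    refine le_trans (h2 t ht2).1 ?_
    apply Real.exp_le_exp.mpr
    apply Real.exp_le_exp.mpr
    linarith
  · have hba1 : 1 ≤ b - a := by omega
    have hba2 : b - a < b := by omega
    have hb' : (b : ℝ) ≤ Real.exp (Real.exp ((t : ℝ) / 40000)) := by
      refine le_trans hb ?_
      apply Real.exp_le_exp.mpr
      apply Real.exp_le_exp.mpr
      apply div_le_div_of_nonneg_left htr (by norm_num) (by norm_num)
    obtain ⟨K, hK, F, hFm, hFc⟩ := h1 t ht1 (b - a) b ∅ hba1 hba2 hb'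
      (by simp only [Finset.card_empty, Nat.cast_zero]; positivity) (by simp)
    have hK1 : 0 < K := by
      have : (0 : ℝ) < (K : ℝ) := lt_of_lt_of_le (Real.exp_pos _) hK
      exact_mod_cast this
    have hne : F.Nonempty := Finset.card_pos.mp (lt_of_lt_of_le hK1 hFc)
    obtain ⟨S, hS⟩ := hne
    obtain ⟨hSc, _, hSp, _, hSs⟩ := hFm S hS
    have hq : ((b - a : ℕ) : ℚ) / (b : ℚ) = 1 - (a : ℚ) / (b : ℚ) := by
      rw [Nat.cast_sub hab, sub_div, div_self hb0]
    have hex := UP3_sol_of_set (1 - (a : ℚ) / (b : ℚ)) t S hSc hSp (by rw [hSs, hq])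
    have h3 := hF.2 ((a : ℚ) / (b : ℚ)) t t hex
    have h4 := (h2 (t + t) (by omega)).1
    have h5 : (((Sol ((a : ℚ) / b) t).ncard : ℕ) : ℝ) ≤ ((Sol 1 (t + t)).ncard : ℝ) := by
      exact_mod_cast h3
    refine le_trans h5 (le_trans h4 ?_)
    apply le_of_eq
    congr 2
    push_cast
    ring

end Pool.Agent.UFL
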