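import Pool.Agent.UFL.St
import Pool.Agent.Lib_helper63.EF.UB

/-!
# UFL, module UPB: upper bounds (helper81)
-/

set_option autoImplicit false

namespace Pool.Agent.UFL

open Pool.Agent.Lib_helper83.EF

theorem sol_one_eq (t : ℕ) : Sol 1 t = OSol t := rfl

theorem t_UPB : S_UPB := by
  obtain ⟨t₁, h₁⟩ := Pool.Agent.Lib_helper63.EF.ub.2
  obtain ⟨t₂, h₂⟩ := Pool.Agent.Lib_helper63.EF.eventually_bound
  refine ⟨max (max t₁ t₂) 1, fun t ht => ?_⟩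
  have a1 : t₁ ≤ t := (le_max_left _ _).trans ((le_max_left _ _).trans ht)
  have a2 : t₂ ≤ t := (le_max_right _ _).trans ((le_max_left _ _).trans ht)
  have a3 : 1 ≤ t := (le_max_right _ _).trans ht
  have ht0 : (0 : ℝ) < t := by exact_mod_cast a3
  have ht1 : (1 : ℝ) ≤ t := by exact_mod_cast a3
  refine ⟨h₁ t a1, fun x hx i => ?_⟩
  have h3 : x i ≤ t ^ (2 ^ t - 1) := Pool.Agent.Lib_helper63.EF.entry_le hx i
  have h4 : (x i : ℝ) ≤ (t : ℝ) ^ (2 ^ t - 1) := by exact_mod_cast h3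
  have h5 : (t : ℝ) ^ (2 ^ t - 1) ≤ (t : ℝ) ^ (2 ^ t) :=
    pow_le_pow_right₀ ht1 (Nat.sub_le _ _)
  refine (h4.trans h5).trans ?_
  have h6 : (t : ℝ) ^ (2 ^ t) = Real.exp (((2 ^ t : ℕ) : ℝ) * Real.log t) := by
    rw [Real.exp_nat_mul, Real.exp_log ht0]
  rw [h6]
  apply Real.exp_le_exp.2
  refine le_trans ?_ (h₂ t a2)
  have h7 : Real.log t ≤ t := (Real.log_le_sub_one_of_pos ht0).trans (by linarith)
  have h8 : (t : ℝ) ≤ (t : ℝ) ^ 2 := by nlinarith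
  push_cast
  calc (2 : ℝ) ^ t * Real.log t ≤ (2 : ℝ) ^ t * (t : ℝ) ^ 2 := by
        gcongr
        exact h7.trans h8
    _ = (t : ℝ) ^ 2 * 2 ^ t := by ring

end Pool.Agent.UFL
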