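import Pool.Agent.UFL.St

set_option autoImplicit false

/-!
# Module WLE: the modulus is small
-/

namespace Pool.Agent.UFL

theorem wle_aux (k : ℕ) : (17 + (40 + k)) * (2 ^ 17 * (40 + k)) ≤ 2 ^ (34 + k) := by
  induction k with
  | zero => norm_num
  | succ k ih =>
    have h : 2 ^ (34 + (k + 1)) = 2 * 2 ^ (34 + k) := by
      rw [show 34 + (k + 1) = (34 + k) + 1 by ring, pow_succ]
      ring
    rw [h]
    have h2 : (17 + (40 + (k + 1))) * (2 ^ 17 * (40 + (k + 1))) ≤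
        2 * ((17 + (40 + k)) * (2 ^ 17 * (40 + k))) := by
      have h3 : (17 + (40 + (k + 1))) * (40 + (k + 1)) ≤ 2 * ((17 + (40 + k)) * (40 + k)) := by
        nlinarith
      calc (17 + (40 + (k + 1))) * (2 ^ 17 * (40 + (k + 1)))
          = 2 ^ 17 * ((17 + (40 + (k + 1))) * (40 + (k + 1))) := by ring
        _ ≤ 2 ^ 17 * (2 * ((17 + (40 + k)) * (40 + k))) := Nat.mul_le_mul_left _ h3
        _ = 2 * ((17 + (40 + k)) * (2 ^ 17 * (40 + k))) := by ring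
    omega

theorem t_WLE : S_WLE := by
  refine ⟨40, fun l hl => ⟨by omega, ?_⟩⟩
  obtain ⟨k, rfl⟩ : ∃ k, l = 40 + k := ⟨l - 40, by omega⟩
  have h1 : 2 ^ 17 * (40 + k) ≤ 2 ^ (17 + (40 + k)) := by
    rw [pow_add]
    exact Nat.mul_le_mul_left _ (Nat.lt_two_pow_self).le
  calc WW (40 + k) ≤ (2 ^ 17 * (40 + k)) ^ (2 ^ 17 * (40 + k)) := Nat.factorial_le_pow _
    _ ≤ (2 ^ (17 + (40 + k))) ^ (2 ^ 17 * (40 + k)) := Nat.pow_le_pow_left h1 _
    _ = 2 ^ ((17 + (40 + k)) * (2 ^ 17 * (40 + k))) := by rw [← pow_mul]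
    _ ≤ 2 ^ 2 ^ (34 + k) := Nat.pow_le_pow_right (by norm_num) (wle_aux k)
    _ = 2 ^ 2 ^ (40 + k - 6) := by rw [show 40 + k - 6 = 34 + k by omega]

end Pool.Agent.UFL
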