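import Pool.Agent.UFL.PC
import Pool.Agent.UFL.AVG
import Pool.Agent.UFL.MEN
import Pool.Agent.UFL.MORT
import Pool.Agent.UFL.MLS
import Pool.Agent.UFL.MBC1
import Pool.Agent.UFL.MBC2
import Pool.Agent.UFL.MSUMF
import Pool.Agent.UFL.MBADN
import Pool.Agent.UFL.MCNT
import Pool.Agent.UFL.MWLE
import Pool.Agent.UFL.MCLS
import Pool.Agent.UFL.MNICE2
import Pool.Agent.UFL.MEXI2
import Pool.Agent.UFL.MSUR2
import Pool.Agent.UFL.MENG2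
import Pool.Agent.UFL.MDIG2
import Pool.Agent.UFL.MGRE2
import Pool.Agent.UFL.MSPL2
import Pool.Agent.UFL.MMUL2
import Pool.Agent.UFL.MMAIN1D
import Pool.Agent.UFL.MMAIN2D
import Pool.Agent.UFL.MBRG3
import Pool.Agent.UFL.MFIN
import Pool.Agent.UFL.MUPB
import Pool.Agent.UFL.MPRE3
import Pool.Agent.UFL.MUP3
import Pool.Agent.UFL.MERD2
import Pool.Agent.UFL.MINJ
import Pool.Agent.UFL.MCMP

/-!
Assembly of the modules for MP_dcc108_nt (helper41).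
-/

set_option autoImplicit false

namespace Pool.Agent.UFL

theorem asm_LS : S_LS := t_LS t_EN t_ORT

theorem asm_SUMF : S_SUMF := t_SUMF (t_BC1 asm_LS t_PC) (t_BC2 asm_LS t_PC)

theorem asm_CLS : S_CLS := t_CLS asm_SUMF (t_BADN t_PC) t_CNT t_WLE

theorem asm_ENG2 : S_ENG2 :=
  t_ENG2 (t_SUR2 asm_CLS (t_EXI2 t_PC t_NICE2 t_AVG) t_CNT t_WLE) t_WLE

theorem asm_MAIN1D : S_MAIN1D := t_MAIN1D asm_ENG2 t_DIG2 t_GRE2 t_SPL2 t_MUL2

theorem asm_MAIN2D : S_MAIN2D := t_MAIN2D asm_MAIN1D t_SPL2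

theorem asm_ERD : S_ERD := t_ERD2 asm_MAIN2D

theorem asm_PRE3 : S_PRE3 := t_PRE3 asm_MAIN2D t_BRG3 t_FIN

theorem asm_UP3 : S_UP3 := t_UP3 asm_MAIN2D t_FIN t_UPB

theorem asm_CMP : S_CMP := t_CMP asm_ERD t_INJ t_FIN

end Pool.Agent.UFL
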