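import Pool.Agent.UFL.St

set_option autoImplicit false

/-!
# The number of unit fractions for `a / b` is at most a constant times `log (log b)`
-/

namespace Pool.Agent.UFL

theorem erd_uf_of_cnt {q : ℚ} {t K : ℕ} (hK : 1 ≤ K) (h : Cnt q t K) : UF t q := by
  obtain ⟨F, hF, hc⟩ := h
  obtain ⟨s, hs⟩ : F.Nonempty := Finset.card_pos.mp (by omega)
  obtain ⟨h1, h2, h3⟩ := hF s hs
  exact ⟨s, h1.le, h2, h3⟩

/-- For every `b ≥ 3` there is `l ≥ l₀` with `b ≤ 2 ^ 2 ^ l` and `l` at most a constant times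
`log (log b)`. -/
theorem erd_level (l₀ : ℕ) : ∃ C : ℝ, ∀ b : ℕ, 3 ≤ b → ∃ l : ℕ, l₀ ≤ l ∧ b ≤ 2 ^ 2 ^ l ∧
    (l : ℝ) ≤ C * Real.log (Real.log b) := by
  have h3 : 1 < Real.log 3 := by
    rw [Real.lt_log_iff_exp_lt (by norm_num)]
    exact lt_trans Real.exp_one_lt_d9 (by norm_num)
  have hδ : 0 < Real.log (Real.log 3) := Real.log_pos h3
  have h2 : 0 < Real.log 2 := Real.log_pos (by norm_num)
  set δ := Real.log (Real.log 3) with hδd
  set K : ℝ := (l₀ : ℝ) + 1 - Real.log (Real.log 2) / Real.log 2 with hK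
  refine ⟨|K| / δ + 1 / Real.log 2, fun b hb => ?_⟩
  have hb3 : (3 : ℝ) ≤ b := by exact_mod_cast hb
  have hlog : Real.log 3 ≤ Real.log b := Real.log_le_log (by norm_num) hb3
  have hlogb : 0 < Real.log b := by linarith
  have hL : δ ≤ Real.log (Real.log b) := Real.log_le_log (by linarith) hlog
  have hbpos : (0 : ℝ) < b := by linarith
  have hlb : 1 < Real.logb 2 b := by
    rw [Real.lt_logb_iff_rpow_lt (by norm_num) hbpos]
    norm_num
    linarith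
  have hlb0 : 0 < Real.logb 2 b := by linarith
  set y : ℝ := Real.logb 2 (Real.logb 2 b) with hy
  have hy0 : 0 ≤ y := (Real.logb_pos (by norm_num) hlb).le
  have h4 : Real.logb 2 b ≤ (2 : ℝ) ^ (⌈y⌉₊ : ℝ) :=
    (Real.logb_le_iff_le_rpow (by norm_num) hlb0).mp (Nat.le_ceil y)
  have h5 : (b : ℝ) ≤ (2 : ℝ) ^ ((2 : ℝ) ^ (⌈y⌉₊ : ℝ)) :=
    (Real.logb_le_iff_le_rpow (by norm_num) hbpos).mp h4
  have h6 : b ≤ 2 ^ 2 ^ ⌈y⌉₊ := by
    have h7 : ((2 : ℝ) ^ ((2 : ℝ) ^ (⌈y⌉₊ : ℝ))) = ((2 ^ 2 ^ ⌈y⌉₊ : ℕ) : ℝ) := by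
      rw [Real.rpow_natCast]
      have h8 : ((2 : ℝ) ^ ⌈y⌉₊) = ((2 ^ ⌈y⌉₊ : ℕ) : ℝ) := by push_cast; rfl
      rw [h8, Real.rpow_natCast]
      push_cast
      rfl
    rw [h7] at h5
    exact_mod_cast h5
  refine ⟨l₀ + ⌈y⌉₊, Nat.le_add_right _ _, h6.trans ?_, ?_⟩
  · exact Nat.pow_le_pow_right (by norm_num)
      (Nat.pow_le_pow_right (by norm_num) (Nat.le_add_left _ _))
  · have h9 : (⌈y⌉₊ : ℝ) ≤ y + 1 := (Nat.ceil_lt_add_one hy0).le
    have h10 : y = (Real.log (Real.log b) - Real.log (Real.log 2)) / Real.log 2 := by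
      rw [hy, Real.logb, Real.logb, Real.log_div hlogb.ne' h2.ne']
    have h11 : |K| ≤ |K| / δ * Real.log (Real.log b) := by
      rw [div_mul_eq_mul_div, le_div_iff₀ hδ]
      exact mul_le_mul_of_nonneg_left hL (abs_nonneg K)
    have h12 : K ≤ |K| := le_abs_self K
    have h13 : (l₀ : ℝ) + (y + 1) = K + 1 / Real.log 2 * Real.log (Real.log b) := by
      rw [hK, h10]
      ring
    push_cast
    calc (l₀ : ℝ) + (⌈y⌉₊ : ℝ) ≤ (l₀ : ℝ) + (y + 1) := by linarith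
      _ = K + 1 / Real.log 2 * Real.log (Real.log b) := h13
      _ ≤ |K| / δ * Real.log (Real.log b) + 1 / Real.log 2 * Real.log (Real.log b) := by linarith
      _ = (|K| / δ + 1 / Real.log 2) * Real.log (Real.log b) := by ring

/-- **ERD**.  Every rational number `a / b` in `(0, 1)`, `b ≥ 3`, is a sum of at most `C log log b` unit
fractions. -/
theorem ERD (h : S_MAIN1) : ∃ C : ℝ, ∀ a b : ℕ, 1 ≤ a → a < b → 3 ≤ b →
    ∃ t : ℕ, (t : ℝ) ≤ C * Real.log (Real.log b) ∧ UF t ((a : ℚ) / b) := by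
  obtain ⟨l₀, hl₀⟩ := h
  obtain ⟨C, hC⟩ := erd_level l₀
  refine ⟨17000 * C, fun a b ha hab hb => ?_⟩
  obtain ⟨l, hl, hbl, hlC⟩ := hC b hb
  refine ⟨17000 * l, ?_, erd_uf_of_cnt Nat.one_le_two_pow (hl₀ l hl a b ha hab hbl)⟩
  push_cast
  nlinarith

end Pool.Agent.UFL
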