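import Pool.Agent.UFL.ERD
import Pool.Agent.UFL.DST

set_option autoImplicit false

/-!
# Distinct denominators: the number of distinct unit fractions for `a / b`
-/

namespace Pool.Agent.UFL

/-- Every rational number `a / b` in `(0, 1)`, `b ≥ 3`, is a sum of at most `C log log b` distinct unit
fractions. -/
theorem ERD_distinct (h : S_MAIN1) : ∃ C : ℝ, ∀ a b : ℕ, 1 ≤ a → a < b → 3 ≤ b →
    ∃ D : Finset ℕ, (∀ d ∈ D, 0 < d) ∧ (D.card : ℝ) ≤ C * Real.log (Real.log b) ∧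
      (a : ℚ) / b = ∑ d ∈ D, (1 : ℚ) / (d : ℚ) := by
  obtain ⟨C, hC⟩ := ERD h
  refine ⟨C, fun a b ha hab hb => ?_⟩
  obtain ⟨t, ht, hu⟩ := hC a b ha hab hb
  have hlt : (a : ℚ) / b < 1 := by
    rw [div_lt_one (by exact_mod_cast (by omega : 0 < b))]
    exact_mod_cast hab
  obtain ⟨D, h1, h2, h3⟩ := DST ((a : ℚ) / b) t hlt hu
  exact ⟨D, h2, le_trans (by exact_mod_cast h1) ht, h3.symm⟩

end Pool.Agent.UFL
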