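import Mathlib
import Pool.Agent.UFL.St2

/-! Module UFL_BRG2 (helper55): sets and strictly increasing tuples. -/

set_option autoImplicit false

namespace Pool.Agent.UFL

open Finset

/-- The increasing tuple of a set. -/
noncomputable def brg2_tup (t : ℕ) (S : Finset ℕ) : Fin t → ℕ :=
  fun i => if h : S.card = t then S.orderEmbOfFin h i else 0

theorem brg2_eq {t : ℕ} {S : Finset ℕ} (h : S.card = t) : brg2_tup t S = S.orderEmbOfFin h := by
  funext i
  exact dif_pos h

theorem brg2_range {t : ℕ} {S : Finset ℕ} (h : S.card = t) :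
    Set.range (brg2_tup t S) = (S : Set ℕ) := by
  rw [brg2_eq h]
  exact Finset.range_orderEmbOfFin S h

theorem brg2_mono {t : ℕ} {S : Finset ℕ} (h : S.card = t) : StrictMono (brg2_tup t S) := by
  rw [brg2_eq h]
  exact (S.orderEmbOfFin h).strictMono

theorem brg2_sum {t : ℕ} {S : Finset ℕ} (h : S.card = t) :
    ∑ i, (1 : ℚ) / (brg2_tup t S i : ℚ) = ∑ x ∈ S, (1 : ℚ) / (x : ℚ) := by
  classical
  have h1 : S = (Finset.univ : Finset (Fin t)).image (brg2_tup t S) := by
    apply Finset.coe_injective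
    rw [Finset.coe_image, Finset.coe_univ, Set.image_univ, brg2_range h]
  conv_rhs => rw [h1]
  rw [Finset.sum_image fun i _ j _ hij => (brg2_mono h).injective hij]

theorem t_BRG2 : S_BRG2 := by
  classical
  intro q t K A F hfin hF hK
  have hinj : Set.InjOn (brg2_tup t) (F : Set (Finset ℕ)) := by
    intro s hs s' hs' h
    apply Finset.coe_injective
    rw [← brg2_range (hF s hs).1, ← brg2_range (hF s' hs').1, h]
  have hsub : ((F.image (brg2_tup t) : Finset (Fin t → ℕ)) : Set (Fin t → ℕ)) ⊆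
      {x ∈ Sol q t | StrictMono x ∧ ∀ n ∈ A, ∃ i, x i = n} := by
    intro x hx
    rw [Finset.mem_coe, Finset.mem_image] at hx
    obtain ⟨s, hs, rfl⟩ := hx
    obtain ⟨hc, hpos, hrs, hA⟩ := hF s hs
    refine ⟨⟨?_, ?_⟩, brg2_mono hc, ?_⟩
    · intro i
      have h1 : brg2_tup t s i ∈ Set.range (brg2_tup t s) := ⟨i, rfl⟩
      rw [brg2_range hc] at h1
      exact hpos _ (Finset.mem_coe.1 h1)
    · rw [brg2_sum hc, hrs]
    · intro n hn
      have h1 : n ∈ Set.range (brg2_tup t s) := by
        rw [brg2_range hc]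
        exact Finset.mem_coe.2 (hA hn)
      exact h1
  have hfin' : {x ∈ Sol q t | StrictMono x ∧ ∀ n ∈ A, ∃ i, x i = n}.Finite :=
    hfin.subset fun x hx => hx.1
  calc K ≤ F.card := hK
    _ = (F.image (brg2_tup t)).card := (Finset.card_image_of_injOn hinj).symm
    _ = ((F.image (brg2_tup t) : Finset (Fin t → ℕ)) : Set (Fin t → ℕ)).ncard :=
        (Set.ncard_coe_finset _).symm
    _ ≤ _ := Set.ncard_le_ncard hsub hfin'

end Pool.Agent.UFL
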