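import Mathlib
import Pool.Agent.UFL.St

/-!
# DIG: digits
-/

set_option autoImplicit false

namespace Pool.Agent.UFL

namespace DIG

theorem uf_zero (k : ℕ) : UF k 0 := ⟨0, by simp, by simp, by simp [rs]⟩

theorem uf_add {k k' : ℕ} {q q' : ℚ} (h : UF k q) (h' : UF k' q') : UF (k + k') (q + q') := by
  obtain ⟨s, h1, h2, h3⟩ := h
  obtain ⟨s', h1', h2', h3'⟩ := h'
  refine ⟨s + s', ?_, ?_, ?_⟩
  · rw [Multiset.card_add]
    omega
  · intro x hx
    rcases Multiset.mem_add.1 hx with hx | hx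
    · exact h2 x hx
    · exact h2' x hx
  · rw [← h3, ← h3']
    simp [rs]

end DIG

open DIG in
/-- Digits: a number below `2 ^ (d (e + 1))` in base `2 ^ d`. -/
theorem t_DIG : S_DIG := by
  intro Q d hQ h e
  induction e with
  | zero =>
    intro x z hx hz
    rcases Nat.eq_zero_or_pos x with rfl | hx0
    · simpa using uf_zero 4
    · have h1 := h x z hx0 (by simpa using hx.le) hz
      simpa using h1
  | succ e ih =>
    intro x z hx hz
    have hp : 0 < 2 ^ (d * (e + 1)) := by positivity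
    have hm : x / 2 ^ (d * (e + 1)) < 2 ^ d := by
      rw [Nat.div_lt_iff_lt_mul hp, ← pow_add]
      have e1 : d + d * (e + 1) = d * (e + 1 + 1) := by ring
      rw [e1]
      exact hx
    have hr : x % 2 ^ (d * (e + 1)) < 2 ^ (d * (e + 1)) := Nat.mod_lt _ hp
    have h2 := ih (x % 2 ^ (d * (e + 1))) (2 ^ d * z) hr
      (Nat.one_le_iff_ne_zero.2 (by positivity))
    have h1 : UF 4 (((x / 2 ^ (d * (e + 1)) : ℕ) : ℚ) / ((Q : ℚ) * z)) := by
      rcases Nat.eq_zero_or_pos (x / 2 ^ (d * (e + 1))) with h0 | h0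
      · rw [h0]
        simpa using uf_zero 4
      · exact h _ z h0 hm.le hz
    have h3 := uf_add h1 h2
    have e2 : 4 + 4 * (e + 1) = 4 * (e + 1 + 1) := by ring
    rw [e2] at h3
    convert h3 using 1
    have hQ' : (Q : ℚ) ≠ 0 := by
      have : Q ≠ 0 := by omega
      exact_mod_cast this
    have hz' : (z : ℚ) ≠ 0 := by
      have : z ≠ 0 := by omega
      exact_mod_cast this
    have hx' : (x : ℚ) = ((2 : ℚ) ^ (d * (e + 1))) * ((x / 2 ^ (d * (e + 1)) : ℕ) : ℚ) +
        ((x % 2 ^ (d * (e + 1)) : ℕ) : ℚ) := by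
      have := Nat.div_add_mod x (2 ^ (d * (e + 1)))
      exact_mod_cast this.symm
    have e3 : (2 : ℚ) ^ (d * (e + 1)) = (2 : ℚ) ^ (d * e) * (2 : ℚ) ^ d := by
      rw [← pow_add]
      congr 1
    generalize hA : ((x / 2 ^ (d * (e + 1)) : ℕ) : ℚ) = A at *
    generalize hB : ((x % 2 ^ (d * (e + 1)) : ℕ) : ℚ) = B at *
    rw [hx', e3]
    push_cast
    have h2d : (2 : ℚ) ^ d ≠ 0 := by positivity
    have h2de : (2 : ℚ) ^ (d * e) ≠ 0 := by positivity
    field_simp

end Pool.Agent.UFL
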