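import Pool.Agent.UFL.St

/-!
The engine (MP_dcc108_nt, module `UFL_ENG`): all `x / (Q z)` with `x` up to `2 ^ 2 ^ (l - 5)` are sums of at most
four unit fractions.
-/

set_option autoImplicit false

namespace Pool.Agent.UFL

open Finset

namespace Eng

theorem rs_pair (a b : ℕ) : rs {a, b} = 1 / (a : ℚ) + 1 / (b : ℚ) := by
  simp [rs]

theorem rs_add (s t : Multiset ℕ) : rs (s + t) = rs s + rs t := by
  simp [rs]

/-- A nice number over `Q z` is a sum of two unit fractions. -/
theorem nice_uf {w : ℕ} (q : Fin w → ℕ) (hq : ∀ i, 0 < q i) (n z : ℕ) (hn : 1 ≤ n) (hz : 1 ≤ z)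
    (h : Nice q n) : ∃ s : Multiset ℕ, Multiset.card s = 2 ∧ (∀ x ∈ s, 0 < x) ∧
      rs s = (n : ℚ) / (((∏ i, q i : ℕ) : ℚ) * z) := by
  obtain ⟨S, m, hm⟩ := h
  have hv : (∏ i, q i) = (∏ i ∈ S, q i) * ∏ i ∈ Sᶜ, q i := (Finset.prod_mul_prod_compl S q).symm
  have hu1 : 0 < ∏ i ∈ S, q i := Finset.prod_pos fun i _ => hq i
  have hv1 : 0 < ∏ i ∈ Sᶜ, q i := Finset.prod_pos fun i _ => hq i
  generalize (∏ i ∈ S, q i) = u at *
  generalize (∏ i ∈ Sᶜ, q i) = v at *
  rw [hv]
  have hm1 : 0 < m := by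
    rcases Nat.eq_zero_or_pos m with h0 | h0
    · rw [h0, mul_zero] at hm; omega
    · exact h0
  refine ⟨{v * z * m, u * v * z * m}, by simp, ?_, ?_⟩
  · intro x hx
    simp only [Multiset.insert_eq_cons, Multiset.mem_cons, Multiset.mem_singleton] at hx
    rcases hx with rfl | rfl <;> positivity
  · rw [rs_pair]
    push_cast
    have h1 : (u : ℚ) + 1 = n * m := by exact_mod_cast hm
    have hu' : (u : ℚ) ≠ 0 := by positivity
    have hv' : (v : ℚ) ≠ 0 := by positivity
    have hm' : (m : ℚ) ≠ 0 := by positivity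
    have hz' : (z : ℚ) ≠ 0 := by positivity
    field_simp
    linear_combination h1

/-- Among the splittings `T = a + b` with `a` congruent to 1 and `b` to -1 there is one with both parts nice. -/
theorem split {w : ℕ} (q : Fin w → ℕ) (W N J : ℕ) (hW : 2 ≤ W) (hN : 1 ≤ N) (hJ : W * J ≤ 3 * N)
    (hJ2 : 2 * N ≤ W * J)
    (h : 4 * W * Set.ncard {n : ℕ | n ≤ 3 * N ∧ (n % W = 1 ∨ n % W = W - 1) ∧ ¬ Nice q n} ≤ N) :
    ∃ a b : ℕ, 1 ≤ a ∧ 1 ≤ b ∧ a + b = W * J ∧ Nice q a ∧ Nice q b := by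
  classical
  set B : Set ℕ := {n : ℕ | n ≤ 3 * N ∧ (n % W = 1 ∨ n % W = W - 1) ∧ ¬ Nice q n} with hB
  have hfin : B.Finite := (Set.finite_Iic (3 * N)).subset fun n hn => hn.1
  by_contra hcon
  push Not at hcon
  have hlt : ∀ j ∈ range J, 1 + W * j < W * J := by
    intro j hj
    have hj' : j + 1 ≤ J := Finset.mem_range.1 hj
    calc 1 + W * j < W * (j + 1) := by rw [mul_add, mul_one]; omega
      _ ≤ W * J := Nat.mul_le_mul_left _ hj'
  have hor : ∀ j ∈ range J, 1 + W * j ∈ B ∨ W * J - (1 + W * j) ∈ B := by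
    intro j hj
    have h1 := hlt j hj
    by_cases ha : Nice q (1 + W * j)
    · right
      refine ⟨by omega, Or.inr ?_, hcon _ _ (by omega) (by omega) (by omega) ha⟩
      have hj' : j + 1 ≤ J := Finset.mem_range.1 hj
      obtain ⟨r, rfl⟩ := Nat.exists_eq_add_of_le hj'
      have : W * (j + 1 + r) - (1 + W * j) = (W - 1) + W * r := by
        rw [mul_add, mul_add, mul_one]; omega
      rw [this, Nat.add_mul_mod_self_left, Nat.mod_eq_of_lt (by omega)]
    · left
      refine ⟨by omega, Or.inl ?_, ha⟩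
      rw [Nat.add_mul_mod_self_left, Nat.mod_eq_of_lt (by omega)]
  have hc1 : ((range J).filter fun j => 1 + W * j ∈ B).card ≤ B.ncard := by
    rw [Set.ncard_eq_toFinset_card B hfin]
    refine Finset.card_le_card_of_injOn (fun j => 1 + W * j) ?_ ?_
    · intro j hj
      simp only [Finset.coe_filter, Finset.mem_range, Set.mem_ofPred_eq] at hj
      simpa using hj.2
    · intro i _ j _ hij
      have : W * i = W * j := by simpa using hij
      exact Nat.eq_of_mul_eq_mul_left (by omega) this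
  have hc2 : ((range J).filter fun j => W * J - (1 + W * j) ∈ B).card ≤ B.ncard := by
    rw [Set.ncard_eq_toFinset_card B hfin]
    refine Finset.card_le_card_of_injOn (fun j => W * J - (1 + W * j)) ?_ ?_
    · intro j hj
      simp only [Finset.coe_filter, Finset.mem_range, Set.mem_ofPred_eq] at hj
      simpa using hj.2
    · intro i hi j hj hij
      simp only [Finset.coe_filter, Set.mem_ofPred_eq] at hi hj
      have h1 := hlt i hi.1
      have h2 := hlt j hj.1
      have : W * i = W * j := by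
        have hij' : W * J - (1 + W * i) = W * J - (1 + W * j) := hij
        omega
      exact Nat.eq_of_mul_eq_mul_left (by omega) this
  have hsum : J ≤ 2 * B.ncard := by
    calc J = (range J).card := (Finset.card_range J).symm
      _ = (((range J).filter fun j => 1 + W * j ∈ B) ∪
            ((range J).filter fun j => W * J - (1 + W * j) ∈ B)).card := by
          congr 1
          ext j
          simp only [Finset.mem_union, Finset.mem_filter]
          constructor
          · intro hj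
            rcases hor j hj with h1 | h1
            · exact Or.inl ⟨hj, h1⟩
            · exact Or.inr ⟨hj, h1⟩
          · rintro (h1 | h1) <;> exact h1.1
      _ ≤ _ := Finset.card_union_le _ _
      _ ≤ 2 * B.ncard := by omega
  have : W * J ≤ W * (2 * B.ncard) := Nat.mul_le_mul_left _ hsum
  nlinarith

end Eng

theorem t_ENG (hS : S_SUR) (hW : S_WLE) : S_ENG := by
  obtain ⟨l₁, h₁⟩ := hS
  obtain ⟨l₂, h₂⟩ := hW
  refine ⟨max l₁ l₂, fun l hl => ?_⟩
  obtain ⟨q, hq, hB⟩ := h₁ l ((le_max_left _ _).trans hl)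
  obtain ⟨h6, hWle⟩ := h₂ l ((le_max_right _ _).trans hl)
  have hq' : ∀ i, (q i).Prime ∧ q i < 2 ^ (20 * l) := fun i => by
    have := hq i
    simp only [pool, Finset.mem_filter, Finset.mem_range] at this
    exact ⟨this.2, this.1⟩
  have hq0 : ∀ i, 0 < q i := fun i => (hq' i).1.pos
  refine ⟨∏ i, q i, Finset.prod_pos fun i _ => hq0 i, ?_, ?_⟩
  · calc ∏ i, q i ≤ ∏ _i : Fin (2 ^ l), 2 ^ (20 * l) :=
          Finset.prod_le_prod (fun _ _ => Nat.zero_le _) fun i _ => (hq' i).2.le
      _ = 2 ^ (20 * l * 2 ^ l) := by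
          rw [Finset.prod_const, Finset.card_univ, Fintype.card_fin, ← pow_mul]
  · intro x z hx1 hx hz
    have hW2 : 2 ≤ WW l := by
      have : (2 : ℕ).factorial ≤ (2 ^ 17 * l).factorial := Nat.factorial_le (by omega)
      simpa [WW] using this
    have hN1 : 1 ≤ NN l := Nat.one_le_two_pow
    have hxW : x * WW l ≤ NN l := by
      calc x * WW l ≤ 2 ^ 2 ^ (l - 5) * 2 ^ 2 ^ (l - 6) := Nat.mul_le_mul hx hWle
        _ = 2 ^ (2 ^ (l - 5) + 2 ^ (l - 6)) := (pow_add _ _ _).symm
        _ ≤ 2 ^ 2 ^ (l - 4) := by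
            apply Nat.pow_le_pow_right (by norm_num)
            obtain ⟨r, rfl⟩ := Nat.exists_eq_add_of_le h6
            have e1 : 6 + r - 5 = r + 1 := by omega
            have e2 : 6 + r - 6 = r := by omega
            have e3 : 6 + r - 4 = r + 2 := by omega
            rw [e1, e2, e3, pow_add, pow_add]
            omega
    have hxW0 : 0 < x * WW l := Nat.mul_pos (by omega) (by omega)
    obtain ⟨k, hk1, hk2⟩ : ∃ k : ℕ, 2 * NN l ≤ x * WW l * k ∧ x * WW l * k ≤ 3 * NN l := by
      refine ⟨2 * NN l / (x * WW l) + 1, ?_, ?_⟩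
      · exact (Nat.lt_mul_div_succ _ hxW0).le
      · have := Nat.mul_div_le (2 * NN l) (x * WW l)
        rw [mul_add, mul_one]
        omega
    have hk0 : 0 < k := by
      rcases Nat.eq_zero_or_pos k with h0 | h0
      · rw [h0, mul_zero] at hk1; omega
      · exact h0
    have e : WW l * (x * k) = x * WW l * k := by ring
    obtain ⟨a, b, ha, hb, hab, hna, hnb⟩ := Eng.split q (WW l) (NN l) (x * k) hW2 hN1
      (by rw [e]; exact hk2) (by rw [e]; exact hk1) hB
    have hK : 1 ≤ WW l * k * z := Nat.mul_pos (Nat.mul_pos (by omega) hk0) hz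
    obtain ⟨s, hs1, hs2, hs3⟩ := Eng.nice_uf q hq0 a (WW l * k * z) ha hK hna
    obtain ⟨t, ht1, ht2, ht3⟩ := Eng.nice_uf q hq0 b (WW l * k * z) hb hK hnb
    refine ⟨s + t, by rw [Multiset.card_add]; omega, ?_, ?_⟩
    · intro y hy
      rcases Multiset.mem_add.1 hy with h | h
      · exact hs2 y h
      · exact ht2 y h
    · rw [Eng.rs_add, hs3, ht3, ← add_div, ← Nat.cast_add, hab]
      have hQ : (((∏ i, q i : ℕ)) : ℚ) ≠ 0 := by
        exact_mod_cast (Finset.prod_pos fun i _ => hq0 i).ne'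
      have hw' : ((WW l : ℕ) : ℚ) ≠ 0 := by exact_mod_cast (by omega : WW l ≠ 0)
      have hk' : (k : ℚ) ≠ 0 := by exact_mod_cast hk0.ne'
      have hz' : (z : ℚ) ≠ 0 := by exact_mod_cast (by omega : z ≠ 0)
      generalize (((∏ i, q i : ℕ)) : ℚ) = Q at *
      push_cast
      field_simp

end Pool.Agent.UFL
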