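import Pool.Agent.UFL.St2

/-!
The engine with distinct denominators (MP_dcc108_nt, module `UFL_ENG2`): all `x / (Q z)` with `x` up to
`2 ^ 2 ^ (l - 5)` are sums of at most four distinct unit fractions outside a given set.
-/

set_option autoImplicit false

namespace Pool.Agent.UFL

open Finset

namespace Eng2

theorem eng2_mem_iff {w : ℕ} {q : Fin w → ℕ} (hp : ∀ i, (q i).Prime) (hi : Function.Injective q)
    (S : Finset (Fin w)) (j : Fin w) : j ∈ S ↔ q j ∣ ∏ i ∈ S, q i := by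
  constructor
  · intro h
    exact Finset.dvd_prod_of_mem q h
  · intro h
    obtain ⟨i, hiS, hd⟩ := ((hp j).prime.dvd_finsetProd_iff q).1 h
    have : q j = q i := (Nat.prime_dvd_prime_iff_eq (hp j) (hp i)).1 hd
    rwa [hi this]

theorem eng2_prod_inj {w : ℕ} {q : Fin w → ℕ} (hp : ∀ i, (q i).Prime) (hi : Function.Injective q)
    {S T : Finset (Fin w)} (h : ∏ i ∈ S, q i = ∏ i ∈ T, q i) : S = T := by
  ext j
  rw [eng2_mem_iff hp hi, eng2_mem_iff hp hi, h]

/-- A rich number over `Q z` is a sum of two distinct unit fractions with denominators outside `Ψ`. -/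
theorem eng2_uf {w : ℕ} (q : Fin w → ℕ) (hp : ∀ i, (q i).Prime) (hi : Function.Injective q)
    (n z : ℕ) (_hn : 1 ≤ n) (hz : 1 ≤ z) (Ψ : Finset ℕ) (h : Rich q n)
    (hc : 2 * n * (2 * Ψ.card + 1) < 2 ^ w) :
    ∃ d₁ d₂ : ℕ, 0 < d₁ ∧ 0 < d₂ ∧ d₁ ≠ d₂ ∧ d₁ ∉ Ψ ∧ d₂ ∉ Ψ ∧ (∏ i, q i) ≤ d₂ ∧
      (1 : ℚ) / d₁ + 1 / d₂ = (n : ℚ) / (((∏ i, q i : ℕ) : ℚ) * z) := by
  classical
  have hq : ∀ i, 0 < q i := fun i => (hp i).pos
  set F : Finset (Finset (Fin w)) :=
    (Finset.univ : Finset (Finset (Fin w))).filter fun S => n ∣ (∏ i ∈ S, q i) + 1 with hF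
  have hu : ∀ S : Finset (Fin w), 0 < ∏ i ∈ S, q i := fun S => Finset.prod_pos fun i _ => hq i
  have huv : ∀ S : Finset (Fin w), (∏ i ∈ S, q i) * (∏ i ∈ Sᶜ, q i) = ∏ i, q i :=
    fun S => Finset.prod_mul_prod_compl S q
  have hQ : 0 < ∏ i, q i := Finset.prod_pos fun i _ => hq i
  let m : Finset (Fin w) → ℕ := fun S => ((∏ i ∈ S, q i) + 1) / n
  have hm : ∀ S ∈ F, n * m S = (∏ i ∈ S, q i) + 1 := by
    intro S hS
    exact Nat.mul_div_cancel' (Finset.mem_filter.1 hS).2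
  have hm0 : ∀ S ∈ F, 0 < m S := by
    intro S hS
    rcases Nat.eq_zero_or_pos (m S) with h0 | h0
    · have := hm S hS
      rw [h0, mul_zero] at this
      omega
    · exact h0
  let D₁ : Finset (Fin w) → ℕ := fun S => (∏ i ∈ Sᶜ, q i) * z * m S
  let D₂ : Finset (Fin w) → ℕ := fun S => (∏ i, q i) * z * m S
  have hD₁ : Set.InjOn D₁ (F : Set (Finset (Fin w))) := by
    intro S hS T hT hST
    have hS' := hm S (Finset.mem_coe.1 hS)
    have hT' := hm T (Finset.mem_coe.1 hT)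
    have e₁ : n * D₁ S * (∏ i ∈ S, q i) = (∏ i, q i) * z * ((∏ i ∈ S, q i) + 1) := by
      rw [← hS', ← huv S]
      show n * ((∏ i ∈ Sᶜ, q i) * z * m S) * (∏ i ∈ S, q i) = _
      ring
    have e₂ : n * D₁ T * (∏ i ∈ T, q i) = (∏ i, q i) * z * ((∏ i ∈ T, q i) + 1) := by
      rw [← hT', ← huv T]
      show n * ((∏ i ∈ Tᶜ, q i) * z * m T) * (∏ i ∈ T, q i) = _
      ring
    have hST' : D₁ S = D₁ T := hST
    rw [hST'] at e₁
    apply eng2_prod_inj hp hi
    generalize (∏ i ∈ S, q i) = u at *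
    generalize (∏ i ∈ T, q i) = u' at *
    generalize hE : (∏ i, q i) * z = E at *
    have hE0 : 0 < E := by rw [← hE]; exact Nat.mul_pos hQ hz
    have e₃ : E * u' = E * u := by
      have h1 : n * D₁ T * u * u' = E * (u + 1) * u' := by rw [e₁]
      have h2 : n * D₁ T * u' * u = E * (u' + 1) * u := by rw [e₂]
      have h3 : n * D₁ T * u * u' = n * D₁ T * u' * u := by ring
      rw [h1, h2] at h3
      nlinarith [h3]
    exact (Nat.eq_of_mul_eq_mul_left hE0 e₃).symm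
  have hD₂ : Set.InjOn D₂ (F : Set (Finset (Fin w))) := by
    intro S hS T hT hST
    have hS' := hm S (Finset.mem_coe.1 hS)
    have hT' := hm T (Finset.mem_coe.1 hT)
    have h1 : m S = m T := Nat.eq_of_mul_eq_mul_left (Nat.mul_pos hQ hz) hST
    apply eng2_prod_inj hp hi
    rw [h1, hT'] at hS'
    omega
  have hex : ∃ S ∈ F, S ≠ ∅ ∧ D₁ S ∉ Ψ ∧ D₂ S ∉ Ψ := by
    by_contra hcon
    push Not at hcon
    have hsub : F ⊆ ({∅} ∪ F.filter fun S => D₁ S ∈ Ψ) ∪ F.filter fun S => D₂ S ∈ Ψ := by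
      intro S hS
      by_cases h0 : S = ∅
      · simp [h0]
      · by_cases h1 : D₁ S ∈ Ψ
        · simp only [Finset.mem_union, Finset.mem_filter]
          exact Or.inl (Or.inr ⟨hS, h1⟩)
        · simp only [Finset.mem_union, Finset.mem_filter]
          exact Or.inr ⟨hS, hcon S hS (Finset.nonempty_iff_ne_empty.2 h0) h1⟩
    have hc1 : (F.filter fun S => D₁ S ∈ Ψ).card ≤ Ψ.card := by
      refine Finset.card_le_card_of_injOn D₁ ?_ ?_
      · intro S hS
        exact (Finset.mem_filter.1 (Finset.mem_coe.1 hS)).2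
      · exact hD₁.mono fun S hS => (Finset.mem_filter.1 (Finset.mem_coe.1 hS)).1
    have hc2 : (F.filter fun S => D₂ S ∈ Ψ).card ≤ Ψ.card := by
      refine Finset.card_le_card_of_injOn D₂ ?_ ?_
      · intro S hS
        exact (Finset.mem_filter.1 (Finset.mem_coe.1 hS)).2
      · exact hD₂.mono fun S hS => (Finset.mem_filter.1 (Finset.mem_coe.1 hS)).1
    have hcard : F.card ≤ 2 * Ψ.card + 1 := by
      calc F.card ≤ _ := Finset.card_le_card hsub
        _ ≤ (({∅} : Finset (Finset (Fin w))) ∪ F.filter fun S => D₁ S ∈ Ψ).card +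
            (F.filter fun S => D₂ S ∈ Ψ).card := Finset.card_union_le _ _
        _ ≤ (({∅} : Finset (Finset (Fin w))).card + (F.filter fun S => D₁ S ∈ Ψ).card) +
            (F.filter fun S => D₂ S ∈ Ψ).card := by
            gcongr
            exact Finset.card_union_le _ _
        _ ≤ 2 * Ψ.card + 1 := by rw [Finset.card_singleton]; omega
    have h' : 2 ^ w ≤ 2 * n * F.card := h
    have := h'.trans (Nat.mul_le_mul_left (2 * n) hcard)
    omega
  obtain ⟨S, hS, hS0, h1, h2⟩ := hex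
  have hv : 0 < ∏ i ∈ Sᶜ, q i := hu _
  have hmS := hm S hS
  have hm1 := hm0 S hS
  have hp1 : 0 < D₁ S := Nat.mul_pos (Nat.mul_pos hv hz) hm1
  have hp2 : 0 < D₂ S := Nat.mul_pos (Nat.mul_pos hQ hz) hm1
  have hDD : D₂ S = (∏ i ∈ S, q i) * D₁ S := by
    show (∏ i, q i) * z * m S = (∏ i ∈ S, q i) * ((∏ i ∈ Sᶜ, q i) * z * m S)
    rw [← huv S]; ring
  have hu2 : 2 ≤ ∏ i ∈ S, q i := by
    obtain ⟨j, hj⟩ := Finset.nonempty_iff_ne_empty.2 hS0
    exact (hp j).two_le.trans (Nat.le_of_dvd (hu S) (Finset.dvd_prod_of_mem q hj))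
  refine ⟨D₁ S, D₂ S, hp1, hp2, ?_, h1, h2, ?_, ?_⟩
  · intro he
    rw [hDD] at he
    have : 2 * D₁ S ≤ (∏ i ∈ S, q i) * D₁ S := Nat.mul_le_mul_right _ hu2
    omega
  · calc (∏ i, q i) = (∏ i, q i) * 1 * 1 := by ring
      _ ≤ (∏ i, q i) * z * m S := by gcongr <;> omega
  · have e₁ : ((D₁ S : ℕ) : ℚ) = ((∏ i ∈ Sᶜ, q i : ℕ) : ℚ) * z * m S := by
      show (((∏ i ∈ Sᶜ, q i) * z * m S : ℕ) : ℚ) = _
      rw [Nat.cast_mul, Nat.cast_mul]
    have e₂ : ((D₂ S : ℕ) : ℚ) = ((∏ i ∈ S, q i : ℕ) : ℚ) * (((∏ i ∈ Sᶜ, q i : ℕ) : ℚ) * z * m S) := by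
      rw [hDD, Nat.cast_mul, e₁]
    have e₃ : (((∏ i, q i : ℕ)) : ℚ) = ((∏ i ∈ S, q i : ℕ) : ℚ) * ((∏ i ∈ Sᶜ, q i : ℕ) : ℚ) := by
      rw [← huv S, Nat.cast_mul]
    have e₄ : (n : ℚ) * (m S : ℚ) = ((∏ i ∈ S, q i : ℕ) : ℚ) + 1 := by exact_mod_cast hmS
    have p₁ : ((∏ i ∈ S, q i : ℕ) : ℚ) ≠ 0 := by exact_mod_cast (hu S).ne'
    have p₂ : ((∏ i ∈ Sᶜ, q i : ℕ) : ℚ) ≠ 0 := by exact_mod_cast hv.ne'
    have p₃ : (z : ℚ) ≠ 0 := by exact_mod_cast (by omega : z ≠ 0)
    have p₄ : (m S : ℚ) ≠ 0 := by exact_mod_cast hm1.ne'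
    rw [e₁, e₂, e₃]
    generalize ((∏ i ∈ S, q i : ℕ) : ℚ) = u at *
    generalize ((∏ i ∈ Sᶜ, q i : ℕ) : ℚ) = v at *
    generalize (m S : ℚ) = μ at *
    field_simp
    linear_combination -e₄

/-- Among the splittings `T = a + b` with `a` congruent to 1 and `b` to -1 there is one with both parts rich. -/
theorem eng2_split {w : ℕ} (q : Fin w → ℕ) (W N J : ℕ) (hW : 2 ≤ W) (hN : 1 ≤ N) (hJ : W * J ≤ 3 * N)
    (hJ2 : 2 * N ≤ W * J)
    (h : 8 * W * Set.ncard {n : ℕ | n ≤ 3 * N ∧ (n % W = 1 ∨ n % W = W - 1) ∧ ¬ Rich q n} ≤ 3 * N) :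
    ∃ a b : ℕ, 1 ≤ a ∧ 1 ≤ b ∧ a + b = W * J ∧ Rich q a ∧ Rich q b := by
  classical
  set B : Set ℕ := {n : ℕ | n ≤ 3 * N ∧ (n % W = 1 ∨ n % W = W - 1) ∧ ¬ Rich q n} with hB
  have hfin : B.Finite := (Set.finite_Iic (3 * N)).subset fun n hn => hn.1
  by_contra hcon
  push Not at hcon
  have hlt : ∀ j ∈ range J, 1 + W * j < W * J := by
    intro j hj
    have hj' : j + 1 ≤ J := Finset.mem_range.1 hj
    calc 1 + W * j < W * (j + 1) := by rw [mul_add, mul_one]; omega
      _ ≤ W * J := Nat.mul_le_mul_left _ hj'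
  have hor : ∀ j ∈ range J, 1 + W * j ∈ B ∨ W * J - (1 + W * j) ∈ B := by
    intro j hj
    have h1 := hlt j hj
    by_cases ha : Rich q (1 + W * j)
    · right
      refine ⟨by omega, Or.inr ?_, hcon _ _ (by omega) (by omega) (by omega) ha⟩
      have hj' : j + 1 ≤ J := Finset.mem_range.1 hj
      obtain ⟨r, rfl⟩ := Nat.exists_eq_add_of_le hj'
      have : W * (j + 1 + r) - (1 + W * j) = (W - 1) + W * r := by
        rw [mul_add, mul_add, mul_one]; omega
      rw [this, Nat.add_mul_mod_self_left, Nat.mod_eq_of_lt (by omega)]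
    · left
      refine ⟨by omega, Or.inl ?_, ha⟩
      rw [Nat.add_mul_mod_self_left, Nat.mod_eq_of_lt (by omega)]
  have hc1 : ((range J).filter fun j => 1 + W * j ∈ B).card ≤ B.ncard := by
    rw [Set.ncard_eq_toFinset_card B hfin]
    refine Finset.card_le_card_of_injOn (fun j => 1 + W * j) ?_ ?_
    · intro j hj
      simp only [Finset.coe_filter, Finset.mem_range, Set.mem_ofPred_eq] at hj
      simpa using hj.2
    · intro i _ j _ hij
      have : W * i = W * j := by simpa using hij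
      exact Nat.eq_of_mul_eq_mul_left (by omega) this
  have hc2 : ((range J).filter fun j => W * J - (1 + W * j) ∈ B).card ≤ B.ncard := by
    rw [Set.ncard_eq_toFinset_card B hfin]
    refine Finset.card_le_card_of_injOn (fun j => W * J - (1 + W * j)) ?_ ?_
    · intro j hj
      simp only [Finset.coe_filter, Finset.mem_range, Set.mem_ofPred_eq] at hj
      simpa using hj.2
    · intro i hi j hj hij
      simp only [Finset.coe_filter, Set.mem_ofPred_eq] at hi hj
      have h1 := hlt i hi.1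
      have h2 := hlt j hj.1
      have : W * i = W * j := by
        have hij' : W * J - (1 + W * i) = W * J - (1 + W * j) := hij
        omega
      exact Nat.eq_of_mul_eq_mul_left (by omega) this
  have hsum : J ≤ 2 * B.ncard := by
    calc J = (range J).card := (Finset.card_range J).symm
      _ = (((range J).filter fun j => 1 + W * j ∈ B) ∪
            ((range J).filter fun j => W * J - (1 + W * j) ∈ B)).card := by
          congr 1
          ext j
          simp only [Finset.mem_union, Finset.mem_filter]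
          constructor
          · intro hj
            rcases hor j hj with h1 | h1
            · exact Or.inl ⟨hj, h1⟩
            · exact Or.inr ⟨hj, h1⟩
          · rintro (h1 | h1) <;> exact h1.1
      _ ≤ _ := Finset.card_union_le _ _
      _ ≤ 2 * B.ncard := by omega
  have : W * J ≤ W * (2 * B.ncard) := Nat.mul_le_mul_left _ hsum
  nlinarith

/-- The numerical condition. -/
theorem eng2_num (l n K : ℕ) (hl : 6 ≤ l) (hn : n ≤ 3 * 2 ^ 2 ^ (l - 4)) (hK : K ≤ 2 ^ 2 ^ (l - 1) + 2) :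
    2 * n * (2 * K + 1) < 2 ^ 2 ^ l := by
  obtain ⟨r, rfl⟩ := Nat.exists_eq_add_of_le hl
  have e1 : 6 + r - 4 = r + 2 := by omega
  have e2 : 6 + r - 1 = r + 5 := by omega
  rw [e1] at hn
  rw [e2] at hK
  have ha : 1 ≤ 2 ^ r := Nat.one_le_two_pow
  generalize hA : 2 ^ r = a at ha
  have f1 : (2 : ℕ) ^ (r + 2) = 4 * a := by rw [pow_add, hA]; ring
  have f2 : (2 : ℕ) ^ (r + 5) = 32 * a := by rw [pow_add, hA]; ring
  have f3 : (2 : ℕ) ^ (6 + r) = 64 * a := by rw [pow_add, hA]; ring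
  rw [f1] at hn
  rw [f2] at hK
  rw [f3]
  have g1 : 2 * K + 1 ≤ 2 ^ (32 * a + 2) := by
    have : 2 ^ 5 ≤ 2 ^ (32 * a) := Nat.pow_le_pow_right (by norm_num) (by omega)
    rw [pow_add]
    omega
  have g2 : 2 * n ≤ 2 ^ (4 * a + 3) := by
    rw [pow_add]
    omega
  calc 2 * n * (2 * K + 1) ≤ 2 ^ (4 * a + 3) * 2 ^ (32 * a + 2) := Nat.mul_le_mul g2 g1
    _ = 2 ^ (36 * a + 5) := by rw [← pow_add]; congr 1; omega
    _ < 2 ^ (64 * a) := Nat.pow_lt_pow_right (by norm_num) (by omega)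

end Eng2

theorem t_ENG2 (hS : S_SUR2) (hW : S_WLE) : S_ENG2 := by
  classical
  obtain ⟨l₁, h₁⟩ := hS
  obtain ⟨l₂, h₂⟩ := hW
  refine ⟨max l₁ l₂, fun l hl => ?_⟩
  obtain ⟨q, hinj, hq, hB⟩ := h₁ l ((le_max_left _ _).trans hl)
  obtain ⟨h6, hWle⟩ := h₂ l ((le_max_right _ _).trans hl)
  have hq' : ∀ i, (q i).Prime ∧ q i < 2 ^ (20 * l) := fun i => by
    have := hq i
    simp only [pool, Finset.mem_filter, Finset.mem_range] at this
    exact ⟨this.2, this.1⟩
  have hp : ∀ i, (q i).Prime := fun i => (hq' i).1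
  have hq0 : ∀ i, 0 < q i := fun i => (hq' i).1.pos
  refine ⟨∏ i, q i, ?_, ?_, ?_⟩
  · have h2l : 2 ≤ 2 ^ l := by
      calc 2 = 2 ^ 1 := (pow_one 2).symm
        _ ≤ 2 ^ l := Nat.pow_le_pow_right (by norm_num) (by omega)
    have hlt : ∃ i ∈ (Finset.univ : Finset (Fin (2 ^ l))), 2 < q i := by
      by_contra hcon
      push Not at hcon
      have hall : ∀ i, q i = 2 := fun i =>
        le_antisymm (hcon i (Finset.mem_univ _)) (hp i).two_le
      have : (⟨0, by omega⟩ : Fin (2 ^ l)) = ⟨1, by omega⟩ := hinj ((hall _).trans (hall _).symm)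
      simp at this
    calc 2 ^ 2 ^ l = ∏ _i : Fin (2 ^ l), 2 := by
          rw [Finset.prod_const, Finset.card_univ, Fintype.card_fin]
      _ < ∏ i, q i := Finset.prod_lt_prod (fun _ _ => by norm_num) (fun i _ => (hp i).two_le) hlt
  · calc ∏ i, q i ≤ ∏ _i : Fin (2 ^ l), 2 ^ (20 * l) :=
          Finset.prod_le_prod (fun _ _ => Nat.zero_le _) fun i _ => (hq' i).2.le
      _ = 2 ^ (20 * l * 2 ^ l) := by
          rw [Finset.prod_const, Finset.card_univ, Fintype.card_fin, ← pow_mul]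
  · intro x z Φ hx1 hx hz hΦ
    have hW2 : 2 ≤ WW l := by
      have : (2 : ℕ).factorial ≤ (2 ^ 17 * l).factorial := Nat.factorial_le (by omega)
      simpa [WW] using this
    have hN1 : 1 ≤ NN l := Nat.one_le_two_pow
    have hxW : x * WW l ≤ NN l := by
      calc x * WW l ≤ 2 ^ 2 ^ (l - 5) * 2 ^ 2 ^ (l - 6) := Nat.mul_le_mul hx hWle
        _ = 2 ^ (2 ^ (l - 5) + 2 ^ (l - 6)) := (pow_add _ _ _).symm
        _ ≤ 2 ^ 2 ^ (l - 4) := by
            apply Nat.pow_le_pow_right (by norm_num)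
            obtain ⟨r, rfl⟩ := Nat.exists_eq_add_of_le h6
            have e1 : 6 + r - 5 = r + 1 := by omega
            have e2 : 6 + r - 6 = r := by omega
            have e3 : 6 + r - 4 = r + 2 := by omega
            rw [e1, e2, e3, pow_add, pow_add]
            omega
    have hxW0 : 0 < x * WW l := Nat.mul_pos (by omega) (by omega)
    obtain ⟨k, hk1, hk2⟩ : ∃ k : ℕ, 2 * NN l ≤ x * WW l * k ∧ x * WW l * k ≤ 3 * NN l := by
      refine ⟨2 * NN l / (x * WW l) + 1, ?_, ?_⟩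
      · exact (Nat.lt_mul_div_succ _ hxW0).le
      · have := Nat.mul_div_le (2 * NN l) (x * WW l)
        rw [mul_add, mul_one]
        omega
    have hk0 : 0 < k := by
      rcases Nat.eq_zero_or_pos k with h0 | h0
      · rw [h0, mul_zero] at hk1; omega
      · exact h0
    have e : WW l * (x * k) = x * WW l * k := by ring
    obtain ⟨a, b, ha, hb, hab, hna, hnb⟩ := Eng2.eng2_split q (WW l) (NN l) (x * k) hW2 hN1
      (by rw [e]; exact hk2) (by rw [e]; exact hk1) hB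
    have hK : 1 ≤ WW l * k * z := Nat.mul_pos (Nat.mul_pos (by omega) hk0) hz
    have hT : a + b ≤ 3 * NN l := by rw [hab, e]; exact hk2
    have hNN : NN l = 2 ^ 2 ^ (l - 4) := rfl
    obtain ⟨d₁, d₂, p1, p2, n12, m1, m2, hQ2, hs1⟩ := Eng2.eng2_uf q hp hinj a (WW l * k * z) ha hK Φ hna
      (Eng2.eng2_num l a Φ.card h6 (by rw [← hNN]; omega) (by omega))
    have hcard : (Φ ∪ {d₁, d₂}).card ≤ 2 ^ 2 ^ (l - 1) + 2 := by
      have h1 := Finset.card_union_le Φ {d₁, d₂}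
      have h2 : ({d₁, d₂} : Finset ℕ).card ≤ 2 := Finset.card_le_two
      omega
    obtain ⟨d₃, d₄, p3, p4, n34, m3, m4, _, hs2⟩ := Eng2.eng2_uf q hp hinj b (WW l * k * z) hb hK
      (Φ ∪ {d₁, d₂}) hnb (Eng2.eng2_num l b _ h6 (by rw [← hNN]; omega) hcard)
    simp only [Finset.mem_union, Finset.mem_insert, Finset.mem_singleton, not_or] at m3 m4
    obtain ⟨m3, n31, n32⟩ := m3
    obtain ⟨m4, n41, n42⟩ := m4
    have hnot1 : d₁ ∉ ({d₂, d₃, d₄} : Finset ℕ) := by
      simp only [Finset.mem_insert, Finset.mem_singleton, not_or]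
      exact ⟨n12, Ne.symm n31, Ne.symm n41⟩
    have hnot2 : d₂ ∉ ({d₃, d₄} : Finset ℕ) := by
      simp only [Finset.mem_insert, Finset.mem_singleton, not_or]
      exact ⟨Ne.symm n32, Ne.symm n42⟩
    have hnot3 : d₃ ∉ ({d₄} : Finset ℕ) := by
      simpa using n34
    refine ⟨{d₁, d₂, d₃, d₄}, ?_, ?_, ?_, ?_, ?_⟩
    · exact Finset.card_le_four
    · rw [Finset.disjoint_left]
      intro y hy
      simp only [Finset.mem_insert, Finset.mem_singleton] at hy
      rcases hy with rfl | rfl | rfl | rfl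
      · exact m1
      · exact m2
      · exact m3
      · exact m4
    · intro y hy
      simp only [Finset.mem_insert, Finset.mem_singleton] at hy
      rcases hy with rfl | rfl | rfl | rfl
      · exact p1
      · exact p2
      · exact p3
      · exact p4
    · intro _
      exact ⟨d₂, by simp, hQ2⟩
    · rw [Finset.sum_insert hnot1, Finset.sum_insert hnot2, Finset.sum_insert hnot3, Finset.sum_singleton,
        ← add_assoc ((1 : ℚ) / d₁), hs1, hs2, ← add_div, ← Nat.cast_add, hab]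
      have hQ : (((∏ i, q i : ℕ)) : ℚ) ≠ 0 := by
        exact_mod_cast (Finset.prod_pos fun i _ => hq0 i).ne'
      have hw' : ((WW l : ℕ) : ℚ) ≠ 0 := by exact_mod_cast (by omega : WW l ≠ 0)
      have hk' : (k : ℚ) ≠ 0 := by exact_mod_cast hk0.ne'
      have hz' : (z : ℚ) ≠ 0 := by exact_mod_cast (by omega : z ≠ 0)
      generalize (((∏ i, q i : ℕ)) : ℚ) = Q at *
      push_cast
      field_simp

end Pool.Agent.UFL
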