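import Mathlib
import Pool.Agent.UFL.St

/-!
EXI, pigeonhole over the random primes (helper61).
-/

set_option autoImplicit false

namespace Pool.Agent.UFL

open Finset

/-- There are at most `n` characters mod `n`. -/
theorem exi_card_char (n : ℕ) (hn : 1 ≤ n) : Fintype.card (DirichletCharacter ℂ n) ≤ n := by
  have : NeZero n := ⟨by omega⟩
  have h := DirichletCharacter.card_eq_totient_of_hasEnoughRootsOfUnity ℂ n
  rw [Nat.card_eq_fintype_card] at h
  rw [h]
  exact Nat.totient_le n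

/-- The primes of the set `P` which divide `n` are at most `u` many if `n ≤ 2 ^ u`. -/
theorem exi_card_div (P : Finset ℕ) (hP : ∀ p ∈ P, p.Prime) (n u : ℕ) (hn : 1 ≤ n)
    (hu : n ≤ 2 ^ u) : (P.filter fun p => p ∣ n).card ≤ u := by
  have h1 : ∏ p ∈ P.filter (fun p => p ∣ n), p ∣ n :=
    Finset.prod_primes_dvd n (fun p hp => (hP p (mem_filter.1 hp).1).prime)
      fun p hp => (mem_filter.1 hp).2
  have h2 : 2 ^ (P.filter fun p => p ∣ n).card ≤ ∏ p ∈ P.filter (fun p => p ∣ n), p := by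
    rw [← Finset.prod_const]
    exact Finset.prod_le_prod (fun _ _ => Nat.zero_le _)
      fun p hp => (hP p (mem_filter.1 hp).1).two_le
  have h3 : 2 ^ (P.filter fun p => p ∣ n).card ≤ 2 ^ u :=
    (h2.trans (Nat.le_of_dvd (by omega) h1)).trans hu
  exact (Nat.pow_le_pow_iff_right (by norm_num)).1 h3

/-- The number of tuples with an entry which divides `n`. -/
theorem exi_bad1 (P : Finset ℕ) (hP : ∀ p ∈ P, p.Prime) (n u w : ℕ) (hn : 1 ≤ n)
    (hu : n ≤ 2 ^ u) :
    ((Fintype.piFinset fun _ : Fin w => P).filter fun q => ∃ i, ¬ Nat.Coprime (q i) n).card ≤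
      w * (u * P.card ^ (w - 1)) := by
  classical
  have hsub : ((Fintype.piFinset fun _ : Fin w => P).filter
      fun q => ∃ i, ¬ Nat.Coprime (q i) n) ⊆
      (Finset.univ : Finset (Fin w)).biUnion fun i =>
        Fintype.piFinset fun j : Fin w => if j = i then P.filter (fun p => p ∣ n) else P := by
    intro q hq
    simp only [mem_filter, Fintype.mem_piFinset] at hq
    obtain ⟨h1, i, hi⟩ := hq
    simp only [mem_biUnion, mem_univ, true_and, Fintype.mem_piFinset]
    refine ⟨i, fun j => ?_⟩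
    by_cases hj : j = i
    · subst hj
      rw [if_pos rfl, mem_filter]
      refine ⟨h1 j, ?_⟩
      by_contra h
      exact hi (((hP _ (h1 j)).coprime_iff_not_dvd).2 h)
    · rw [if_neg hj]
      exact h1 j
  refine (card_le_card hsub).trans (card_biUnion_le.trans ?_)
  have hc : ∀ i : Fin w, (Fintype.piFinset fun j : Fin w =>
      if j = i then P.filter (fun p => p ∣ n) else P).card ≤ u * P.card ^ (w - 1) := by
    intro i
    rw [Fintype.card_piFinset, ← Finset.mul_prod_erase _ _ (Finset.mem_univ i)]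
    rw [if_pos rfl]
    have : ∏ j ∈ (Finset.univ : Finset (Fin w)).erase i,
        (if j = i then P.filter (fun p => p ∣ n) else P).card = P.card ^ (w - 1) := by
      rw [Finset.prod_congr rfl (g := fun _ => P.card)]
      · rw [prod_const, card_erase_of_mem (mem_univ i), card_univ, Fintype.card_fin]
      · intro j hj
        rw [if_neg (ne_of_mem_erase hj)]
    rw [this]
    exact Nat.mul_le_mul_right _ (exi_card_div P hP n u hn hu)
  refine (Finset.sum_le_sum fun i _ => hc i).trans ?_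
  simp

/-- Markov's inequality for the tuples prime to `n` for which `n` is not nice. -/
theorem exi_bad2 (hN : S_NICE) (hA : S_AVG) (P : Finset ℕ) (n v : ℕ) (hn : 1 ≤ n)
    (hG : ∀ χ : DirichletCharacter ℂ n, χ ≠ 1 →
      2 * ‖∑ q ∈ P, χ (q : ZMod n)‖ ≤ (P.card : ℝ)) (B : Finset (Fin (2 * v) → ℕ))
    (hB : ∀ q ∈ B, q ∈ Fintype.piFinset (fun _ : Fin (2 * v) => P) ∧
      (∀ i, Nat.Coprime (q i) n) ∧ ¬ Nice q n) :
    B.card * 2 ^ (2 * v) ≤ n * (3 ^ v * P.card ^ (2 * v)) := by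
  classical
  have h1 : ∀ q ∈ B, (2 : ℝ) ^ (2 * v) ≤
      ∑ χ ∈ (Finset.univ : Finset (DirichletCharacter ℂ n)).erase 1,
        ∏ i, ‖1 + χ (q i : ZMod n)‖ := by
    intro q hq
    obtain ⟨-, hcop, hnn⟩ := hB q hq
    have h2 := mt (hN n (2 * v) q hn hcop) hnn
    rw [not_lt, ← Finset.add_sum_erase _ _ (Finset.mem_univ 1)] at h2
    have h3 : ∏ i, ‖1 + (1 : DirichletCharacter ℂ n) (q i : ZMod n)‖ = (2 : ℝ) ^ (2 * v) := by
      rw [Finset.prod_congr rfl (g := fun _ => (2 : ℝ))]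
      · simp
      · intro i _
        rw [MulChar.one_apply ((ZMod.isUnit_iff_coprime _ _).2 (hcop i))]
        norm_num
    rw [h3, pow_succ] at h2
    linarith
  have h2 : (B.card : ℝ) * 2 ^ (2 * v) ≤
      ∑ q ∈ Fintype.piFinset (fun _ : Fin (2 * v) => P),
        ∑ χ ∈ (Finset.univ : Finset (DirichletCharacter ℂ n)).erase 1,
          ∏ i, ‖1 + χ (q i : ZMod n)‖ := by
    calc (B.card : ℝ) * 2 ^ (2 * v) = ∑ q ∈ B, (2 : ℝ) ^ (2 * v) := by
          rw [sum_const, nsmul_eq_mul]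
      _ ≤ ∑ q ∈ B, ∑ χ ∈ (Finset.univ : Finset (DirichletCharacter ℂ n)).erase 1,
          ∏ i, ‖1 + χ (q i : ZMod n)‖ := Finset.sum_le_sum h1
      _ ≤ _ := by
          refine Finset.sum_le_sum_of_subset_of_nonneg (fun q hq => (hB q hq).1) ?_
          intro q _ _
          exact Finset.sum_nonneg fun χ _ => Finset.prod_nonneg fun i _ => norm_nonneg _
  rw [Finset.sum_comm] at h2
  have h3 : ∑ χ ∈ (Finset.univ : Finset (DirichletCharacter ℂ n)).erase 1,
      ∑ q ∈ Fintype.piFinset (fun _ : Fin (2 * v) => P), ∏ i, ‖1 + χ (q i : ZMod n)‖ ≤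
      (n : ℝ) * (3 ^ v * (P.card : ℝ) ^ (2 * v)) := by
    refine (Finset.sum_le_sum fun χ hχ => hA n v P χ (hG χ (ne_of_mem_erase hχ))).trans ?_
    rw [sum_const, nsmul_eq_mul]
    refine mul_le_mul_of_nonneg_right ?_ (by positivity)
    have h4 : ((Finset.univ : Finset (DirichletCharacter ℂ n)).erase 1).card ≤ n :=
      (card_le_card (erase_subset _ _)).trans (exi_card_char n hn)
    exact_mod_cast h4
  have h4 := h2.trans h3
  exact_mod_cast h4

/-- The numbers. -/
theorem exi_num (u : ℕ) (hu : 5 ≤ u) : 2 ^ (u + 2) * 3 ^ (8 * u) * 128 ≤ 2 ^ (16 * u) := by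
  have h1 : 3 ^ (8 * u) ≤ 2 ^ (13 * u) := by
    rw [pow_mul, pow_mul]
    exact Nat.pow_le_pow_left (by norm_num) u
  calc 2 ^ (u + 2) * 3 ^ (8 * u) * 128 ≤ 2 ^ (u + 2) * 2 ^ (13 * u) * 2 ^ 7 := by
        have : (128 : ℕ) = 2 ^ 7 := by norm_num
        rw [this]
        exact Nat.mul_le_mul_right _ (Nat.mul_le_mul_left _ h1)
    _ = 2 ^ (u + 2 + 13 * u + 7) := by rw [← pow_add, ← pow_add]
    _ ≤ 2 ^ (16 * u) := Nat.pow_le_pow_right (by norm_num) (by omega)

/-- For a good number `n` the bad tuples are few. -/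
theorem exi_bad (hN : S_NICE) (hA : S_AVG) (P : Finset ℕ) (hP : ∀ p ∈ P, p.Prime) (n u : ℕ)
    (hn : 1 ≤ n) (hu : 5 ≤ u) (hnu : n ≤ 2 ^ (u + 2))
    (hG : ∀ χ : DirichletCharacter ℂ n, χ ≠ 1 →
      2 * ‖∑ q ∈ P, χ (q : ZMod n)‖ ≤ (P.card : ℝ))
    (hc : 128 * (16 * u) * (u + 2) ≤ P.card) (B : Finset (Fin (2 * (8 * u)) → ℕ))
    (hB : ∀ q ∈ B, q ∈ Fintype.piFinset (fun _ : Fin (2 * (8 * u)) => P) ∧ ¬ Nice q n) :
    64 * B.card ≤ P.card ^ (16 * u) := by
  classical
  have h1 : 128 * (B.filter fun q => ∃ i, ¬ Nat.Coprime (q i) n).card ≤ P.card ^ (16 * u) := by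
    have h2 : (B.filter fun q => ∃ i, ¬ Nat.Coprime (q i) n).card ≤
        2 * (8 * u) * ((u + 2) * P.card ^ (2 * (8 * u) - 1)) := by
      refine (card_le_card ?_).trans (exi_bad1 P hP n (u + 2) (2 * (8 * u)) hn hnu)
      intro q hq
      rw [mem_filter] at hq ⊢
      exact ⟨(hB q hq.1).1, hq.2⟩
    have e1 : 16 * u = (2 * (8 * u) - 1) + 1 := by omega
    calc 128 * (B.filter fun q => ∃ i, ¬ Nat.Coprime (q i) n).card
        ≤ 128 * (2 * (8 * u) * ((u + 2) * P.card ^ (2 * (8 * u) - 1))) :=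
          Nat.mul_le_mul_left _ h2
      _ = 128 * (16 * u) * (u + 2) * P.card ^ (2 * (8 * u) - 1) := by ring
      _ ≤ P.card * P.card ^ (2 * (8 * u) - 1) := Nat.mul_le_mul_right _ hc
      _ = P.card ^ (16 * u) := by
          rw [e1, pow_succ]
          ring
  have h2 : 128 * (B.filter fun q => ¬ ∃ i, ¬ Nat.Coprime (q i) n).card ≤
      P.card ^ (16 * u) := by
    have h3 := exi_bad2 hN hA P n (8 * u) hn hG
      (B.filter fun q => ¬ ∃ i, ¬ Nat.Coprime (q i) n) (by
        intro q hq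
        rw [mem_filter] at hq
        refine ⟨(hB q hq.1).1, fun i => ?_, (hB q hq.1).2⟩
        by_contra h
        exact hq.2 ⟨i, h⟩)
    have e1 : 2 * (8 * u) = 16 * u := by omega
    generalize (B.filter fun q => ¬ ∃ i, ¬ Nat.Coprime (q i) n).card = b at h3 ⊢
    generalize P.card = p at h3 ⊢
    rw [e1] at h3
    have h4 : 128 * b * 2 ^ (16 * u) ≤ p ^ (16 * u) * 2 ^ (16 * u) := by
      calc 128 * b * 2 ^ (16 * u) = 128 * (b * 2 ^ (16 * u)) := by ring
        _ ≤ 128 * (n * (3 ^ (8 * u) * p ^ (16 * u))) := Nat.mul_le_mul_left _ h3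
        _ = n * 3 ^ (8 * u) * 128 * p ^ (16 * u) := by ring
        _ ≤ 2 ^ (u + 2) * 3 ^ (8 * u) * 128 * p ^ (16 * u) :=
            Nat.mul_le_mul_right _ (Nat.mul_le_mul_right _ (Nat.mul_le_mul_right _ hnu))
        _ ≤ 2 ^ (16 * u) * p ^ (16 * u) := Nat.mul_le_mul_right _ (exi_num u hu)
        _ = p ^ (16 * u) * 2 ^ (16 * u) := by ring
    exact Nat.le_of_mul_le_mul_right h4 (by positivity)
  have h3 : (B.filter fun q => ∃ i, ¬ Nat.Coprime (q i) n).card +
      (B.filter fun q => ¬ ∃ i, ¬ Nat.Coprime (q i) n).card = B.card :=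
    card_filter_add_card_filter_not _
  omega

/-- **EXI**, with `2 ^ l = 16 u`. -/
theorem exi_main (hN : S_NICE) (hA : S_AVG) (P : Finset ℕ) (hP : ∀ p ∈ P, p.Prime) (w u : ℕ)
    (hw : w = 2 * (8 * u)) (hu : 5 ≤ u) (hc : 128 * (16 * u) * (u + 2) ≤ P.card) (A : Finset ℕ)
    (hG : ∀ n ∈ A, 1 ≤ n ∧ n ≤ 2 ^ (u + 2) ∧ ∀ χ : DirichletCharacter ℂ n, χ ≠ 1 →
      2 * ‖∑ q ∈ P, χ (q : ZMod n)‖ ≤ (P.card : ℝ)) :
    ∃ q : Fin w → ℕ, (∀ i, q i ∈ P) ∧ 64 * Set.ncard {n | n ∈ A ∧ ¬ Nice q n} ≤ A.card := by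
  classical
  subst hw
  have hne : (Fintype.piFinset fun _ : Fin (2 * (8 * u)) => P).Nonempty := by
    have : P.Nonempty := by
      rw [← card_pos]
      refine lt_of_lt_of_le ?_ hc
      have : 0 < u := by omega
      positivity
    obtain ⟨p, hp⟩ := this
    exact ⟨fun _ => p, Fintype.mem_piFinset.2 fun _ => hp⟩
  have hcard : (Fintype.piFinset fun _ : Fin (2 * (8 * u)) => P).card = P.card ^ (16 * u) := by
    rw [Fintype.card_piFinset, prod_const, card_univ, Fintype.card_fin]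
    congr 1
    omega
  have hsum : ∑ q ∈ Fintype.piFinset (fun _ : Fin (2 * (8 * u)) => P),
      64 * (A.filter fun n => ¬ Nice q n).card ≤
      ∑ q ∈ Fintype.piFinset (fun _ : Fin (2 * (8 * u)) => P), A.card := by
    rw [← Finset.mul_sum, sum_const, hcard, smul_eq_mul]
    have h1 : ∑ q ∈ Fintype.piFinset (fun _ : Fin (2 * (8 * u)) => P),
        (A.filter fun n => ¬ Nice q n).card =
        ∑ n ∈ A, ((Fintype.piFinset fun _ : Fin (2 * (8 * u)) => P).filter
          fun q => ¬ Nice q n).card := by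
      simp only [card_filter]
      exact Finset.sum_comm
    rw [h1, Finset.mul_sum]
    calc ∑ n ∈ A, 64 * ((Fintype.piFinset fun _ : Fin (2 * (8 * u)) => P).filter
          fun q => ¬ Nice q n).card ≤ ∑ n ∈ A, P.card ^ (16 * u) := by
          refine Finset.sum_le_sum fun n hn => ?_
          obtain ⟨g1, g2, g3⟩ := hG n hn
          refine exi_bad hN hA P hP n u g1 hu g2 g3 hc _ ?_
          intro q hq
          rw [mem_filter] at hq
          exact hq
      _ = P.card ^ (16 * u) * A.card := by rw [sum_const, smul_eq_mul, mul_comm]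
  obtain ⟨q, hq, hle⟩ := Finset.exists_le_of_sum_le hne hsum
  refine ⟨q, Fintype.mem_piFinset.1 hq, ?_⟩
  have : {n | n ∈ A ∧ ¬ Nice q n} = ((A.filter fun n => ¬ Nice q n : Finset ℕ) : Set ℕ) := by
    ext n
    simp
  rw [this, Set.ncard_coe_finset]
  exact hle

/-- **EXI**. -/
theorem t_EXI (hP : S_PC) (hN : S_NICE) (hA : S_AVG) : S_EXI := by
  intro l A hl hG
  have e1 : 2 ^ l = 16 * 2 ^ (l - 4) := by
    have : (16 : ℕ) = 2 ^ 4 := by norm_num
    rw [this, ← pow_add]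
    congr 1
    omega
  have hprime : ∀ p ∈ pool l, p.Prime := fun p hp => (mem_filter.1 hp).2
  refine exi_main hN hA (pool l) hprime (2 ^ l) (2 ^ (l - 4)) (by omega) ?_ ?_ A ?_
  · calc 5 ≤ 2 ^ 4 := by norm_num
      _ ≤ 2 ^ (l - 4) := Nat.pow_le_pow_right (by norm_num) (by omega)
  · have h1 := hP l (by omega)
    have h2 : 2 ^ (l - 4) + 2 ≤ 2 ^ l := by
      have : 2 ≤ 2 ^ (l - 4) := by
        calc 2 = 2 ^ 1 := by norm_num
          _ ≤ 2 ^ (l - 4) := Nat.pow_le_pow_right (by norm_num) (by omega)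
      omega
    have h3 : l ≤ 2 ^ l := Nat.lt_two_pow_self.le
    rw [← e1]
    by_contra hcon
    rw [not_le] at hcon
    have h4 : 40 * l * (pool l).card < 2 ^ (20 * l) := by
      calc 40 * l * (pool l).card < 40 * l * (128 * 2 ^ l * (2 ^ (l - 4) + 2)) :=
            Nat.mul_lt_mul_of_pos_left hcon (by omega)
        _ ≤ 64 * 2 ^ l * (128 * 2 ^ l * 2 ^ l) := by gcongr; omega
        _ = 2 ^ (13 + 3 * l) := by
            rw [pow_add, pow_mul']
            ring
        _ ≤ 2 ^ (20 * l) := Nat.pow_le_pow_right (by norm_num) (by omega)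
    omega
  · intro n hn
    exact hG n hn

end Pool.Agent.UFL
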