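import Pool.Agent.UFL.St

/-!
# UFL, module GRE: the greedy algorithm (helper85)
-/

set_option autoImplicit false

namespace Pool.Agent.UFL

namespace GREx

theorem rs_cons (x : ℕ) (s : Multiset ℕ) : rs (x ::ₘ s) = (1 : ℚ) / (x : ℚ) + rs s := by
  unfold rs
  rw [Multiset.map_cons, Multiset.sum_cons]

theorem rs_zero : rs 0 = 0 := by
  unfold rs
  rw [Multiset.map_zero, Multiset.sum_zero]

/-- One step of the greedy algorithm. -/
theorem step (a b : ℕ) (ha : 1 ≤ a) (hab : a < b) :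
    ∃ m a' b' : ℕ, 1 ≤ m ∧ a * m ≤ b ∧ b' = b * (m + 1) ∧ 1 ≤ a' ∧ a' ≤ a ∧
      (a : ℚ) / b = (1 : ℚ) / ((m + 1 : ℕ) : ℚ) + (a' : ℚ) / b' ∧
      (∀ M : ℕ, a * M ≤ b → a' * M ^ 2 < b') ∧ a' * 2 ≤ b' := by
  have hb : 0 < b := by omega
  have hm1 : 1 ≤ b / a := Nat.div_pos hab.le ha
  have h1 : a * (b / a) ≤ b := Nat.mul_div_le b a
  have h2 : b < a * (b / a + 1) := Nat.lt_mul_div_succ b ha
  have hmax : ∀ M : ℕ, a * M ≤ b → M ≤ b / a := by
    intro M hM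
    rw [Nat.le_div_iff_mul_le ha, mul_comm]
    exact hM
  generalize b / a = m at hm1 h1 h2 hmax
  obtain ⟨c, hc⟩ := Nat.exists_eq_add_of_lt h2
  have hca : c + 1 ≤ a := by
    have h3 : a * (m + 1) = a * m + a := by ring
    omega
  refine ⟨m, c + 1, b * (m + 1), hm1, h1, rfl, by omega, hca, ?_, ?_, ?_⟩
  · have hb' : (b : ℚ) ≠ 0 := Nat.cast_ne_zero.2 hb.ne'
    have hm' : (m : ℚ) + 1 ≠ 0 := by positivity
    have hc' : (a : ℚ) * ((m : ℚ) + 1) = (b : ℚ) + c + 1 := by exact_mod_cast hc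
    push_cast
    rw [div_add_div _ _ hm' (mul_ne_zero hb' hm'), div_eq_div_iff hb'
      (mul_ne_zero hm' (mul_ne_zero hb' hm'))]
    linear_combination ((b : ℚ) * ((m : ℚ) + 1)) * hc'
  · intro M hM
    have hMm := hmax M hM
    calc (c + 1) * M ^ 2 ≤ a * m ^ 2 := Nat.mul_le_mul hca (Nat.pow_le_pow_left hMm 2)
      _ = (a * m) * m := by ring
      _ ≤ b * m := Nat.mul_le_mul_right m h1
      _ < b * (m + 1) := Nat.mul_lt_mul_of_pos_left (Nat.lt_succ_self m) hb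
  · calc (c + 1) * 2 ≤ a * (m * (m + 1)) := by
          refine Nat.mul_le_mul hca ?_
          nlinarith
      _ = (a * m) * (m + 1) := by ring
      _ ≤ b * (m + 1) := Nat.mul_le_mul_right (m + 1) h1

/-- The bound for the denominator after a step. -/
theorem den (a b m B Q : ℕ) (ha : 1 ≤ a) (haB : a ≤ B) (hQ : 1 ≤ Q) (hm : a * m ≤ b)
    (hb : b ≤ a * Q) : b * (m + 1) ≤ 2 * B * Q ^ 2 := by
  have h1 : m ≤ Q := by
    have h2 : a * m ≤ a * Q := hm.trans hb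
    exact Nat.le_of_mul_le_mul_left h2 ha
  calc b * (m + 1) ≤ (B * Q) * (2 * Q) :=
        Nat.mul_le_mul (hb.trans (Nat.mul_le_mul_right Q haB)) (by omega)
    _ = 2 * B * Q ^ 2 := by ring

theorem core (B Q : ℕ) (hQ : 1 ≤ Q) : ∀ (j a b M : ℕ), 1 ≤ a → a < b → a ≤ B → 1 ≤ M →
    a * M ≤ b → Q ≤ M ^ 2 ^ j → b ≤ 2 * B * Q ^ 2 →
    ∃ (s : Multiset ℕ) (a' b' : ℕ), Multiset.card s ≤ j + 1 ∧ (∀ x ∈ s, 0 < x) ∧ 1 ≤ a' ∧
      a' * Q < b' ∧ b' ≤ 2 * B * Q ^ 2 ∧ (a : ℚ) / b = rs s + (a' : ℚ) / b' := by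
  intro j
  induction j with
  | zero =>
    intro a b M ha hab haB hM haM hQM hbB
    by_cases h : a * Q < b
    · exact ⟨0, a, b, by simp, by simp, ha, h, hbB, by rw [rs_zero, zero_add]⟩
    · obtain ⟨m, a1, b1, hm1, hm2, rfl, ha1, ha1a, hq, hsq, -⟩ := step a b ha hab
      rw [pow_zero, pow_one] at hQM
      refine ⟨{m + 1}, a1, b * (m + 1), by simp, by simp, ha1, ?_,
        den a b m B Q ha haB hQ hm2 (not_lt.1 h), ?_⟩
      · refine lt_of_le_of_lt (Nat.mul_le_mul_left a1 ?_) (hsq M haM)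
        nlinarith
      · rw [hq, ← Multiset.cons_zero, rs_cons, rs_zero, add_zero]
  | succ j ih =>
    intro a b M ha hab haB hM haM hQM hbB
    by_cases h : a * Q < b
    · exact ⟨0, a, b, by simp, by simp, ha, h, hbB, by rw [rs_zero, zero_add]⟩
    · obtain ⟨m, a1, b1, hm1, hm2, rfl, ha1, ha1a, hq, hsq, -⟩ := step a b ha hab
      have h1 := hsq M haM
      have hlt : a1 < b * (m + 1) := by
        refine lt_of_le_of_lt ?_ h1
        exact Nat.le_mul_of_pos_right a1 (pow_pos hM 2)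
      have hQ2 : Q ≤ (M ^ 2) ^ 2 ^ j := by
        rw [← pow_mul, mul_comm 2, ← pow_succ]
        exact hQM
      obtain ⟨s, a', b', hs, hpos, ha', hQ', hb', heq⟩ := ih a1 (b * (m + 1)) (M ^ 2) ha1 hlt
        (ha1a.trans haB) (Nat.one_le_pow _ _ hM) h1.le hQ2
        (den a b m B Q ha haB hQ hm2 (not_lt.1 h))
      refine ⟨(m + 1) ::ₘ s, a', b', ?_, ?_, ha', hQ', hb', ?_⟩
      · rw [Multiset.card_cons]
        omega
      · intro x hx
        rcases Multiset.mem_cons.1 hx with rfl | hx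
        · exact Nat.succ_pos m
        · exact hpos x hx
      · rw [hq, heq, rs_cons, add_assoc]

end GREx

open GREx in
theorem t_GRE : S_GRE := by
  intro a b Q k ha hab hQ hQk
  by_cases h : a * Q < b
  · refine ⟨0, a, b, by simp, by simp, ha, h, ?_, by rw [rs_zero, zero_add]⟩
    have h1 : 1 ≤ Q ^ 2 := Nat.one_le_pow _ _ hQ
    nlinarith
  · obtain ⟨m, a1, b1, hm1, hm2, rfl, ha1, ha1a, hq, -, h2⟩ := step a b ha hab
    have hlt : a1 < b * (m + 1) := by omega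
    obtain ⟨s, a', b', hs, hpos, ha', hQ', hb', heq⟩ := core b Q hQ k a1 (b * (m + 1)) 2 ha1 hlt
      (ha1a.trans hab.le) (by norm_num) h2 hQk
      (den a b m b Q ha hab.le hQ hm2 (not_lt.1 h))
    refine ⟨(m + 1) ::ₘ s, a', b', ?_, ?_, ha', hQ', hb', ?_⟩
    · rw [Multiset.card_cons]
      omega
    · intro x hx
      rcases Multiset.mem_cons.1 hx with rfl | hx
      · exact Nat.succ_pos m
      · exact hpos x hx
    · rw [hq, heq, rs_cons, add_assoc]

end Pool.Agent.UFL
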