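import Mathlib
import Pool.Agent.UFL.St

set_option autoImplicit false

namespace Pool.Agent.UFL

open Finset

theorem main1_pow (l : ℕ) (hl : 21 ≤ l) : 34000 * l ≤ 2 ^ (l - 1) := by
  induction l, hl using Nat.le_induction with
  | base => norm_num
  | succ n hn ih =>
    have h1 : n + 1 - 1 = (n - 1) + 1 := by omega
    rw [h1, pow_succ]
    omega

theorem main1_rs_add (s t : Multiset ℕ) : rs (s + t) = rs s + rs t := by
  simp [rs]

theorem main1_UF_add {k k' : ℕ} {q q' : ℚ} (h : UF k q) (h' : UF k' q') : UF (k + k') (q + q') := by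
  obtain ⟨s, h1, h2, h3⟩ := h
  obtain ⟨s', h1', h2', h3'⟩ := h'
  refine ⟨s + s', ?_, ?_, ?_⟩
  · rw [Multiset.card_add]
    omega
  · intro x hx
    rcases Multiset.mem_add.1 hx with hx | hx
    · exact h2 x hx
    · exact h2' x hx
  · rw [main1_rs_add, h3, h3']

/-- MAIN1. -/
theorem MAIN1 (hENG : S_ENG) (hDIG : S_DIG) (hGRE : S_GRE) (hSPL : S_SPL) (hMUL : S_MUL) :
    S_MAIN1 := by
  obtain ⟨l₀, hl₀⟩ := hENG
  refine ⟨max l₀ 21, ?_⟩
  intro l hl a b ha hab hb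
  have hl21 : 21 ≤ l := le_trans (le_max_right _ _) hl
  obtain ⟨Q, hQ1, hQ2, hQ⟩ := hl₀ l (le_trans (le_max_left _ _) hl)
  have hpow := main1_pow l hl21
  have hlw : 2 ^ l = 2 * 2 ^ (l - 1) := by
    have h1 : l = (l - 1) + 1 := by omega
    conv_lhs => rw [h1]
    rw [pow_succ]
    ring
  -- notation
  obtain ⟨w, hw⟩ : ∃ w : ℕ, w = 2 ^ l := ⟨_, rfl⟩
  have hw1 : 68000 * l ≤ w := by omega
  have hwd : w = 2 ^ (l - 5) * 32 := by
    rw [hw]
    have h1 : l = (l - 5) + 5 := by omega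
    conv_lhs => rw [h1]
    rw [pow_add]
    norm_num
  obtain ⟨d, hd⟩ : ∃ d : ℕ, d = 2 ^ (l - 5) := ⟨_, rfl⟩
  obtain ⟨e, he⟩ : ∃ e : ℕ, e = 32 * (40 * l + 4) := ⟨_, rfl⟩
  have hde : d * e = w * (40 * l + 4) := by
    rw [hwd, ← hd, he]
    ring
  have hdig := hDIG Q d hQ1 (by rw [hd]; exact hQ) e
  obtain ⟨P, hP⟩ : ∃ P : ℕ, P = 2 ^ (d * e) := ⟨_, rfl⟩
  have hP1 : 1 ≤ P := by rw [hP]; exact Nat.one_le_two_pow
  rw [← hw] at hQ2 hb
  -- greedy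
  have hQk : Q ≤ 2 ^ 2 ^ (2 * l) := by
    refine hQ2.trans (Nat.pow_le_pow_right (by norm_num) ?_)
    have h1 : 2 ^ (2 * l) = w * w := by rw [two_mul, pow_add, hw]
    rw [h1]
    exact Nat.mul_le_mul_right w (by omega)
  obtain ⟨s, a', b', hs1, hs2, ha', haQ, hb', hsum⟩ := hGRE a b Q (2 * l) ha hab hQ1 hQk
  have hb'0 : 0 < b' := by omega
  -- `b' ≤ P`
  have hbQ : 2 * b * Q ^ 2 ≤ 2 ^ (1 + w + 2 * (20 * l * w)) := by
    have h1 : 2 ^ (1 + w + 2 * (20 * l * w)) = 2 * 2 ^ w * (2 ^ (20 * l * w)) ^ 2 := by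
      rw [pow_add, pow_add, ← pow_mul, pow_one, Nat.mul_comm 2 (20 * l * w)]
    rw [h1]
    exact Nat.mul_le_mul (Nat.mul_le_mul_left 2 hb) (Nat.pow_le_pow_left hQ2 2)
  have hw68 : 68000 ≤ w := by omega
  have hb'P : b' ≤ P := by
    refine hb'.trans (hbQ.trans ?_)
    rw [hP, hde]
    apply Nat.pow_le_pow_right (by norm_num)
    nlinarith
  -- the number `x`
  obtain ⟨x, hx⟩ : ∃ x : ℕ, x = a' * P * Q / b' := ⟨_, rfl⟩
  obtain ⟨r, hr⟩ : ∃ r : ℕ, r = a' * P * Q % b' := ⟨_, rfl⟩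
  have hxr : a' * P * Q = b' * x + r := by
    rw [hx, hr]
    exact (Nat.div_add_mod _ _).symm
  have hrb : r < b' := by rw [hr]; exact Nat.mod_lt _ hb'0
  have hxP : x < P := by
    rw [hx, Nat.div_lt_iff_lt_mul hb'0]
    calc a' * P * Q = P * (a' * Q) := by ring
      _ < P * b' := Nat.mul_lt_mul_of_pos_left haQ (by omega)
  have hx2 : 2 ^ w + 1 ≤ x := by
    rw [hx, Nat.le_div_iff_mul_le hb'0]
    have h1 : (2 ^ w + 1) * b' ≤ 2 ^ (w + 1) * (2 * 2 ^ w * Q ^ 2) := by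
      apply Nat.mul_le_mul
      · rw [pow_succ]
        have := Nat.one_le_two_pow (n := w)
        omega
      · exact hb'.trans (Nat.mul_le_mul_right _ (Nat.mul_le_mul_left 2 hb))
    have h2 : 2 ^ (w + 1) * (2 * 2 ^ w * Q ^ 2) ≤ P * Q := by
      have h3 : 2 ^ (w + 1) * (2 * 2 ^ w) * Q ≤ P := by
        calc 2 ^ (w + 1) * (2 * 2 ^ w) * Q ≤ 2 ^ (w + 1) * (2 * 2 ^ w) * 2 ^ (20 * l * w) :=
              Nat.mul_le_mul_left _ hQ2
          _ = 2 ^ ((w + 1) + (1 + w) + 20 * l * w) := by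
              rw [pow_add 2 ((w + 1) + (1 + w)) (20 * l * w), pow_add 2 (w + 1) (1 + w),
                pow_add 2 1 w, pow_one]
          _ ≤ P := by
              rw [hP, hde]
              apply Nat.pow_le_pow_right (by norm_num)
              nlinarith
      calc 2 ^ (w + 1) * (2 * 2 ^ w * Q ^ 2) = 2 ^ (w + 1) * (2 * 2 ^ w) * Q * Q := by ring
        _ ≤ P * Q := Nat.mul_le_mul_right Q h3
    calc (2 ^ w + 1) * b' ≤ P * Q := h1.trans h2
      _ ≤ a' * P * Q := by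
          rw [Nat.mul_assoc]
          exact Nat.le_mul_of_pos_left _ (by omega)
  -- rational numbers
  have hPq : (0 : ℚ) < (P : ℚ) := by exact_mod_cast hP1
  have hQq : (0 : ℚ) < (Q : ℚ) := by exact_mod_cast hQ1
  have hbq : (0 : ℚ) < (b' : ℚ) := by exact_mod_cast hb'0
  have hPcast : ((2 : ℚ) ^ (d * e)) = (P : ℚ) := by rw [hP]; push_cast; rfl
  have hUF1 : ∀ σ : ℕ, 1 ≤ σ → σ < x → UF (4 * (e + 1)) ((σ : ℚ) * (1 / ((P : ℚ) * Q))) := by
    intro σ _ hσ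
    have h1 := hdig σ 1 (by
      calc σ < P := hσ.trans hxP
        _ ≤ 2 ^ (d * (e + 1)) := by
          rw [hP]
          exact Nat.pow_le_pow_right (by norm_num) (Nat.mul_le_mul_left d (by omega))) le_rfl
    rw [hPcast] at h1
    convert h1 using 1
    push_cast
    field_simp
  have hUF2 : UF (4 * (e + 1)) ((r : ℚ) / ((P : ℚ) * Q * b')) := by
    have h1 := hdig r b' (by
      calc r < P := lt_of_lt_of_le hrb hb'P
        _ ≤ 2 ^ (d * (e + 1)) := by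
          rw [hP]
          exact Nat.pow_le_pow_right (by norm_num) (Nat.mul_le_mul_left d (by omega))) hb'0
    rw [hPcast] at h1
    exact h1
  have hUF3 : UF (2 * l + 2 + 4 * (e + 1)) (rs s + (r : ℚ) / ((P : ℚ) * Q * b')) :=
    main1_UF_add ⟨s, hs1, hs2, rfl⟩ hUF2
  obtain ⟨t', ht', hC⟩ := hMUL (1 / ((P : ℚ) * Q)) _ x (4 * (e + 1)) _ (by positivity) hUF1 hUF3
  have hval : (x : ℚ) * (1 / ((P : ℚ) * Q)) + (rs s + (r : ℚ) / ((P : ℚ) * Q * b')) =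
      (a : ℚ) / b := by
    rw [hsum]
    have h1 : ((a' : ℚ) * P * Q) = b' * x + r := by exact_mod_cast hxr
    have h2 : (a' : ℚ) / b' = ((a' : ℚ) * P * Q) / ((P : ℚ) * Q * b') := by
      field_simp
    rw [h2, h1]
    field_simp
    ring
  rw [hval] at hC
  obtain ⟨T, hT⟩ : ∃ T : ℕ, T = 2 * (4 * (e + 1)) + (2 * l + 2 + 4 * (e + 1)) := ⟨_, rfl⟩
  rw [← hT] at hC ht'
  have hT2 : T ≤ 17000 * l := by omega
  have hab0 : (0 : ℚ) < (a : ℚ) / b := by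
    have h1 : (0 : ℚ) < a := by exact_mod_cast ha
    have h2 : (0 : ℚ) < b := by exact_mod_cast (lt_trans ha hab)
    positivity
  have hC2 := hSPL _ t' (17000 * l) _ hab0 (ht'.trans hT2) hC
  obtain ⟨F, hF1, hF2⟩ := hC2
  refine ⟨F, hF1, le_trans ?_ hF2⟩
  rw [Nat.le_div_iff_mul_le (by positivity)]
  have h5 : T + 1 ≤ 2 ^ T := Nat.lt_two_pow_self
  calc 2 ^ 2 ^ (l - 1) * (2 ^ T * (T + 1)) ≤ 2 ^ 2 ^ (l - 1) * (2 ^ T * 2 ^ T) :=
        Nat.mul_le_mul_left _ (Nat.mul_le_mul_left _ h5)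
    _ = 2 ^ (2 ^ (l - 1) + (T + T)) := by rw [pow_add, pow_add]
    _ ≤ 2 ^ w := Nat.pow_le_pow_right (by norm_num) (by omega)
    _ ≤ x - 1 := by omega

end Pool.Agent.UFL
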