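import Pool.Agent.UFL.St

/-!
# MAIN2 from MAIN1 and SPL
-/

set_option autoImplicit false

namespace Pool.Agent.UFL

open Finset

private lemma expexp_le (t l : ℕ) (hl : 20 ≤ l) (ht : t < 17000 * (l + 1)) :
    Real.exp (Real.exp ((t : ℝ) / 30000)) ≤ ((2 ^ 2 ^ (l - 1) : ℕ) : ℝ) := by
  have hlog : (0.6931 : ℝ) < Real.log 2 := by
    have := Real.log_two_gt_d9
    linarith
  have htR : (t : ℝ) < 17000 * ((l : ℝ) + 1) := by exact_mod_cast ht
  have hlR : (20 : ℝ) ≤ (l : ℝ) := by exact_mod_cast hl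
  obtain ⟨k, rfl⟩ : ∃ k, l = k + 2 := ⟨l - 2, by omega⟩
  have hk : ((k + 2 : ℕ) : ℝ) = (k : ℝ) + 2 := by push_cast; ring
  rw [hk] at htR hlR
  have hx : (t : ℝ) / 30000 ≤ (k : ℝ) * Real.log 2 := by
    have h1 : (t : ℝ) / 30000 ≤ (17 / 30 : ℝ) * ((k : ℝ) + 3) := by
      rw [div_le_iff₀ (by norm_num)]
      nlinarith
    have h2 : (17 / 30 : ℝ) * ((k : ℝ) + 3) ≤ (k : ℝ) * 0.6931 := by nlinarith
    have h3 : (k : ℝ) * 0.6931 ≤ (k : ℝ) * Real.log 2 :=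
      mul_le_mul_of_nonneg_left hlog.le (by linarith)
    linarith
  have h4 : Real.exp ((t : ℝ) / 30000) ≤ 2 ^ k := by
    calc Real.exp ((t : ℝ) / 30000) ≤ Real.exp ((k : ℝ) * Real.log 2) := Real.exp_le_exp.mpr hx
      _ = 2 ^ k := by
        rw [Real.exp_nat_mul, Real.exp_log (by norm_num)]
  have h5 : (2 : ℝ) ^ k ≤ ((2 ^ (k + 1) : ℕ) : ℝ) * Real.log 2 := by
    push_cast
    rw [pow_succ]
    have : (0 : ℝ) < 2 ^ k := by positivity
    nlinarith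
  have h6 : Real.exp (((2 ^ (k + 1) : ℕ) : ℝ) * Real.log 2) = ((2 ^ 2 ^ (k + 1) : ℕ) : ℝ) := by
    rw [Real.exp_nat_mul, Real.exp_log (by norm_num)]
    push_cast
    rfl
  have h7 : k + 2 - 1 = k + 1 := by omega
  rw [h7, ← h6]
  exact Real.exp_le_exp.mpr (h4.trans h5)

theorem t_MAIN2 (hM : S_MAIN1) (hS : S_SPL) : S_MAIN2 := by
  obtain ⟨l₀, hM⟩ := hM
  refine ⟨17000 * (max l₀ 20), fun t ht a b ha hab hb => ?_⟩
  have hl1 : max l₀ 20 ≤ t / 17000 := by omega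
  have hl0 : l₀ ≤ t / 17000 := (le_max_left _ _).trans hl1
  have hl20 : 20 ≤ t / 17000 := (le_max_right _ _).trans hl1
  have htl : t < 17000 * (t / 17000 + 1) := by omega
  have hle := expexp_le t (t / 17000) hl20 htl
  refine ⟨2 ^ 2 ^ (t / 17000 - 1), hle, ?_⟩
  have hbn : b ≤ 2 ^ 2 ^ (t / 17000 - 1) := by
    have := hb.trans hle
    exact_mod_cast this
  have hb2 : b ≤ 2 ^ 2 ^ (t / 17000) := by
    refine hbn.trans ?_
    apply Nat.pow_le_pow_right (by norm_num)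
    apply Nat.pow_le_pow_right (by norm_num)
    omega
  have hc := hM (t / 17000) hl0 a b ha hab hb2
  have haQ : (0 : ℚ) < (a : ℚ) := by exact_mod_cast (by omega : 0 < a)
  have hbQ : (0 : ℚ) < (b : ℚ) := by exact_mod_cast (by omega : 0 < b)
  exact hS ((a : ℚ) / b) (17000 * (t / 17000)) t _ (div_pos haQ hbQ) (by omega) hc

end Pool.Agent.UFL
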