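import Mathlib
import Pool.Agent.UFL.St

/-!
# `t_MUL` for MP_dcc108_nt: multiplicity
-/

set_option autoImplicit false

namespace Pool.Agent.UFL

open Finset

theorem tMUL_rs_add (s t : Multiset ℕ) : rs (s + t) = rs s + rs t := by
  simp [rs, Multiset.map_add, Multiset.sum_add]

theorem t_MUL : S_MUL := by
  classical
  intro ε ρ x k k' hε hσ hρ
  obtain ⟨R, hRc, hR0, hRs⟩ := hρ
  -- choose the representations
  have hex : ∀ σ : ℕ, ∃ A : Multiset ℕ, 1 ≤ σ → σ < x →
      Multiset.card A ≤ k ∧ (∀ y ∈ A, 0 < y) ∧ rs A = σ * ε := by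
    intro σ
    by_cases h : 1 ≤ σ ∧ σ < x
    · obtain ⟨A, h1, h2, h3⟩ := hσ σ h.1 h.2
      exact ⟨A, fun _ _ => ⟨h1, h2, h3⟩⟩
    · exact ⟨0, fun h1 h2 => absurd ⟨h1, h2⟩ h⟩
  choose A hA using hex
  set m : ℕ := 2 * k + k' with hm
  let M : ℕ → Multiset ℕ := fun σ => A σ + A (x - σ) + R
  have hM : ∀ σ ∈ Finset.Ico 1 x, Multiset.card (M σ) ≤ m ∧ (∀ y ∈ M σ, 0 < y) ∧
      rs (M σ) = x * ε + ρ := by
    intro σ hs
    rw [Finset.mem_Ico] at hs
    obtain ⟨h1, h2, h3⟩ := hA σ hs.1 hs.2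
    obtain ⟨h1', h2', h3'⟩ := hA (x - σ) (by omega) (by omega)
    refine ⟨?_, ?_, ?_⟩
    · simp only [M, Multiset.card_add]
      omega
    · intro y hy
      simp only [M, Multiset.mem_add] at hy
      rcases hy with (hy | hy) | hy
      · exact h2 y hy
      · exact h2' y hy
      · exact hR0 y hy
    · simp only [M, tMUL_rs_add, h3, h3', hRs]
      rw [Nat.cast_sub hs.2.le]
      ring
  set F : Finset (Multiset ℕ) := (Finset.Ico 1 x).image M with hF
  have hfib : ∀ a ∈ (Finset.Ico 1 x).image M,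
      ((Finset.Ico 1 x).filter fun σ => M σ = a).card ≤ 2 ^ m := by
    intro a ha
    obtain ⟨σ₀, hσ₀, rfl⟩ := Finset.mem_image.1 ha
    have h1 : ((Finset.Ico 1 x).filter fun σ => M σ = M σ₀).card ≤
        ((M σ₀).powerset.toFinset).card := by
      apply Finset.card_le_card_of_injOn A
      · intro σ hs
        have hs' := Finset.mem_filter.1 hs
        have : A σ ≤ M σ₀ := by
          rw [← hs'.2]
          exact (Multiset.le_add_right _ _).trans (Multiset.le_add_right _ _)
        simpa using this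
      · intro σ hs τ ht hst
        have hs' := Finset.mem_filter.1 hs
        have ht' := Finset.mem_filter.1 ht
        have hs2 := Finset.mem_Ico.1 hs'.1
        have ht2 := Finset.mem_Ico.1 ht'.1
        have e1 := (hA σ hs2.1 hs2.2).2.2
        have e2 := (hA τ ht2.1 ht2.2).2.2
        have e3 : (σ : ℚ) * ε = τ * ε := by rw [← e1, ← e2, hst]
        have e4 := mul_right_cancel₀ hε.ne' e3
        exact_mod_cast e4
    refine h1.trans ?_
    refine (Multiset.toFinset_card_le _).trans ?_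
    rw [Multiset.card_powerset]
    exact Nat.pow_le_pow_right (by norm_num) (hM σ₀ hσ₀).1
  have hcard : (Finset.Ico 1 x).card ≤ 2 ^ m * F.card :=
    Finset.card_le_mul_card_image _ _ hfib
  rw [Nat.card_Ico] at hcard
  set K : ℕ := (x - 1) / (2 ^ m * (m + 1)) with hK
  have hKle : K * (2 ^ m * (m + 1)) ≤ x - 1 := Nat.div_mul_le_self _ _
  have hn : (Finset.range (m + 1)).card * K ≤ F.card := by
    rw [Finset.card_range]
    have h2 : 2 ^ m * ((m + 1) * K) ≤ 2 ^ m * F.card := by
      calc 2 ^ m * ((m + 1) * K) = K * (2 ^ m * (m + 1)) := by ring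
        _ ≤ x - 1 := hKle
        _ ≤ _ := hcard
    exact Nat.le_of_mul_le_mul_left h2 (by positivity)
  obtain ⟨t', ht', hle⟩ := Finset.exists_le_card_fiber_of_mul_le_card_of_maps_to
    (s := F) (t := Finset.range (m + 1)) (f := fun s => Multiset.card s) (n := K) (by
      intro s hs
      obtain ⟨σ, h1, rfl⟩ := Finset.mem_image.1 hs
      exact Finset.mem_range.2 (Nat.lt_succ_of_le (hM σ h1).1)) ⟨0, by simp⟩ hn
  refine ⟨t', by
    have := Finset.mem_range.1 ht'
    omega, F.filter fun s => Multiset.card s = t', ?_, hle⟩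
  intro s hs
  obtain ⟨h1, h2⟩ := Finset.mem_filter.1 hs
  obtain ⟨σ, h3, rfl⟩ := Finset.mem_image.1 h1
  exact ⟨h2, (hM σ h3).2.1, (hM σ h3).2.2⟩

end Pool.Agent.UFL
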