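import Mathlib
import Pool.Agent.UFL.Defs
import Pool.Agent.UFL.St

set_option autoImplicit false

/-!
# UFL: module NICE
-/

namespace Pool.Agent.UFL

open Finset

theorem NICE : S_NICE := by
  classical
  intro n w q hn hq hsum
  have : NeZero n := ⟨by omega⟩
  by_contra hnice
  have hno : ∀ S : Finset (Fin w), (-1 : ZMod n) ≠ ∏ i ∈ S, (q i : ZMod n) := by
    intro S h
    apply hnice
    refine ⟨S, ?_⟩
    have h1 : (((∏ i ∈ S, q i) + 1 : ℕ) : ZMod n) = 0 := by
      push_cast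
      rw [← h]
      ring
    exact (ZMod.natCast_eq_zero_iff _ _).mp h1
  have hzero : ∑ χ : DirichletCharacter ℂ n,
      χ ((-1 : ZMod n)⁻¹) * ∏ i, (1 + χ (q i : ZMod n)) = 0 := by
    have h1 : ∀ χ : DirichletCharacter ℂ n,
        χ ((-1 : ZMod n)⁻¹) * ∏ i, (1 + χ (q i : ZMod n)) =
          ∑ S ∈ (Finset.univ : Finset (Fin w)).powerset,
            χ ((-1 : ZMod n)⁻¹) * χ (∏ i ∈ S, (q i : ZMod n)) := by
      intro χ
      rw [Finset.prod_one_add, Finset.mul_sum]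
      apply Finset.sum_congr rfl
      intro S _
      rw [map_prod]
    rw [Finset.sum_congr rfl (fun χ _ => h1 χ), Finset.sum_comm]
    apply Finset.sum_eq_zero
    intro S _
    rw [DirichletCharacter.sum_char_inv_mul_char_eq ℂ (isUnit_one.neg), if_neg (hno S)]
  have hu : IsUnit ((-1 : ZMod n)⁻¹) := by
    have h1 : (-1 : ZMod n)⁻¹ = -1 := by
      have h2 : (-1 : ZMod n) * (-1) = 1 := by ring
      exact ZMod.inv_eq_of_mul_eq_one n (-1) (-1) h2
    rw [h1]
    exact isUnit_one.neg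
  have hone : ((1 : DirichletCharacter ℂ n) ((-1 : ZMod n)⁻¹) *
      ∏ i, (1 + (1 : DirichletCharacter ℂ n) (q i : ZMod n))) = 2 ^ w := by
    rw [MulChar.one_apply hu, one_mul]
    have h1 : ∀ i : Fin w, (1 + (1 : DirichletCharacter ℂ n) (q i : ZMod n)) = 2 := by
      intro i
      rw [MulChar.one_apply ((ZMod.isUnit_iff_coprime _ _).mpr (hq i))]
      norm_num
    rw [Finset.prod_congr rfl (fun i _ => h1 i), Finset.prod_const]
    simp
  have honen : ∏ i, ‖1 + (1 : DirichletCharacter ℂ n) (q i : ZMod n)‖ = (2 : ℝ) ^ w := by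
    have h1 : ∀ i : Fin w, ‖1 + (1 : DirichletCharacter ℂ n) (q i : ZMod n)‖ = 2 := by
      intro i
      rw [MulChar.one_apply ((ZMod.isUnit_iff_coprime _ _).mpr (hq i))]
      norm_num
    rw [Finset.prod_congr rfl (fun i _ => h1 i), Finset.prod_const]
    simp
  rw [← Finset.add_sum_erase _ _ (Finset.mem_univ (1 : DirichletCharacter ℂ n)), hone] at hzero
  rw [← Finset.add_sum_erase _ _ (Finset.mem_univ (1 : DirichletCharacter ℂ n)), honen] at hsum
  have hle : ‖∑ χ ∈ Finset.univ.erase (1 : DirichletCharacter ℂ n),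
      χ ((-1 : ZMod n)⁻¹) * ∏ i, (1 + χ (q i : ZMod n))‖ ≤
      ∑ χ ∈ Finset.univ.erase (1 : DirichletCharacter ℂ n),
        ∏ i, ‖1 + χ (q i : ZMod n)‖ := by
    refine le_trans (norm_sum_le _ _) (Finset.sum_le_sum fun χ _ => ?_)
    rw [norm_mul, norm_prod]
    have h1 : ‖χ ((-1 : ZMod n)⁻¹)‖ ≤ 1 := DirichletCharacter.norm_le_one χ _
    have h2 : 0 ≤ ∏ i, ‖1 + χ (q i : ZMod n)‖ := Finset.prod_nonneg fun i _ => norm_nonneg _
    nlinarith
  have heq : ∑ χ ∈ Finset.univ.erase (1 : DirichletCharacter ℂ n),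
      χ ((-1 : ZMod n)⁻¹) * ∏ i, (1 + χ (q i : ZMod n)) = -(2 ^ w) := by
    linear_combination hzero
  rw [heq, norm_neg, norm_pow] at hle
  have h2 : ‖(2 : ℂ)‖ = 2 := by norm_num
  rw [h2] at hle
  have h3 : (2 : ℝ) ^ (w + 1) = 2 ^ w + 2 ^ w := by ring
  linarith

end Pool.Agent.UFL
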