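import Mathlib
import Pool.Agent.UFL.St

/-!
UFL_PRE: prescribed parts (module by helper39).
-/

set_option autoImplicit false

namespace Pool.Agent.UFL

open Finset

namespace PRE

theorem rs_add (s u : Multiset ℕ) : rs (s + u) = rs s + rs u := by
  simp [rs]

/-- The sum of the reciprocals with the common denominator `L`. -/
theorem rs_eq (A : Multiset ℕ) (L : ℕ) (hL : 1 ≤ L) (hA : ∀ n ∈ A, 0 < n ∧ n ∣ L) :
    rs A = (((A.map fun n => L / n).sum : ℕ) : ℚ) / L := by
  have hL0 : (L : ℚ) ≠ 0 := by exact_mod_cast (by omega : L ≠ 0)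
  induction A using Multiset.induction_on with
  | empty => simp [rs]
  | cons n A ih =>
    have h1 := ih fun m hm => hA m (Multiset.mem_cons_of_mem hm)
    obtain ⟨hn0, k, hk⟩ := hA n (Multiset.mem_cons_self n A)
    have hn : (n : ℚ) ≠ 0 := by exact_mod_cast hn0.ne'
    have e1 : L / n = k := by rw [hk]; exact Nat.mul_div_cancel_left k hn0
    have e2 : rs (n ::ₘ A) = 1 / (n : ℚ) + rs A := by simp [rs]
    rw [e2, h1, Multiset.map_cons, Multiset.sum_cons, e1]
    have e3 : (L : ℚ) = n * k := by exact_mod_cast hk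
    have hk0 : (k : ℚ) ≠ 0 := by
      intro h
      rw [h, mul_zero] at e3
      exact hL0 e3
    push_cast
    rw [add_div, e3]
    congr 1
    field_simp

theorem sum_pos (A : Multiset ℕ) (L : ℕ) (hL : 1 ≤ L) (hA : ∀ n ∈ A, 0 < n ∧ n ∣ L) (h0 : A ≠ 0) :
    1 ≤ (A.map fun n => L / n).sum := by
  obtain ⟨n, hn⟩ := Multiset.exists_mem_of_ne_zero h0
  obtain ⟨A', rfl⟩ := Multiset.exists_cons_of_mem hn
  obtain ⟨hn0, hd⟩ := hA n hn
  rw [Multiset.map_cons, Multiset.sum_cons]
  have : 1 ≤ L / n := Nat.div_pos (Nat.le_of_dvd hL hd) hn0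
  omega

end PRE

open PRE in
/-- **PRE**. -/
theorem t_PRE (hM : S_MAIN2) (hB : S_BRG) (hF : S_FIN) : S_PRE := by
  obtain ⟨t₀, ht₀⟩ := hM
  refine ⟨t₀, fun t ht A L h0 hA hL hlt hexp => ?_⟩
  have hL0 : (0 : ℚ) < L := by exact_mod_cast (by omega : 0 < L)
  set s := (A.map fun n => L / n).sum with hs
  have e1 : rs A = (s : ℚ) / L := rs_eq A L hL hA
  have s1 : 1 ≤ s := sum_pos A L hL hA h0
  have s2 : s < L := by
    rw [e1, div_lt_one hL0] at hlt
    exact_mod_cast hlt
  obtain ⟨K, hK, F, hF1, hF2⟩ := ht₀ t ht (L - s) L (by omega) (by omega) hexp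
  have e2 : ((L - s : ℕ) : ℚ) / L = 1 - rs A := by
    rw [Nat.cast_sub s2.le, e1, sub_div, div_self hL0.ne']
  have fin : (Sol 1 (Multiset.card A + t)).Finite := by
    have := hF.1 1 1 (Multiset.card A + t) le_rfl le_rfl
    simpa using this
  have hb := hB 1 (Multiset.card A + t) K A (F.image fun u => A + u) fin ?_ ?_
  · exact hK.trans (by exact_mod_cast hb)
  · intro u hu
    obtain ⟨v, hv, rfl⟩ := Finset.mem_image.1 hu
    obtain ⟨v1, v2, v3⟩ := hF1 v hv
    refine ⟨by rw [Multiset.card_add, v1], fun x hx => ?_, ?_, Multiset.le_add_right A v⟩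
    · rcases Multiset.mem_add.1 hx with hx | hx
      · exact (hA x hx).1
      · exact v2 x hx
    · rw [rs_add, v3, e2]
      ring
  · rw [Finset.card_image_of_injective _ (add_right_injective A)]
    exact hF2

end Pool.Agent.UFL
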