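import Mathlib
import Pool.Agent.UFL.St2

set_option autoImplicit false

/-!
# Module PRE2: prescribed sets
-/

namespace Pool.Agent.UFL

open Finset

/-- The sum of the reciprocals with the common denominator `L`. -/
theorem pre2_sum_eq (A : Finset ℕ) (L : ℕ) (hL : 1 ≤ L) (hA : ∀ n ∈ A, 0 < n ∧ n ∣ L) :
    ∑ n ∈ A, (1 : ℚ) / (n : ℚ) = ((∑ n ∈ A, L / n : ℕ) : ℚ) / L := by
  have hL0 : (L : ℚ) ≠ 0 := by exact_mod_cast (by omega : L ≠ 0)
  rw [Nat.cast_sum, Finset.sum_div]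
  refine Finset.sum_congr rfl fun n hn => ?_
  obtain ⟨h0, hd⟩ := hA n hn
  have hn0 : (n : ℚ) ≠ 0 := by exact_mod_cast h0.ne'
  rw [Nat.cast_div hd hn0]
  field_simp

theorem pre2_sum_pos (A : Finset ℕ) (L : ℕ) (hL : 1 ≤ L) (hA : ∀ n ∈ A, 0 < n ∧ n ∣ L)
    (h0 : A.Nonempty) : 1 ≤ ∑ n ∈ A, L / n := by
  obtain ⟨n, hn⟩ := h0
  obtain ⟨hn0, hd⟩ := hA n hn
  have h1 : 1 ≤ L / n := Nat.div_pos (Nat.le_of_dvd hL hd) hn0
  exact h1.trans (Finset.single_le_sum (f := fun n => L / n) (fun _ _ => Nat.zero_le _) hn)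

/-- **PRE2**. -/
theorem t_PRE2 (hM : S_MAIN2D) (hB : S_BRG2) (hF : S_FIN) : S_PRE2 := by
  obtain ⟨t₀, ht₀⟩ := hM
  refine ⟨t₀, fun t ht A L h0 hA hL hlt hexp hcard => ?_⟩
  have hL0 : (0 : ℚ) < L := by exact_mod_cast (by omega : 0 < L)
  set s := ∑ n ∈ A, L / n with hs
  have e1 : ∑ n ∈ A, (1 : ℚ) / (n : ℚ) = (s : ℚ) / L := pre2_sum_eq A L hL hA
  have s1 : 1 ≤ s := pre2_sum_pos A L hL hA h0
  have s2 : s < L := by
    rw [e1, div_lt_one hL0] at hlt
    exact_mod_cast hlt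
  obtain ⟨K, hK, F, hF1, hF2⟩ := ht₀ t ht (L - s) L A (by omega) (by omega) hexp hcard
    (fun y hy => le_trans (by exact_mod_cast Nat.le_of_dvd hL (hA y hy).2) hexp)
  have e2 : ((L - s : ℕ) : ℚ) / L = 1 - ∑ n ∈ A, (1 : ℚ) / (n : ℚ) := by
    rw [Nat.cast_sub s2.le, e1, sub_div, div_self hL0.ne']
  have fin : (Sol 1 (A.card + t)).Finite := by
    have := hF.1 1 1 (A.card + t) le_rfl le_rfl
    simpa using this
  have hb := hB 1 (A.card + t) K A (F.image fun S => A ∪ S) fin ?_ ?_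
  · exact hK.trans (by exact_mod_cast hb)
  · intro u hu
    obtain ⟨S, hS, rfl⟩ := Finset.mem_image.1 hu
    obtain ⟨v1, v2, v3, -, v5⟩ := hF1 S hS
    refine ⟨?_, fun x hx => ?_, ?_, Finset.subset_union_left⟩
    · rw [Finset.card_union_of_disjoint v2.symm, v1]
    · rcases Finset.mem_union.1 hx with hx | hx
      · exact (hA x hx).1
      · exact v3 x hx
    · rw [Finset.sum_union v2.symm, v5, e2]
      ring
  · rw [Finset.card_image_of_injOn]
    · exact hF2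
    · intro S hS S' hS' h
      have h1 := (hF1 S hS).2.1
      have h2 := (hF1 S' hS').2.1
      have h3 : A ∪ S = A ∪ S' := h
      have h4 : (A ∪ S) \ A = S := by
        rw [Finset.union_sdiff_left]
        exact Finset.sdiff_eq_self_of_disjoint h1
      have h5 : (A ∪ S') \ A = S' := by
        rw [Finset.union_sdiff_left]
        exact Finset.sdiff_eq_self_of_disjoint h2
      rw [← h4, ← h5, h3]

end Pool.Agent.UFL
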