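import Pool.Agent.UFL.St

/-!
# UFL, module SPL (helper11): splitting the largest element is injective
-/

set_option autoImplicit false

namespace Pool.Agent.UFL

open Finset

namespace SPL

lemma ex_max (s : Multiset ℕ) (h : s ≠ 0) : ∃ x ∈ s, ∀ y ∈ s, y ≤ x := by
  have h1 : s.toFinset.Nonempty := by
    obtain ⟨a, ha⟩ := Multiset.exists_mem_of_ne_zero h
    exact ⟨a, Multiset.mem_toFinset.2 ha⟩
  obtain ⟨x, hx, hx'⟩ := s.toFinset.exists_max_image id h1
  exact ⟨x, Multiset.mem_toFinset.1 hx, fun y hy => hx' y (Multiset.mem_toFinset.2 hy)⟩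

open Classical in
/-- The largest element. -/
noncomputable def mx (s : Multiset ℕ) : ℕ := if h : s ≠ 0 then (ex_max s h).choose else 0

lemma mx_mem {s : Multiset ℕ} (h : s ≠ 0) : mx s ∈ s := by
  unfold mx
  rw [dif_pos h]
  exact (ex_max s h).choose_spec.1

lemma le_mx {s : Multiset ℕ} (h : s ≠ 0) : ∀ y ∈ s, y ≤ mx s := by
  unfold mx
  rw [dif_pos h]
  exact (ex_max s h).choose_spec.2

/-- The splitting. -/
noncomputable def sp (s : Multiset ℕ) : Multiset ℕ :=
  (mx s + 1) ::ₘ (mx s * (mx s + 1)) ::ₘ s.erase (mx s)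

lemma rs_cons (a : ℕ) (s : Multiset ℕ) : rs (a ::ₘ s) = 1 / (a : ℚ) + rs s := by
  unfold rs
  rw [Multiset.map_cons, Multiset.sum_cons]

lemma sp_card {s : Multiset ℕ} (h : s ≠ 0) : Multiset.card (sp s) = Multiset.card s + 1 := by
  unfold sp
  rw [Multiset.card_cons, Multiset.card_cons, Multiset.card_erase_of_mem (mx_mem h)]
  have h1 : 0 < Multiset.card s := Multiset.card_pos.2 h
  rw [Nat.pred_eq_sub_one]
  omega

lemma sp_pos {s : Multiset ℕ} (h : s ≠ 0) (hp : ∀ x ∈ s, 0 < x) : ∀ x ∈ sp s, 0 < x := by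
  intro x hx
  unfold sp at hx
  rw [Multiset.mem_cons, Multiset.mem_cons] at hx
  have h1 : 0 < mx s := hp _ (mx_mem h)
  rcases hx with rfl | rfl | hx
  · omega
  · positivity
  · exact hp x (Multiset.mem_of_mem_erase hx)

lemma sp_rs {s : Multiset ℕ} (h : s ≠ 0) (hp : ∀ x ∈ s, 0 < x) : rs (sp s) = rs s := by
  have h1 : 0 < mx s := hp _ (mx_mem h)
  have h2 : (mx s : ℚ) ≠ 0 := by
    exact_mod_cast h1.ne'
  have h3 : (mx s : ℚ) + 1 ≠ 0 := by positivity
  have h4 : rs s = 1 / (mx s : ℚ) + rs (s.erase (mx s)) := by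
    rw [← rs_cons, Multiset.cons_erase (mx_mem h)]
  rw [h4]
  unfold sp
  rw [rs_cons, rs_cons]
  push_cast
  field_simp
  ring

lemma sp_le {s : Multiset ℕ} (h : s ≠ 0) (hp : ∀ x ∈ s, 0 < x) :
    ∀ x ∈ sp s, x ≤ mx s * (mx s + 1) := by
  intro x hx
  unfold sp at hx
  rw [Multiset.mem_cons, Multiset.mem_cons] at hx
  have h1 : 0 < mx s := hp _ (mx_mem h)
  rcases hx with rfl | rfl | hx
  · nlinarith
  · exact le_rfl
  · have h2 := le_mx h x (Multiset.mem_of_mem_erase hx)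
    nlinarith

lemma sp_mem (s : Multiset ℕ) : mx s * (mx s + 1) ∈ sp s := by
  unfold sp
  rw [Multiset.mem_cons, Multiset.mem_cons]
  exact Or.inr (Or.inl rfl)

lemma sp_inj {s t : Multiset ℕ} (hs : s ≠ 0) (ht : t ≠ 0) (hps : ∀ x ∈ s, 0 < x)
    (hpt : ∀ x ∈ t, 0 < x) (h : sp s = sp t) : s = t := by
  have h1 : mx s * (mx s + 1) ≤ mx t * (mx t + 1) := sp_le ht hpt _ (h ▸ sp_mem s)
  have h2 : mx t * (mx t + 1) ≤ mx s * (mx s + 1) := sp_le hs hps _ (h ▸ sp_mem t)
  have h3 : mx s = mx t := by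
    by_contra hne
    rcases Nat.lt_or_gt_of_ne hne with h4 | h4 <;> nlinarith
  unfold sp at h
  rw [h3] at h
  have h5 := (Multiset.cons_inj_right _).1 ((Multiset.cons_inj_right _).1 h)
  have h6 : s = mx t ::ₘ s.erase (mx t) := by
    rw [← h3, Multiset.cons_erase (mx_mem hs)]
  rw [h6, h5, Multiset.cons_erase (mx_mem ht)]

lemma step (q : ℚ) (t K : ℕ) (hq : 0 < q) (h : Cnt q t K) : Cnt q (t + 1) K := by
  classical
  obtain ⟨F, hF, hK⟩ := h
  have hne : ∀ s ∈ F, s ≠ 0 := by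
    intro s hs h0
    have h1 := (hF s hs).2.2
    rw [h0] at h1
    have h2 : rs 0 = 0 := by
      unfold rs
      simp
    rw [h2] at h1
    exact hq.ne h1
  refine ⟨F.image sp, fun s hs => ?_, ?_⟩
  · obtain ⟨u, hu, rfl⟩ := Finset.mem_image.1 hs
    obtain ⟨h1, h2, h3⟩ := hF u hu
    exact ⟨by rw [sp_card (hne u hu), h1], sp_pos (hne u hu) h2, by rw [sp_rs (hne u hu) h2, h3]⟩
  · rw [Finset.card_image_of_injOn]
    · exact hK
    · intro s hs u hu h
      exact sp_inj (hne s hs) (hne u hu) (hF s hs).2.1 (hF u hu).2.1 h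

end SPL

theorem t_SPL : S_SPL := by
  intro q t t' K hq htt h
  induction t', htt using Nat.le_induction with
  | base => exact h
  | succ n _ ih => exact SPL.step q n K hq ih

end Pool.Agent.UFL
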