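import Pool.Agent.UFL.St

/-!
# Module SUR: most numbers congruent to `1` or `-1` modulo `W` are nice
-/

set_option autoImplicit false

namespace Pool.Agent.UFL

open Finset

theorem t_SUR (hC : S_CLS) (hE : S_EXI) (hN : S_CNT) (hW : S_WLE) : S_SUR := by
  classical
  obtain ⟨l₁, h1⟩ := hC
  obtain ⟨l₂, h2⟩ := hW
  refine ⟨max (max l₁ l₂) 20, fun l hl => ?_⟩
  have hl1 : l₁ ≤ l := (le_max_left _ _).trans ((le_max_left _ _).trans hl)
  have hl2 : l₂ ≤ l := (le_max_right _ _).trans ((le_max_left _ _).trans hl)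
  have hl3 : 20 ≤ l := (le_max_right _ _).trans hl
  obtain ⟨-, hWl⟩ := h2 l hl2
  have hC1 := h1 l hl1 1
  have hC2 := h1 l hl1 (WW l - 1)
  set W : ℕ := WW l with hWd
  set N : ℕ := NN l with hNd
  have hW2 : 2 ≤ W := by
    have h3 : 2 ≤ 2 ^ 17 * l := by omega
    exact h3.trans (Nat.self_le_factorial _)
  have hWN : W ≤ N := by
    refine hWl.trans ?_
    rw [hNd, NN]
    exact Nat.pow_le_pow_right (by norm_num) (Nat.pow_le_pow_right (by norm_num) (by omega))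
  have hcop1 : Nat.Coprime 1 W := Nat.coprime_one_left W
  have hcop2 : Nat.Coprime (W - 1) W := by
    have h3 : Nat.Coprime (W - 1) (W - 1 + 1) := by simp
    rwa [Nat.sub_add_cancel (by omega)] at h3
  have e1 : 1 % W = 1 := Nat.mod_eq_of_lt (by omega)
  have e2 : (W - 1) % W = W - 1 := Nat.mod_eq_of_lt (by omega)
  have hb := hC1 hcop1
  have hc := hC2 hcop2
  rw [e1] at hb
  rw [e2] at hc
  -- the good numbers
  let A : Finset ℕ := (range (3 * N + 1)).filter fun n =>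
    (n % W = 1 ∨ n % W = W - 1) ∧ Good l n
  have hAcard : A.card ≤ 2 * (3 * N / W + 1) := by
    have h3 := hN (3 * N) W 1 1 (by omega) le_rfl (Nat.coprime_one_left W)
    have h4 := hN (3 * N) W 1 (W - 1) (by omega) le_rfl (Nat.coprime_one_left W)
    rw [e1, one_mul] at h3
    rw [e2, one_mul] at h4
    have h5 : A ⊆ ((range (3 * N + 1)).filter fun n => n % W = 1 ∧ 1 ∣ n) ∪
        ((range (3 * N + 1)).filter fun n => n % W = W - 1 ∧ 1 ∣ n) := by
      intro n hn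
      rw [mem_filter] at hn
      rw [mem_union, mem_filter, mem_filter]
      rcases hn.2.1 with h | h
      · exact Or.inl ⟨hn.1, h, one_dvd _⟩
      · exact Or.inr ⟨hn.1, h, one_dvd _⟩
    have h6 := (card_le_card h5).trans (card_union_le _ _)
    omega
  have hpow : 3 * N ≤ 2 ^ (2 ^ (l - 4) + 2) := by
    rw [pow_add, hNd, NN]
    omega
  obtain ⟨q, hq, hq2⟩ := hE l A hl3 (by
    intro n hn
    rw [mem_filter, mem_range] at hn
    refine ⟨?_, by omega, hn.2.2⟩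
    rcases Nat.eq_zero_or_pos n with h0 | h0
    · exfalso
      rw [h0, Nat.zero_mod] at hn
      rcases hn.2.1 with h | h <;> omega
    · exact h0)
  refine ⟨q, hq, ?_⟩
  set a := Set.ncard {n | n ∈ A ∧ ¬ Nice q n} with ha
  set b := Set.ncard {n : ℕ | n ≤ 3 * N ∧ n % W = 1 ∧ ¬ Good l n} with hbd
  set c := Set.ncard {n : ℕ | n ≤ 3 * N ∧ n % W = W - 1 ∧ ¬ Good l n} with hcd
  have hfin : ∀ P : ℕ → Prop, {n : ℕ | n ≤ 3 * N ∧ P n}.Finite := fun P =>
    (Set.finite_Iic (3 * N)).subset fun n hn => hn.1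
  have hsub : {n : ℕ | n ≤ 3 * N ∧ (n % W = 1 ∨ n % W = W - 1) ∧ ¬ Nice q n} ⊆
      ({n | n ∈ A ∧ ¬ Nice q n} ∪ {n : ℕ | n ≤ 3 * N ∧ n % W = 1 ∧ ¬ Good l n}) ∪
        {n : ℕ | n ≤ 3 * N ∧ n % W = W - 1 ∧ ¬ Good l n} := by
    rintro n ⟨hn1, hn2, hn3⟩
    by_cases hg : Good l n
    · exact Or.inl (Or.inl ⟨mem_filter.2 ⟨mem_range.2 (by omega), hn2, hg⟩, hn3⟩)
    · rcases hn2 with h | h
      · exact Or.inl (Or.inr ⟨hn1, h, hg⟩)
      · exact Or.inr ⟨hn1, h, hg⟩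
  have hAfin : {n | n ∈ A ∧ ¬ Nice q n}.Finite :=
    A.finite_toSet.subset fun n hn => hn.1
  have hcard : Set.ncard {n : ℕ | n ≤ 3 * N ∧ (n % W = 1 ∨ n % W = W - 1) ∧ ¬ Nice q n} ≤
      a + b + c := by
    refine (Set.ncard_le_ncard hsub ((hAfin.union (hfin _)).union (hfin _))).trans ?_
    refine (Set.ncard_union_le _ _).trans ?_
    exact Nat.add_le_add_right (Set.ncard_union_le _ _) _
  have h7 : W * (3 * N / W) ≤ 3 * N := Nat.mul_div_le _ _
  have h8 : 4 * W * (64 * a) ≤ 4 * W * (2 * (3 * N / W + 1)) :=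
    Nat.mul_le_mul_left _ (hq2.trans hAcard)
  have h9 : 4 * W * (2 * (3 * N / W + 1)) = 8 * (W * (3 * N / W)) + 8 * W := by ring
  have h10 : 4 * W * Set.ncard {n : ℕ | n ≤ 3 * N ∧ (n % W = 1 ∨ n % W = W - 1) ∧ ¬ Nice q n} ≤
      4 * W * (a + b + c) := Nat.mul_le_mul_left _ hcard
  refine h10.trans ?_
  have h11 : 64 * (4 * W * (a + b + c)) =
      4 * W * (64 * a) + 16 * (16 * W * b) + 16 * (16 * W * c) := by ring
  omega

end Pool.Agent.UFL
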