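import Pool.Agent.UFL.St
import Pool.Agent.Lib_helper83.EF.Params

/-!
MP_dcc108_nt, module PC (helper37): Chebyshev lower bound for the pool.
-/

set_option autoImplicit false

namespace Pool.Agent.UFL

open Finset

theorem t_PC : S_PC := by
  intro l hl
  have h1 := Pool.Agent.Lib_helper83.EF.card_primes_two_pow (m := 20 * l) (by omega)
  have hnp : ¬ (2 ^ (20 * l)).Prime := Nat.Prime.not_prime_pow (by omega)
  have h2 : (range (2 ^ (20 * l) + 1)).filter Nat.Prime = pool l := by
    rw [range_add_one, filter_insert, if_neg hnp]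
    rfl
  rw [h2] at h1
  have h3 : ∀ m : ℕ, 4 ≤ m → 2 * (m + 1) ≤ 2 ^ m := by
    intro m hm
    induction m, hm using Nat.le_induction with
    | base => norm_num
    | succ n hn ih => rw [pow_succ]; omega
  have h4 := h3 (20 * l) (by omega)
  have h5 : 40 * l * (pool l).card = 2 * (20 * l * (pool l).card) := by ring
  rw [h5]
  omega

end Pool.Agent.UFL
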